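import Mathlib
import Pool.Agent.N15.RC.Fin

/-!
# Project SF (helper15): curvature of surfaces in a slab and the extrema of the height. Statements.

Compact surfaces `F` of any genus, with any number of components, embedded in the slab
`0 ≤ x₃ ≤ H` of Euclidean four-space, with boundary in the two hyperplanes `x₃ = 0`, `x₃ = H` and
vertical near the boundary. If there is no boundary in `x₃ = H`, this is a surface in the half-space
`x₃ ≥ 0` bounded by a link in `x₃ = 0`.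
-/

set_option autoImplicit false

namespace Pool.Agent.N15.SF

open scoped ContDiff RealInnerProductSpace ENNReal NNReal Topology
open MeasureTheory Set Metric Filter
open Pool.Agent.Y503.RB Pool.Agent.N503.ML Pool.Agent.N15.RC

/-- `φ` is a smooth embedding of the open set `U`. -/
structure EPatch (φ : ℂ → E4) (U : Set ℂ) : Prop where
  isOpen : IsOpen U
  smooth : ContDiffOn ℝ ∞ φ U
  imm : ∀ z ∈ U, Function.Injective (fderiv ℝ φ z)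
  emb : Topology.IsEmbedding (fun z : U => φ z)

/-- The slab `0 ≤ x₃ ≤ H`. -/
def slab (H : ℝ) : Set E4 := {x | 0 ≤ x 3 ∧ x 3 ≤ H}

/-- The open slab `0 < x₃ < H`. -/
def oslab (H : ℝ) : Set E4 := {x | 0 < x 3 ∧ x 3 < H}

/-- Compact smooth surface in the slab `0 ≤ x₃ ≤ H`, with boundary in the two hyperplanes `x₃ = 0` and
`x₃ = H`, vertical near the boundary. -/
structure Cob (F : Set E4) (H : ℝ) : Prop where
  compact : IsCompact F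
  sub : F ⊆ slab H
  loc : ∀ p ∈ F, ∃ (φ : ℂ → E4) (U : Set ℂ) (V : Set E4), EPatch φ U ∧ IsOpen V ∧ p ∈ V ∧
    F ∩ V = φ '' U ∩ slab H
  collar : ∃ ε : ℝ, 0 < ε ∧ ε < H ∧
    (∀ x : E4, 0 ≤ x 3 → x 3 ≤ ε → (x ∈ F ↔ x - (x 3) • vert ∈ F)) ∧
    (∀ x : E4, H - ε ≤ x 3 → x 3 ≤ H → (x ∈ F ↔ x + (H - x 3) • vert ∈ F))

/-- `F'` (in the slab of height `H'`) is the image of `F` (in the slab of height `H`) under a
diffeomorphism `Φ` of a neighbourhood `D` of `F` onto an open set, which is the identity on the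
boundary of `F` in `x₃ = 0` and the vertical translation by `H' - H` on the boundary in `x₃ = H`. -/
def SameType (F : Set E4) (H : ℝ) (F' : Set E4) (H' : ℝ) : Prop :=
  ∃ (Φ : E4 → E4) (D : Set E4), IsOpen D ∧ F ⊆ D ∧ ContDiffOn ℝ ∞ Φ D ∧ InjOn Φ D ∧
    (∀ x ∈ D, Function.Injective (fderiv ℝ Φ x)) ∧ F' = Φ '' F ∧
    (∀ x ∈ F, x 3 = 0 → Φ x = x) ∧ (∀ x ∈ F, x 3 = H → Φ x = x + (H' - H) • vert) ∧
    (∀ x ∈ F, ((Φ x) 3 = 0 ↔ x 3 = 0) ∧ ((Φ x) 3 = H' ↔ x 3 = H))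

/-- The height is a Morse function on the interior of `F`. -/
def MorseF (F : Set E4) (H : ℝ) : Prop :=
  ∀ p ∈ F ∩ oslab H, ∃ (φ : ℂ → E4) (U : Set ℂ) (V : Set E4) (z : ℂ), EPatch φ U ∧ IsOpen V ∧
    p ∈ V ∧ F ∩ V = φ '' U ∧ z ∈ U ∧ φ z = p ∧
    (fderiv ℝ (fun w => φ w 3) z = 0 → ∀ u : ℂ,
      (∀ v : ℂ, fderiv ℝ (fderiv ℝ (fun w => φ w 3)) z u v = 0) → u = 0)

/-- The local maxima of the linear function `⟨y, ·⟩` on the interior of `F`. -/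
def LMax (F : Set E4) (H : ℝ) (y : E4) : Set E4 :=
  {p | p ∈ F ∩ oslab H ∧ IsLocalMaxOn (fun x : E4 => ⟪y, x⟫) F p}

/-- The local minima of the linear function `⟨y, ·⟩` on the interior of `F`. -/
def LMin (F : Set E4) (H : ℝ) (y : E4) : Set E4 :=
  {p | p ∈ F ∩ oslab H ∧ IsLocalMinOn (fun x : E4 => ⟪y, x⟫) F p}

/-- The number of the local maxima of the height in the interior of `F`. -/
noncomputable def nmaxF (F : Set E4) (H : ℝ) : ℕ∞ :=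
  {p | p ∈ F ∩ oslab H ∧ IsLocalMaxOn (fun x : E4 => x 3) F p}.encard

/-- The number of the local minima of the height in the interior of `F`. -/
noncomputable def nminF (F : Set E4) (H : ℝ) : ℕ∞ :=
  {p | p ∈ F ∩ oslab H ∧ IsLocalMinOn (fun x : E4 => x 3) F p}.encard

/-- Countable families of parametrised pieces of `F` which cover the interior of `F`. -/
structure Cover (F : Set E4) (H : ℝ) (φ : ℕ → ℂ → E4) (U A : ℕ → Set ℂ) : Prop where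
  patch : ∀ i, IPatch (φ i) (U i)
  sub : ∀ i, φ i '' U i ⊆ F
  meas : ∀ i, MeasurableSet (A i)
  sub' : ∀ i, A i ⊆ U i
  cov : F ∩ oslab H ⊆ ⋃ i, φ i '' A i

/-- Upper total curvature of `F`: the infimum over all coverings by parametrised pieces. -/
noncomputable def uppF (F : Set E4) (H : ℝ) : ℝ≥0∞ :=
  ⨅ (φ : ℕ → ℂ → E4) (U : ℕ → Set ℂ) (A : ℕ → Set ℂ) (_ : Cover F H φ U A),
    ∑' i, ∫⁻ z in A i, curvE (φ i) z

/-- Lower total curvature of `F`. -/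
noncomputable def lowF (F : Set E4) (H : ℝ) : ℝ≥0∞ :=
  ⨅ (φ : ℕ → ℂ → E4) (U : ℕ → Set ℂ) (A : ℕ → Set ℂ) (_ : Cover F H φ U A),
    ∑' i, ∫⁻ z in A i, curvL (φ i) z

/-! ## The pieces -/

/-- CNT: counting for families. -/
def S_CNT : Prop := ∀ (φ : ℕ → ℂ → E4) (U A : ℕ → Set ℂ), (∀ i, IPatch (φ i) (U i)) →
  (∀ i, MeasurableSet (A i)) → (∀ i, A i ⊆ U i) →
  ∃ c : E4 → ℝ≥0∞, Measurable c ∧
    ∫⁻ y, c y = ENNReal.ofReal (1 / 4) * ∑' i, ∫⁻ z in A i, curvE (φ i) z ∧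
    (∀ y ∈ ball (0 : E4) 1, ∀ s : Finset (ℕ × ℂ),
      (∀ p ∈ s, p.2 ∈ A p.1 ∧ CritCap (φ p.1) y p.2) → (s.card : ℝ≥0∞) ≤ c y) ∧
    (∀ y : E4, ∀ b : ℝ≥0∞, (∀ s : Finset (ℕ × ℂ),
      (∀ p ∈ s, p.2 ∈ A p.1 ∧ CritCap (φ p.1) y p.2) → (s.card : ℝ≥0∞) ≤ b) → c y ≤ b) ∧
    (∀ y : E4, c y ≠ 0 → y ∈ ball (0 : E4) 1 ∧ 0 < y 3)

/-- TAN: near the boundary the vertical vector is tangent to the surface. -/
def S_TAN : Prop := ∀ (F : Set E4) (H ε : ℝ), 0 < ε → ε < H →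
  (∀ x : E4, 0 ≤ x 3 → x 3 ≤ ε → (x ∈ F ↔ x - (x 3) • vert ∈ F)) →
  (∀ x : E4, H - ε ≤ x 3 → x 3 ≤ H → (x ∈ F ↔ x + (H - x 3) • vert ∈ F)) →
  ∀ (φ : ℂ → E4) (U : Set ℂ) (V : Set E4), EPatch φ U → IsOpen V → F ∩ V = φ '' U →
  ∀ z ∈ U, (0 < φ z 3 ∧ φ z 3 < ε) ∨ (H - ε < φ z 3 ∧ φ z 3 < H) →
    ∃ v : ℂ, d1 φ v z = vert

/-- LP: countably many local parametrisations of the interior of a surface. -/
def S_LP : Prop := ∀ (F : Set E4) (H : ℝ), Cob F H →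
  ∃ (φ : ℕ → ℂ → E4) (U : ℕ → Set ℂ) (V : ℕ → Set E4),
    (∀ i, EPatch (φ i) (U i) ∧ IsOpen (V i) ∧ F ∩ V i = φ i '' U i ∧ V i ⊆ oslab H) ∧
      F ∩ oslab H ⊆ ⋃ i, φ i '' U i

/-- FIN: a disjoint covering of finite curvature. -/
def S_FIN : Prop := S_TAN → ∀ (F : Set E4) (H : ℝ), Cob F H →
  ∃ (φ : ℕ → ℂ → E4) (U A : ℕ → Set ℂ) (V : ℕ → Set E4), Cover F H φ U A ∧
    (∀ i, IsOpen (V i) ∧ F ∩ V i = φ i '' U i ∧ InjOn (φ i) (U i) ∧ V i ⊆ oslab H) ∧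
    (∀ i j, i ≠ j → Disjoint (φ i '' A i) (φ j '' A j)) ∧
    ∑' i, ∫⁻ z in A i, curvE (φ i) z ≠ ⊤ ∧ ∑' i, ∫⁻ z in A i, curvL (φ i) z ≠ ⊤

/-- CAPMAX: nondegenerate critical points of the right sign are local maxima. -/
def S_CAPMAX : Prop := ∀ (F : Set E4) (φ : ℂ → E4) (U : Set ℂ) (V : Set E4), IPatch φ U →
  InjOn φ U → IsOpen V → F ∩ V = φ '' U → Topology.IsEmbedding (fun z : U => φ z) →
  ∀ (y : E4) (z : ℂ), z ∈ U → CritCap φ y z → IsLocalMaxOn (fun x : E4 => ⟪y, x⟫) F (φ z)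

/-- NEAR: directions close to the vertical one. -/
def S_NEAR : Prop := ∀ (F : Set E4) (H : ℝ), Cob F H → MorseF F H →
  ∃ ε > 0, ∀ y : E4, ‖y - vert‖ < ε → (LMax F H y).encard ≤ nmaxF F H ∧
    (LMin F H y).encard ≤ nminF F H

/-- FINN: there are finitely many extrema of a Morse height. -/
def S_FINN : Prop := ∀ (F : Set E4) (H : ℝ), Cob F H → MorseF F H →
  nmaxF F H ≠ ⊤ ∧ nminF F H ≠ ⊤

/-- LAMC: stretched surfaces. -/
def S_LAMC : Prop := ∀ (F : Set E4) (H : ℝ), Cob F H → ∀ l : ℝ, 0 < l →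
  Cob (lam l '' F) (l * H) ∧ SameType F H (lam l '' F) (l * H)

/-- LIFT: the surface on which the height is the linear function `⟨y, ·⟩` outside of the collars. -/
def S_LIFT : Prop := S_TAN → ∀ (F : Set E4) (H : ℝ), Cob F H → ∀ y : E4, y 3 = 1 →
  (∀ p ∈ F ∩ oslab H, ∃ (φ : ℂ → E4) (U : Set ℂ) (V : Set E4) (z : ℂ), EPatch φ U ∧ IsOpen V ∧
    V ⊆ oslab H ∧ F ∩ V = φ '' U ∧ z ∈ U ∧ φ z = p ∧
    ((∀ v : ℂ, ⟪y, d1 φ v z⟫ = 0) → kdet φ y z ≠ 0)) →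
  ∃ (F' : Set E4) (H' : ℝ), Cob F' H' ∧ SameType F H F' H' ∧ MorseF F' H' ∧
    nmaxF F' H' ≤ (LMax F H y).encard ∧ nminF F' H' ≤ (LMin F H y).encard

/-- TRANS: transitivity. -/
def S_TRANS : Prop := ∀ (F F' F'' : Set E4) (H H' H'' : ℝ), SameType F H F' H' →
  SameType F' H' F'' H'' → SameType F H F'' H''

/-! ## The theorems -/

/-- (A) from curvature to extrema -/
def S_A : Prop := ∀ (F : Set E4) (H : ℝ), Cob F H → ∀ (a b : ℝ≥0) (η : ℝ), 0 < η →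
  ∃ (F' : Set E4) (H' : ℝ), Cob F' H' ∧ SameType F H F' H' ∧ MorseF F' H' ∧
    ENNReal.ofReal (Real.pi ^ 2) * (a * (nminF F' H' : ℝ≥0∞) + b * (nmaxF F' H' : ℝ≥0∞)) ≤
      a * lowF F H + b * uppF F H + ENNReal.ofReal η

/-- (B) from extrema to curvature -/
def S_B : Prop := ∀ (F : Set E4) (H : ℝ), Cob F H → MorseF F H → ∀ η : ℝ, 0 < η →
  ∃ (F' : Set E4) (H' : ℝ), Cob F' H' ∧ SameType F H F' H' ∧
    lowF F' H' ≤ ENNReal.ofReal (Real.pi ^ 2) * (nminF F H : ℝ≥0∞) + ENNReal.ofReal η ∧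
    uppF F' H' ≤ ENNReal.ofReal (Real.pi ^ 2) * (nmaxF F H : ℝ≥0∞) + ENNReal.ofReal η

def S_mainA : Prop := S_CNT → S_TAN → S_LP → S_LIFT → S_A
def S_mainB : Prop := S_CNT → S_TAN → S_FIN → S_CAPMAX → S_NEAR → S_FINN → S_LAMC → S_B

end Pool.Agent.N15.SF
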