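import Mathlib
import Pool.Agent.N15.SF.Stm

/-!
# Project SF: from curvature to extrema.
-/

set_option autoImplicit false

namespace Pool.Agent.N15.SF

open scoped ContDiff RealInnerProductSpace ENNReal NNReal Topology
open MeasureTheory Set Metric Filter
open Pool.Agent.Y503.RB Pool.Agent.N503.ML Pool.Agent.N15.RC

theorem EPatch.ipatch {φ : ℂ → E4} {U : Set ℂ} (h : EPatch φ U) : IPatch φ U :=
  ⟨h.isOpen, h.smooth, h.imm⟩

/-- Near-optimal coverings. -/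
theorem exists_cover {F : Set E4} {H : ℝ}
    (hne : ∃ (φ : ℕ → ℂ → E4) (U : ℕ → Set ℂ) (A : ℕ → Set ℂ), Cover F H φ U A)
    (K : (ℕ → ℂ → E4) → (ℕ → Set ℂ) → ℝ≥0∞) {η : ℝ≥0∞} (hη : η ≠ 0) :
    ∃ (φ : ℕ → ℂ → E4) (U : ℕ → Set ℂ) (A : ℕ → Set ℂ), Cover F H φ U A ∧
      K φ A ≤ (⨅ (φ : ℕ → ℂ → E4) (U : ℕ → Set ℂ) (A : ℕ → Set ℂ) (_ : Cover F H φ U A), K φ A) +
        η := by
  obtain ⟨I, hI⟩ : ∃ I, I = ⨅ (φ : ℕ → ℂ → E4) (U : ℕ → Set ℂ) (A : ℕ → Set ℂ)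
    (_ : Cover F H φ U A), K φ A := ⟨_, rfl⟩
  rw [← hI]
  by_cases hI2 : I = ⊤
  · obtain ⟨φ, U, A, h⟩ := hne
    exact ⟨φ, U, A, h, by rw [hI2, top_add]; exact le_top⟩
  · by_contra hc
    push Not at hc
    have h1 : I + η ≤ I := by
      nth_rewrite 2 [hI]
      exact le_iInf fun φ => le_iInf fun U => le_iInf fun A => le_iInf fun h => (hc φ U A h).le
    exact absurd h1 (not_le.2 (ENNReal.lt_add_right hI2 hη))

/-- A direction at which the weighted sum is at most its mean. -/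
theorem mean_dir {c d : E4 → ℝ≥0∞} (hc1 : Measurable c) (hd1 : Measurable d) {C D : ℝ≥0∞}
    (hc2 : ∫⁻ y, c y ≤ ENNReal.ofReal (1 / 4) * C) (hd2 : ∫⁻ y, d y ≤ ENNReal.ofReal (1 / 4) * D)
    (a b : ℝ≥0) {Z : Set E4} (hZ : volume Z = 0) :
    ∃ y ∈ HB, y ∉ Z ∧ ENNReal.ofReal (Real.pi ^ 2) * ((a : ℝ≥0∞) * d y + b * c y) ≤
      a * D + b * C := by
  set μ : Measure E4 := volume.restrict HB with hμ
  have hvol : volume HB = ENNReal.ofReal (Real.pi ^ 2 / 4) := vol_HB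
  have hμu : μ univ = ENNReal.ofReal (Real.pi ^ 2 / 4) := by
    rw [hμ, Measure.restrict_apply_univ, hvol]
  have hμ0 : μ ≠ 0 := by
    intro h
    have : μ univ = 0 := by rw [h]; rfl
    rw [hμu, ENNReal.ofReal_eq_zero] at this
    have := Real.pi_pos
    nlinarith [sq_nonneg Real.pi, mul_pos this this]
  have : IsFiniteMeasure μ := ⟨by rw [hμu]; exact ENNReal.ofReal_lt_top⟩
  have hN : μ (Z ∪ HBᶜ) = 0 := by
    refine measure_union_null ?_ ?_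
    · exact nonpos_iff_eq_zero.1 ((Measure.restrict_apply_le _ _).trans hZ.le)
    · rw [hμ, Measure.restrict_apply measurable_HB.compl, compl_inter_self, measure_empty]
  have hfm : Measurable fun y => (a : ℝ≥0∞) * d y + b * c y :=
    (hd1.const_mul _).add (hc1.const_mul _)
  obtain ⟨y, hyN, hy⟩ := exists_notMem_null_le_laverage hμ0 hfm.aemeasurable hN
  rw [mem_union, not_or, notMem_compl_iff] at hyN
  obtain ⟨hyZ, hyH⟩ := hyN
  refine ⟨y, hyH, hyZ, ?_⟩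
  have h1 : ∫⁻ y, ((a : ℝ≥0∞) * d y + b * c y) ∂μ ≤
      ENNReal.ofReal (1 / 4) * (a * D + b * C) := by
    calc ∫⁻ y, ((a : ℝ≥0∞) * d y + b * c y) ∂μ
        ≤ ∫⁻ y, ((a : ℝ≥0∞) * d y + b * c y) := setLIntegral_le_lintegral _ _
      _ = (a : ℝ≥0∞) * (∫⁻ y, d y) + b * (∫⁻ y, c y) := by
          rw [lintegral_add_left (hd1.const_mul _), lintegral_const_mul _ hd1,
            lintegral_const_mul _ hc1]
      _ ≤ (a : ℝ≥0∞) * (ENNReal.ofReal (1 / 4) * D) + b * (ENNReal.ofReal (1 / 4) * C) := by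
          gcongr
      _ = _ := by ring
  have h2 : ⨍⁻ y, ((a : ℝ≥0∞) * d y + b * c y) ∂μ =
      (ENNReal.ofReal (Real.pi ^ 2 / 4))⁻¹ * ∫⁻ y, ((a : ℝ≥0∞) * d y + b * c y) ∂μ := by
    rw [laverage_eq, hμu, ENNReal.div_eq_inv_mul]
  rw [h2] at hy
  calc ENNReal.ofReal (Real.pi ^ 2) * ((a : ℝ≥0∞) * d y + b * c y)
      ≤ ENNReal.ofReal (Real.pi ^ 2) * ((ENNReal.ofReal (Real.pi ^ 2 / 4))⁻¹ *
        (ENNReal.ofReal (1 / 4) * (a * D + b * C))) :=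
        mul_le_mul_right (hy.trans (mul_le_mul_right h1 _)) _
    _ = (ENNReal.ofReal (Real.pi ^ 2) * ((ENNReal.ofReal (Real.pi ^ 2 / 4))⁻¹ *
        ENNReal.ofReal (1 / 4))) * (a * D + b * C) := by ring
    _ = a * D + b * C := by
        rw [← ENNReal.ofReal_inv_of_pos (by positivity), ← ENNReal.ofReal_mul (by positivity),
          ← ENNReal.ofReal_mul (by positivity)]
        have : Real.pi ^ 2 * ((Real.pi ^ 2 / 4)⁻¹ * (1 / 4)) = 1 := by field_simp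
        rw [this, ENNReal.ofReal_one, one_mul]

/-- Counting extrema by parameters. -/
theorem enc_le {F : Set E4} {H : ℝ} {φ χ : ℕ → ℂ → E4} {U A : ℕ → Set ℂ} (hC : Cover F H φ U A)
    {y : E4} {S : Set E4}
    (hS : ∀ p ∈ S, p ∈ F ∩ oslab H ∧ ∀ i, ∀ z ∈ U i, φ i z = p → CritCap (χ i) y z) {c : ℝ≥0∞}
    (hc : ∀ s : Finset (ℕ × ℂ), (∀ p ∈ s, p.2 ∈ A p.1 ∧ CritCap (χ p.1) y p.2) →
      (s.card : ℝ≥0∞) ≤ c) : ((S.encard : ℕ∞) : ℝ≥0∞) ≤ c := by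
  classical
  refine encard_le_ennreal fun s hs => ?_
  have h1 : ∀ p ∈ s, ∃ x : ℕ × ℂ, x.2 ∈ A x.1 ∧ CritCap (χ x.1) y x.2 ∧ φ x.1 x.2 = p := by
    intro p hp
    obtain ⟨hFO, hm⟩ := hS p (hs p hp)
    obtain ⟨i, hi⟩ := mem_iUnion.1 (hC.cov hFO)
    obtain ⟨z, hz, hzp⟩ := hi
    exact ⟨(i, z), hz, hm i z (hC.sub' i hz) hzp, hzp⟩
  choose! f hf1 hf2 hf3 using h1
  have hinj : InjOn f (s : Set E4) := by
    intro p hp q hq hpq
    rw [← hf3 p hp, ← hf3 q hq, hpq]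
  rw [← Finset.card_image_of_injOn hinj]
  refine hc _ fun x hx => ?_
  obtain ⟨p, hp, rfl⟩ := Finset.mem_image.1 hx
  exact ⟨hf1 p hp, hf2 p hp⟩

theorem locmax_comp {F : Set E4} {φ : ℂ → E4} {U : Set ℂ} (hP : IPatch φ U) (hsub : φ '' U ⊆ F)
    {z : ℂ} (hz : z ∈ U) : Tendsto φ (𝓝 z) (𝓝[F] (φ z)) := by
  refine tendsto_nhdsWithin_iff.2 ⟨(hP.smooth.contDiffAt (hP.isOpen.mem_nhds hz)).continuousAt, ?_⟩
  filter_upwards [hP.isOpen.mem_nhds hz] with w hw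
  exact hsub ⟨w, hw, rfl⟩

theorem crit_max {F : Set E4} {φ : ℂ → E4} {U : Set ℂ} (hP : IPatch φ U) (hsub : φ '' U ⊆ F)
    {z : ℂ} (hz : z ∈ U) {y : E4} (hy3 : 0 < y 3)
    (hk : (∀ v : ℂ, ⟪y, d1 φ v z⟫ = 0) → kdet φ y z ≠ 0)
    (hm : IsLocalMaxOn (fun x : E4 => ⟪y, x⟫) F (φ z)) : CritCap φ y z := by
  have hsm : ContDiffAt ℝ ∞ φ z := hP.smooth.contDiffAt (hP.isOpen.mem_nhds hz)
  have hmax : IsLocalMax (fun w => ⟪y, φ w⟫ + 0) z := by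
    have hm' : ∀ᶠ x in 𝓝[F] (φ z), ⟪y, x⟫ ≤ ⟪y, φ z⟫ := hm
    filter_upwards [(locmax_comp hP hsub hz).eventually hm'] with w hw
    simpa using hw
  refine crit_of_max hsm hy3 hmax (hk fun v => ?_)
  rw [← (hess hsm y 0).1 v, hmax.fderiv_eq_zero]
  rfl

theorem crit_min {F : Set E4} {φ : ℂ → E4} {U : Set ℂ} (hP : IPatch φ U) (hsub : φ '' U ⊆ F)
    {z : ℂ} (hz : z ∈ U) {y : E4} (hy3 : 0 < y 3)
    (hk : (∀ v : ℂ, ⟪y, d1 φ v z⟫ = 0) → kdet φ y z ≠ 0)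
    (hm : IsLocalMinOn (fun x : E4 => ⟪y, x⟫) F (φ z)) : CritCap (opp φ) y z := by
  have hsm : ContDiffAt ℝ ∞ (opp φ) z := (hP.smooth.contDiffAt (hP.isOpen.mem_nhds hz)).neg
  have hmax : IsLocalMax (fun w => ⟪y, opp φ w⟫ + 0) z := by
    have hm' : ∀ᶠ x in 𝓝[F] (φ z), ⟪y, φ z⟫ ≤ ⟪y, x⟫ := hm
    filter_upwards [(locmax_comp hP hsub hz).eventually hm'] with w hw
    have a1 : ⟪y, opp φ w⟫ = -⟪y, φ w⟫ := inner_neg_right _ _
    have a2 : ⟪y, opp φ z⟫ = -⟪y, φ z⟫ := inner_neg_right _ _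
    rw [a1, a2]
    linarith
  refine crit_of_max hsm hy3 hmax ?_
  rw [kdet_opp]
  refine hk fun v => ?_
  have h1 : ⟪y, d1 (opp φ) v z⟫ = 0 := by
    rw [← (hess hsm y 0).1 v, hmax.fderiv_eq_zero]
    rfl
  rw [d1_opp, inner_neg_right, neg_eq_zero] at h1
  exact h1

theorem mainA : S_mainA := by
  intro hCNT hTAN hLP hLIFT F H hF a b η hη
  obtain ⟨ψ, Uψ, Vψ, hψ1, hψ2⟩ := hLP F H hF
  have hne : ∃ (φ : ℕ → ℂ → E4) (U : ℕ → Set ℂ) (A : ℕ → Set ℂ), Cover F H φ U A := by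
    refine ⟨ψ, Uψ, Uψ, fun i => (hψ1 i).1.ipatch, fun i => ?_, fun i => (hψ1 i).1.isOpen.measurableSet,
      fun i => subset_rfl, hψ2⟩
    rw [← (hψ1 i).2.2.1]
    exact inter_subset_left
  have hab : (0 : ℝ) < a + b + 1 := by positivity
  have hη' : ENNReal.ofReal (η / (a + b + 1)) ≠ 0 := by
    rw [Ne, ENNReal.ofReal_eq_zero, not_le]; positivity
  obtain ⟨φ1, U1, A1, hC1, hK1⟩ := exists_cover hne
    (fun φ A => ∑' i, ∫⁻ z in A i, curvE (φ i) z) hη'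
  obtain ⟨φ2, U2, A2, hC2, hK2⟩ := exists_cover hne
    (fun φ A => ∑' i, ∫⁻ z in A i, curvL (φ i) z) hη'
  obtain ⟨c, hc1, hc2, hc3, -, -⟩ := hCNT φ1 U1 A1 hC1.patch hC1.meas hC1.sub'
  obtain ⟨d, hd1, hd2, hd3, -, -⟩ := hCNT (fun i => opp (φ2 i)) U2 A2
    (fun i => ipatch_opp (hC2.patch i)) hC2.meas hC2.sub'
  choose Z1 hZ1 hZ1' using fun i => sard (hC1.patch i)
  choose Z2 hZ2 hZ2' using fun i => sard (hC2.patch i)
  choose Z3 hZ3 hZ3' using fun i => sard (hψ1 i).1.ipatch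
  have hZ : volume ((⋃ i, Z1 i) ∪ (⋃ i, Z2 i) ∪ (⋃ i, Z3 i)) = 0 :=
    measure_union_null (measure_union_null (measure_iUnion_null hZ1) (measure_iUnion_null hZ2))
      (measure_iUnion_null hZ3)
  obtain ⟨y, hyH, hyZ, hy⟩ := mean_dir hc1 hd1
    (C := uppF F H + ENNReal.ofReal (η / (a + b + 1)))
    (D := lowF F H + ENNReal.ofReal (η / (a + b + 1)))
    (by rw [hc2]; exact mul_le_mul_right hK1 _)
    (by
      rw [hd2]
      refine mul_le_mul_right ?_ _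
      simp only [curvE_opp]
      exact hK2) a b hZ
  simp only [mem_union, mem_iUnion, not_or, not_exists] at hyZ
  obtain ⟨⟨hy1, hy2⟩, hy3'⟩ := hyZ
  have hy0 : y ≠ 0 := by
    rintro rfl
    exact lt_irrefl _ hyH.2
  have hr : 0 < (y 3)⁻¹ := inv_pos.2 hyH.2
  obtain ⟨y', hy'⟩ : ∃ y', y' = (y 3)⁻¹ • y := ⟨_, rfl⟩
  have hy'3 : y' 3 = 1 := by
    rw [hy']
    show (y 3)⁻¹ * y 3 = 1
    exact inv_mul_cancel₀ hyH.2.ne'
  have hscale : ∀ (χ : ℂ → E4) (z : ℂ), ((∀ v : ℂ, ⟪y, d1 χ v z⟫ = 0) → kdet χ y z ≠ 0) →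
      (∀ v : ℂ, ⟪y', d1 χ v z⟫ = 0) → kdet χ y' z ≠ 0 := by
    intro χ z h hv
    rw [hy', kdet_smul]
    refine mul_ne_zero (by positivity) (h fun v => ?_)
    have := hv v
    rw [hy', real_inner_smul_left] at this
    exact (mul_eq_zero.1 this).resolve_left hr.ne'
  obtain ⟨F', H', g1, g2, g3, g4, g5⟩ := hLIFT hTAN F H hF y' hy'3 (by
    intro p hp
    obtain ⟨i, hi⟩ := mem_iUnion.1 (hψ2 hp)
    obtain ⟨z, hz, hzp⟩ := hi
    exact ⟨ψ i, Uψ i, Vψ i, z, (hψ1 i).1, (hψ1 i).2.1, (hψ1 i).2.2.2, (hψ1 i).2.2.1, hz, hzp,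
      hscale _ z (hZ3' i y (hy3' i) hy0 z hz)⟩)
  refine ⟨F', H', g1, g2, g3, ?_⟩
  have hmax : ((nmaxF F' H' : ℕ∞) : ℝ≥0∞) ≤ c y := by
    refine le_trans (b := (((LMax F H y').encard : ℕ∞) : ℝ≥0∞)) (by exact_mod_cast g4) ?_
    refine enc_le hC1 (χ := φ1) (y := y) (fun p hp => ⟨hp.1, ?_⟩) (hc3 y hyH.1)
    intro i z hz hzp
    have h1 := crit_max (hC1.patch i) (hC1.sub i) hz (y := y') (by rw [hy'3]; exact one_pos)
      (hscale _ z (hZ1' i y (hy1 i) hy0 z hz)) (by rw [hzp]; exact hp.2)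
    rw [hy'] at h1
    exact (critCap_smul hr).1 h1
  have hmin : ((nminF F' H' : ℕ∞) : ℝ≥0∞) ≤ d y := by
    refine le_trans (b := (((LMin F H y').encard : ℕ∞) : ℝ≥0∞)) (by exact_mod_cast g5) ?_
    refine enc_le hC2 (χ := fun i => opp (φ2 i)) (y := y) (fun p hp => ⟨hp.1, ?_⟩) (hd3 y hyH.1)
    intro i z hz hzp
    have h1 := crit_min (hC2.patch i) (hC2.sub i) hz (y := y') (by rw [hy'3]; exact one_pos)
      (hscale _ z (hZ2' i y (hy2 i) hy0 z hz)) (by rw [hzp]; exact hp.2)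
    rw [hy'] at h1
    exact (critCap_smul hr).1 h1
  refine le_trans (mul_le_mul_right (add_le_add (mul_le_mul_right hmin _)
    (mul_le_mul_right hmax _)) _) (hy.trans ?_)
  have h5 : (a : ℝ≥0∞) * ENNReal.ofReal (η / (a + b + 1)) +
      b * ENNReal.ofReal (η / (a + b + 1)) ≤ ENNReal.ofReal η := by
    rw [← add_mul, ← ENNReal.coe_add, ← ENNReal.ofReal_coe_nnreal,
      ← ENNReal.ofReal_mul (by positivity)]
    apply ENNReal.ofReal_le_ofReal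
    push_cast
    rw [← mul_div_assoc, div_le_iff₀ hab]
    nlinarith
  calc (a : ℝ≥0∞) * (lowF F H + ENNReal.ofReal (η / (a + b + 1))) +
        b * (uppF F H + ENNReal.ofReal (η / (a + b + 1)))
      = a * lowF F H + b * uppF F H + (a * ENNReal.ofReal (η / (a + b + 1)) +
        b * ENNReal.ofReal (η / (a + b + 1))) := by ring
    _ ≤ _ := by gcongr

end Pool.Agent.N15.SF
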