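import Mathlib
import Pool.Agent.N15.SF.Stm

/-!
# Project SF (helper15): the corrected statement of FIN (with the embedding property).
-/

set_option autoImplicit false

namespace Pool.Agent.N15.SF

open scoped ContDiff RealInnerProductSpace ENNReal NNReal Topology
open MeasureTheory Set Metric Filter
open Pool.Agent.Y503.RB Pool.Agent.N503.ML Pool.Agent.N15.RC

/-- FIN: a disjoint covering of finite curvature (with the embedding property). -/
def S_FIN' : Prop := S_TAN → ∀ (F : Set E4) (H : ℝ), Cob F H →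
  ∃ (φ : ℕ → ℂ → E4) (U A : ℕ → Set ℂ) (V : ℕ → Set E4), Cover F H φ U A ∧
    (∀ i, EPatch (φ i) (U i) ∧ IsOpen (V i) ∧ F ∩ V i = φ i '' U i ∧ V i ⊆ oslab H) ∧
    (∀ i j, i ≠ j → Disjoint (φ i '' A i) (φ j '' A j)) ∧
    ∑' i, ∫⁻ z in A i, curvE (φ i) z ≠ ⊤ ∧ ∑' i, ∫⁻ z in A i, curvL (φ i) z ≠ ⊤

end Pool.Agent.N15.SF
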