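import Mathlib
import Pool.Agent.N15.SF.MainA
import Pool.Agent.N15.SF.Stm3

/-!
# Project SF: from extrema to curvature.
-/

set_option autoImplicit false

namespace Pool.Agent.N15.SF

open scoped ContDiff RealInnerProductSpace ENNReal NNReal Topology
open MeasureTheory Set Metric Filter
open Pool.Agent.Y503.RB Pool.Agent.N503.ML Pool.Agent.N15.RC

/-- The upper curvature of a stretched family of patches. -/
theorem stretch (hCNT : S_CNT) {χ : ℕ → ℂ → E4} {U A : ℕ → Set ℂ} (hP : ∀ i, IPatch (χ i) (U i))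
    (hA : ∀ i, MeasurableSet (A i)) (hAU : ∀ i, A i ⊆ U i)
    (hK : ∑' i, ∫⁻ z in A i, curvE (χ i) z ≠ ⊤) {m : ℕ} {ε : ℝ} (hε : 0 < ε)
    (hnear : ∀ p : E4, ‖p - vert‖ < ε → ∀ s : Finset (ℕ × ℂ),
      (∀ x ∈ s, x.2 ∈ A x.1 ∧ CritCap (χ x.1) p x.2) → s.card ≤ m) :
    ∃ C : ℝ, 0 ≤ C ∧ ∀ l : ℝ, 0 < l →
      ∑' i, ∫⁻ z in A i, curvE (fun w => lam l (χ i w)) z ≤
        ENNReal.ofReal (Real.pi ^ 2 * m + C / l) := by
  obtain ⟨c, hc1, hc2, hc3, -, -⟩ := hCNT χ U A hP hA hAU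
  set K : ℝ≥0∞ := ∑' i, ∫⁻ z in A i, curvE (χ i) z with hKd
  set σ : ℝ := (1 + 1 / ε)⁻¹ with hσd
  have hσ : 0 < σ := by positivity
  refine ⟨K.toReal / σ ^ 4, by positivity, fun l hl => ?_⟩
  obtain ⟨c', hc1', hc2', -, hc4', hc5'⟩ := hCNT (fun i w => lam l (χ i w)) U A
    (fun i => ipatch_lam (hP i) hl) hA hAU
  have hbound : ∀ y, c' y ≤ HB.indicator (fun _ => (m : ℝ≥0∞)) y + c (σ • lam l y) := by
    intro y
    by_cases hy0 : c' y = 0
    · rw [hy0]; exact bot_le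
    obtain ⟨hyb, hy3⟩ := hc5' y hy0
    have hiff : ∀ i, ∀ z ∈ U i, CritCap (fun w => lam l (χ i w)) y z ↔
        CritCap (χ i) (lam l y) z := fun i z hz =>
      critCap_lam ((hP i).smooth.contDiffAt ((hP i).isOpen.mem_nhds hz)) hl y
    have hl3 : 0 < l * y 3 := mul_pos hl hy3
    by_cases hn : ‖y - (y 3) • vert‖ < ε * (l * y 3)
    · -- almost vertical
      refine le_trans ?_ (le_add_right le_rfl)
      rw [indicator_of_mem (show y ∈ HB from ⟨hyb, hy3⟩)]
      refine hc4' y _ fun s hs => ?_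
      have h1 : ‖(l * y 3)⁻¹ • lam l y - vert‖ < ε := by
        have e : (l * y 3)⁻¹ • lam l y - vert = (l * y 3)⁻¹ • (y - (y 3) • vert) := by
          rw [lam_apply, smul_add, smul_sub, smul_smul, smul_smul]
          have : (l * y 3)⁻¹ * ((l - 1) * y 3) = 1 - (l * y 3)⁻¹ * y 3 := by
            field_simp
          rw [this, sub_smul, one_smul]
          abel
        rw [e, norm_smul, Real.norm_eq_abs, abs_of_pos (inv_pos.2 hl3), inv_mul_lt_iff₀ hl3,
          mul_comm]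
        exact hn
      have h2 := hnear _ h1 s fun x hx => ⟨(hs x hx).1, by
        rw [critCap_smul (inv_pos.2 hl3)]
        exact (hiff x.1 x.2 (hAU _ (hs x hx).1)).1 (hs x hx).2⟩
      exact_mod_cast h2
    · refine le_trans ?_ (le_add_left le_rfl)
      push Not at hn
      have hmem : σ • lam l y ∈ ball (0 : E4) 1 := by
        rw [mem_ball_zero_iff, norm_smul, Real.norm_eq_abs, abs_of_pos hσ]
        have h1 := norm_le_lam y l
        rw [abs_of_pos hl3] at h1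
        have h2 : ‖y - (y 3) • vert‖ ≤ ‖y‖ := by
          have e : ⟪y - (y 3) • vert, (y 3) • vert⟫ = 0 := by
            rw [inner_sub_left, real_inner_smul_right, real_inner_smul_right,
              real_inner_smul_left, real_inner_self_eq_norm_sq, norm_vert, real_inner_comm,
              inner_vert]
            ring
          have e2 := norm_add_sq_eq_norm_sq_add_norm_sq_of_inner_eq_zero _ _ e
          rw [sub_add_cancel] at e2
          have e3 := norm_nonneg (y - (y 3) • vert)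
          have e4 := norm_nonneg y
          have e5 := norm_nonneg ((y 3) • vert)
          by_contra hcon
          push Not at hcon
          nlinarith
        have h3 := mem_ball_zero_iff.1 hyb
        have h4 : l * y 3 ≤ 1 / ε * ‖y - (y 3) • vert‖ := by
          rw [one_div, ← div_eq_inv_mul, le_div_iff₀ hε, mul_comm]
          exact hn
        have h5 : ‖lam l y‖ < 1 + 1 / ε := by
          have h6 : (0 : ℝ) < 1 / ε := by positivity
          nlinarith
        rw [hσd, inv_mul_lt_one₀ (by positivity)]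
        exact h5
      refine hc4' y _ fun s hs => hc3 _ hmem s fun x hx => ⟨(hs x hx).1, ?_⟩
      rw [critCap_smul hσ]
      exact (hiff x.1 x.2 (hAU _ (hs x hx).1)).1 (hs x hx).2
  have h1 : ENNReal.ofReal (1 / 4) * ∑' i, ∫⁻ z in A i, curvE (fun w => lam l (χ i w)) z ≤
      m * ENNReal.ofReal (Real.pi ^ 2 / 4) +
        ENNReal.ofReal ((σ ^ 4 * l)⁻¹) * (ENNReal.ofReal (1 / 4) * K) := by
    rw [← hc2', ← vol_HB]
    calc ∫⁻ y, c' y ≤ ∫⁻ y, (HB.indicator (fun _ => (m : ℝ≥0∞)) y + c (σ • lam l y)) :=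
          lintegral_mono hbound
      _ = _ := by
          rw [lintegral_add_left (measurable_const.indicator measurable_HB),
            lintegral_indicator measurable_HB, setLIntegral_const, lint_lam hc1 hσ hl, hc2]
  have h2 : ENNReal.ofReal 4 * (ENNReal.ofReal (1 / 4) *
      ∑' i, ∫⁻ z in A i, curvE (fun w => lam l (χ i w)) z) =
      ∑' i, ∫⁻ z in A i, curvE (fun w => lam l (χ i w)) z := by
    rw [← mul_assoc, ← ENNReal.ofReal_mul (by norm_num)]
    norm_num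
  rw [← h2]
  refine (mul_le_mul_right h1 (ENNReal.ofReal 4)).trans ?_
  have hK' : K = ENNReal.ofReal K.toReal := (ENNReal.ofReal_toReal hK).symm
  have hK0 : 0 ≤ K.toReal := ENNReal.toReal_nonneg
  rw [hK', ← ENNReal.ofReal_natCast, ← ENNReal.ofReal_mul (by positivity),
    ← ENNReal.ofReal_mul (by positivity), ← ENNReal.ofReal_mul (by positivity),
    ← ENNReal.ofReal_add (by positivity) (by positivity), ← ENNReal.ofReal_mul (by positivity)]
  apply ENNReal.ofReal_le_ofReal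
  rw [ENNReal.toReal_ofReal hK0]
  apply le_of_eq
  field_simp

/-- Counting pairs by their images. -/
theorem card_pairs {φ : ℕ → ℂ → E4} {U A : ℕ → Set ℂ} (hAU : ∀ i, A i ⊆ U i)
    (hinj : ∀ i, InjOn (φ i) (U i))
    (hdis : ∀ i j, i ≠ j → Disjoint (φ i '' A i) (φ j '' A j)) {S : Set E4} {m : ℕ}
    (hS : S.encard ≤ m) {s : Finset (ℕ × ℂ)} (hs : ∀ x ∈ s, x.2 ∈ A x.1 ∧ φ x.1 x.2 ∈ S) :
    s.card ≤ m := by
  classical
  have hi : InjOn (fun x : ℕ × ℂ => φ x.1 x.2) (s : Set (ℕ × ℂ)) := by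
    intro x hx y hy hxy
    have hx' := hs x hx
    have hy' := hs y hy
    have h1 : x.1 = y.1 := by
      by_contra hne
      exact Set.disjoint_left.1 (hdis _ _ hne) ⟨x.2, hx'.1, rfl⟩ ⟨y.2, hy'.1, hxy.symm⟩
    have h2 : x.2 = y.2 := by
      refine hinj x.1 (hAU _ hx'.1) ?_ ?_
      · rw [h1]; exact hAU _ hy'.1
      · have h3 : φ x.1 x.2 = φ y.1 y.2 := hxy
        rw [h3, h1]
    exact Prod.ext h1 h2
  have h1 : ((s.image (fun x : ℕ × ℂ => φ x.1 x.2) : Finset E4) : Set E4) ⊆ S := by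
    intro p hp
    obtain ⟨x, hx, rfl⟩ := Finset.mem_image.1 (Finset.mem_coe.1 hp)
    exact (hs x hx).2
  have h2 := (Set.encard_le_encard h1).trans hS
  rw [Set.encard_coe_eq_coe_finsetCard, Finset.card_image_of_injOn hi] at h2
  exact_mod_cast h2

/-- The opposite of CAPMAX. -/
theorem capmin (hCM : S_CAPMAX) {F : Set E4} {φ : ℂ → E4} {U : Set ℂ} {V : Set E4}
    (hP : IPatch φ U) (hinj : InjOn φ U) (hV : IsOpen V) (hFV : F ∩ V = φ '' U)
    (hemb : Topology.IsEmbedding (fun z : U => φ z)) {y : E4} {z : ℂ} (hz : z ∈ U)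
    (hc : CritCap (opp φ) y z) : IsLocalMinOn (fun x : E4 => ⟪y, x⟫) F (φ z) := by
  have hVn : IsOpen ((fun x : E4 => -x) ⁻¹' V) := hV.preimage continuous_neg
  have h1 : ((fun x : E4 => -x) ⁻¹' F) ∩ ((fun x : E4 => -x) ⁻¹' V) = opp φ '' U := by
    rw [← preimage_inter, hFV]
    ext x
    constructor
    · rintro ⟨w, hw, hwx⟩
      refine ⟨w, hw, ?_⟩
      show -φ w = x
      rw [hwx, neg_neg]
    · rintro ⟨w, hw, rfl⟩
      exact ⟨w, hw, by show φ w = - -φ w; rw [neg_neg]⟩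
  have h2 : Topology.IsEmbedding (fun z : U => opp φ z) := by
    have : (fun z : U => opp φ z) = (Homeomorph.neg E4) ∘ (fun z : U => φ z) := rfl
    rw [this]
    exact (Homeomorph.neg E4).isEmbedding.comp hemb
  have hinj' : InjOn (opp φ) U := fun a ha b hb hab => hinj ha hb (neg_injective hab)
  have h3 := hCM _ (opp φ) U _ (ipatch_opp hP) hinj' hVn h1 h2 y z hz hc
  have h3' : ∀ᶠ x in 𝓝[(fun x : E4 => -x) ⁻¹' F] (-φ z), ⟪y, x⟫ ≤ ⟪y, -φ z⟫ := h3
  have h4 : Tendsto (fun x : E4 => -x) (𝓝[F] (φ z)) (𝓝[(fun x : E4 => -x) ⁻¹' F] (-φ z)) := by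
    refine tendsto_nhdsWithin_iff.2 ⟨(continuous_neg.tendsto _).mono_left nhdsWithin_le_nhds, ?_⟩
    filter_upwards [self_mem_nhdsWithin] with x hx
    show - -x ∈ F
    rwa [neg_neg]
  show ∀ᶠ x in 𝓝[F] (φ z), ⟪y, φ z⟫ ≤ ⟪y, x⟫
  filter_upwards [h4.eventually h3'] with x hx
  rw [inner_neg_right, inner_neg_right] at hx
  linarith

theorem cover_lam {F : Set E4} {H : ℝ} {φ : ℕ → ℂ → E4} {U A : ℕ → Set ℂ} (h : Cover F H φ U A)
    {l : ℝ} (hl : 0 < l) : Cover (lam l '' F) (l * H) (fun i w => lam l (φ i w)) U A := by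
  refine ⟨fun i => ipatch_lam (h.patch i) hl, fun i => ?_, h.meas, h.sub', ?_⟩
  · rintro _ ⟨w, hw, rfl⟩
    exact ⟨φ i w, h.sub i ⟨w, hw, rfl⟩, rfl⟩
  · rintro _ ⟨⟨p, hp, rfl⟩, h1, h2⟩
    rw [lam_three] at h1 h2
    have hpo : p ∈ F ∩ oslab H := ⟨hp, (mul_pos_iff_of_pos_left hl).1 h1,
      lt_of_mul_lt_mul_left h2 hl.le⟩
    obtain ⟨i, hi⟩ := mem_iUnion.1 (h.cov hpo)
    obtain ⟨w, hw, rfl⟩ := hi
    exact mem_iUnion.2 ⟨i, w, hw, rfl⟩

theorem lowF_le {F : Set E4} {H : ℝ} {φ : ℕ → ℂ → E4} {U A : ℕ → Set ℂ} (h : Cover F H φ U A) :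
    lowF F H ≤ ∑' i, ∫⁻ z in A i, curvL (φ i) z := by
  unfold lowF
  exact iInf_le_of_le φ (iInf_le_of_le U (iInf_le_of_le A (iInf_le_of_le h le_rfl)))

theorem uppF_le {F : Set E4} {H : ℝ} {φ : ℕ → ℂ → E4} {U A : ℕ → Set ℂ} (h : Cover F H φ U A) :
    uppF F H ≤ ∑' i, ∫⁻ z in A i, curvE (φ i) z := by
  unfold uppF
  exact iInf_le_of_le φ (iInf_le_of_le U (iInf_le_of_le A (iInf_le_of_le h le_rfl)))

theorem mainB (hCNT : S_CNT) (hTAN : S_TAN) (hFIN : S_FIN') (hCM : S_CAPMAX) (hNEAR : S_NEAR)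
    (hFINN : S_FINN) (hLAMC : S_LAMC) : S_B := by
  intro F H hF hM η hη
  obtain ⟨φ, U, A, V, hC, hV, hdis, hK1, hK2⟩ := hFIN hTAN F H hF
  obtain ⟨ε, hε, hnear⟩ := hNEAR F H hF hM
  obtain ⟨hf1, hf2⟩ := hFINN F H hF hM
  obtain ⟨M, hMe⟩ := ENat.ne_top_iff_exists.1 hf1
  obtain ⟨m, hme⟩ := ENat.ne_top_iff_exists.1 hf2
  have hinj : ∀ i, InjOn (φ i) (U i) := by
    intro i a ha b hb hab
    exact congrArg Subtype.val ((hV i).1.emb.injective (a₁ := ⟨a, ha⟩) (a₂ := ⟨b, hb⟩) hab)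
  have hin : ∀ i, ∀ z ∈ A i, φ i z ∈ F ∩ oslab H := by
    intro i z hz
    have h1 : φ i z ∈ F ∩ V i := by
      rw [(hV i).2.2.1]
      exact ⟨z, hC.sub' i hz, rfl⟩
    exact ⟨h1.1, (hV i).2.2.2 h1.2⟩
  obtain ⟨C, hC0, hCb⟩ := stretch hCNT hC.patch hC.meas hC.sub' hK1 (m := M) hε
    (fun p hp s hs => card_pairs hC.sub' hinj hdis ((hnear p hp).1.trans hMe.ge)
      (fun x hx => ⟨(hs x hx).1, hin x.1 x.2 (hs x hx).1,
        hCM F (φ x.1) (U x.1) (V x.1) (hC.patch x.1) (hinj x.1) (hV x.1).2.1 (hV x.1).2.2.1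
          (hV x.1).1.emb p x.2 (hC.sub' _ (hs x hx).1) (hs x hx).2⟩))
  obtain ⟨D, hD0, hDb⟩ := stretch hCNT (fun i => ipatch_opp (hC.patch i)) hC.meas hC.sub'
    (by simp only [curvE_opp]; exact hK2) (m := m) hε
    (fun p hp s hs => card_pairs hC.sub' hinj hdis ((hnear p hp).2.trans hme.ge)
      (fun x hx => ⟨(hs x hx).1, hin x.1 x.2 (hs x hx).1,
        capmin hCM (hC.patch x.1) (hinj x.1) (hV x.1).2.1 (hV x.1).2.2.1
          (hV x.1).1.emb (hC.sub' _ (hs x hx).1) (hs x hx).2⟩))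
  have hl : 0 < (C + D) / η + 1 := by positivity
  obtain ⟨x1, x2⟩ := hLAMC F H hF _ hl
  have hgen : ∀ (E : ℝ) (n : ℕ), 0 ≤ E → E ≤ C + D →
      ENNReal.ofReal (Real.pi ^ 2 * n + E / ((C + D) / η + 1)) ≤
        ENNReal.ofReal (Real.pi ^ 2) * (n : ℝ≥0∞) + ENNReal.ofReal η := by
    intro E n hE hE2
    have h1 : E / ((C + D) / η + 1) ≤ η := by
      rw [div_le_iff₀ hl]
      have : η * ((C + D) / η + 1) = C + D + η := by field_simp
      rw [this]
      linarith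
    have h2 : ENNReal.ofReal (Real.pi ^ 2) * (n : ℝ≥0∞) + ENNReal.ofReal η =
        ENNReal.ofReal (Real.pi ^ 2 * n + η) := by
      rw [ENNReal.ofReal_add (by positivity) hη.le, ENNReal.ofReal_mul (by positivity),
        ENNReal.ofReal_natCast]
    rw [h2]
    exact ENNReal.ofReal_le_ofReal (by linarith)
  refine ⟨_, _, x1, x2, ?_, ?_⟩
  · refine (lowF_le (cover_lam hC hl)).trans ?_
    have h1 : ∀ i z, curvL (fun w => lam ((C + D) / η + 1) (φ i w)) z =
        curvE (fun w => lam ((C + D) / η + 1) (opp (φ i) w)) z := by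
      intro i z
      rw [lam_opp, curvE_opp]
    simp only [h1]
    rw [← hme]
    exact (hDb _ hl).trans (by simpa using hgen D m hD0 (by linarith))
  · refine (uppF_le (cover_lam hC hl)).trans ?_
    rw [← hMe]
    exact (hCb _ hl).trans (by simpa using hgen C M hC0 (by linarith))

end Pool.Agent.N15.SF
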