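import Mathlib
import Pool.Agent.N15.SF.MainB

/-!
# Project SF: curvature and extrema over classes of surfaces.
-/

set_option autoImplicit false

namespace Pool.Agent.N15.SF

open scoped ContDiff RealInnerProductSpace ENNReal NNReal Topology
open MeasureTheory Set Metric Filter
open Pool.Agent.Y503.RB Pool.Agent.N503.ML Pool.Agent.N15.RC

/-- Classes of surfaces which contain all surfaces of the same type. -/
structure CCls (Q : Set E4 → ℝ → Prop) : Prop where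
  cob : ∀ F H, Q F H → Cob F H
  closed : ∀ F H F' H', Q F H → Cob F' H' → SameType F H F' H' → Q F' H'

theorem inf2_le {P : Set E4 → ℝ → Prop} (f : Set E4 → ℝ → ℝ≥0∞) {F : Set E4} {H : ℝ} (h : P F H) :
    ⨅ (F : Set E4) (H : ℝ) (_ : P F H), f F H ≤ f F H :=
  iInf_le_of_le F (iInf_le_of_le H (iInf_le_of_le h le_rfl))

theorem inf_cls (hA : S_A) (hB : S_B) {Q : Set E4 → ℝ → Prop} (hQ : CCls Q) (a b : ℝ≥0) :
    ⨅ (F : Set E4) (H : ℝ) (_ : Q F H), ((a : ℝ≥0∞) * lowF F H + b * uppF F H) =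
      ⨅ (F : Set E4) (H : ℝ) (_ : Q F H ∧ MorseF F H),
        ENNReal.ofReal (Real.pi ^ 2) * ((a : ℝ≥0∞) * (nminF F H : ℝ≥0∞) +
          b * (nmaxF F H : ℝ≥0∞)) := by
  apply le_antisymm
  · refine le_iInf fun G => le_iInf fun H => le_iInf fun hG => ?_
    refine ENNReal.le_of_forall_pos_le_add fun ε hε _ => ?_
    have hab : (0 : ℝ) < a + b + 1 := by positivity
    obtain ⟨F', H', h1, h2, h3, h4⟩ := hB G H (hQ.cob _ _ hG.1) hG.2 (ε / (a + b + 1)) (by positivity)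
    refine (inf2_le (fun F H => (a : ℝ≥0∞) * lowF F H + b * uppF F H)
      (hQ.closed _ _ _ _ hG.1 h1 h2)).trans ?_
    refine (add_le_add (mul_le_mul_right h3 _) (mul_le_mul_right h4 _)).trans ?_
    have h5 : (a : ℝ≥0∞) * ENNReal.ofReal (ε / (a + b + 1)) + b * ENNReal.ofReal (ε / (a + b + 1)) ≤
        (ε : ℝ≥0∞) := by
      rw [← add_mul, ← ENNReal.coe_add, ← ENNReal.ofReal_coe_nnreal,
        ← ENNReal.ofReal_mul (by positivity), ← ENNReal.ofReal_coe_nnreal (p := ε)]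
      apply ENNReal.ofReal_le_ofReal
      push_cast
      rw [← mul_div_assoc, div_le_iff₀ hab]
      have : (0 : ℝ) < ε := by exact_mod_cast hε
      nlinarith
    calc _ = ENNReal.ofReal (Real.pi ^ 2) * ((a : ℝ≥0∞) * (nminF G H : ℝ≥0∞) +
          b * (nmaxF G H : ℝ≥0∞)) + ((a : ℝ≥0∞) * ENNReal.ofReal (ε / (a + b + 1)) +
          b * ENNReal.ofReal (ε / (a + b + 1))) := by ring
      _ ≤ _ := by gcongr
  · refine le_iInf fun G => le_iInf fun H => le_iInf fun hG => ?_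
    refine ENNReal.le_of_forall_pos_le_add fun ε hε _ => ?_
    obtain ⟨F', H', h1, h2, h3, h4⟩ := hA G H (hQ.cob _ _ hG) a b ε (by exact_mod_cast hε)
    refine (inf2_le (P := fun F H => Q F H ∧ MorseF F H)
      (fun F H => ENNReal.ofReal (Real.pi ^ 2) * ((a : ℝ≥0∞) * (nminF F H : ℝ≥0∞) +
          b * (nmaxF F H : ℝ≥0∞))) ⟨hQ.closed _ _ _ _ hG h1 h2, h3⟩).trans (h4.trans ?_)
    rw [ENNReal.ofReal_coe_nnreal]

theorem nat_of_lt {n : ℕ∞} {m : ℕ} (h : ENNReal.ofReal (Real.pi ^ 2) * (n : ℝ≥0∞) <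
    ENNReal.ofReal (Real.pi ^ 2 * (m + 1))) : n ≤ m := by
  have h4 : ENNReal.ofReal (Real.pi ^ 2) * (n : ℝ≥0∞) <
      ENNReal.ofReal (Real.pi ^ 2) * ((m + 1 : ℕ) : ℝ≥0∞) := by
    refine h.trans_eq ?_
    rw [← ENNReal.ofReal_natCast, ← ENNReal.ofReal_mul (by positivity)]
    push_cast
    rfl
  have h5 : (n : ℝ≥0∞) < ((m + 1 : ℕ) : ℝ≥0∞) := by
    by_contra hc
    push Not at hc
    exact absurd (mul_le_mul_right hc (ENNReal.ofReal (Real.pi ^ 2))) (not_le.2 h4)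
  have h6 : n < ((m + 1 : ℕ) : ℕ∞) := by exact_mod_cast h5
  have h7 : n < (m : ℕ∞) + 1 := by simpa using h6
  exact Order.lt_add_one_iff_of_not_isMax (by simp) |>.1 h7

theorem exists_eta {x y : ℝ≥0∞} (h : x < y) : ∃ η : ℝ, 0 < η ∧ x + ENNReal.ofReal η < y := by
  obtain ⟨z, hz1, hz2⟩ := exists_between h
  have hx : x ≠ ⊤ := h.ne_top
  have h1 : 0 < z - x := tsub_pos_of_lt hz1
  by_cases hz : z - x = ⊤
  · exact absurd hz (ENNReal.sub_ne_top hz2.ne_top)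
  · refine ⟨(z - x).toReal, ENNReal.toReal_pos h1.ne' hz, ?_⟩
    rw [ENNReal.ofReal_toReal hz, add_tsub_cancel_of_le hz1.le]
    exact hz2

theorem tfae_low (hA : S_A) (hB : S_B) {Q : Set E4 → ℝ → Prop} (hQ : CCls Q) (m : ℕ) :
    List.TFAE [
      ∃ F H, Q F H ∧ MorseF F H ∧ nminF F H ≤ m,
      ∃ F H, Q F H ∧ lowF F H < ENNReal.ofReal (Real.pi ^ 2 * (m + 1)),
      ∀ η : ℝ, 0 < η → ∃ F H, Q F H ∧ lowF F H ≤ ENNReal.ofReal (Real.pi ^ 2 * m + η)] := by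
  have hpi : 0 < Real.pi ^ 2 := by positivity
  tfae_have 1 → 3 := by
    rintro ⟨F, H, h1, h3, h4⟩ η hη
    obtain ⟨F', H', a1, a2, a3, -⟩ := hB F H (hQ.cob _ _ h1) h3 η hη
    refine ⟨F', H', hQ.closed _ _ _ _ h1 a1 a2, a3.trans ?_⟩
    have h5 : (nminF F H : ℝ≥0∞) ≤ (m : ℝ≥0∞) := by exact_mod_cast h4
    rw [ENNReal.ofReal_add (by positivity) hη.le, ENNReal.ofReal_mul (by positivity),
      ENNReal.ofReal_natCast]
    gcongr
  tfae_have 3 → 2 := by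
    intro h
    obtain ⟨F, H, h1, h3⟩ := h 1 one_pos
    refine ⟨F, H, h1, h3.trans_lt ?_⟩
    rw [ENNReal.ofReal_lt_ofReal_iff (by positivity)]
    have := Real.pi_gt_three
    nlinarith
  tfae_have 2 → 1 := by
    rintro ⟨F, H, h1, h3⟩
    obtain ⟨η, hη, hη2⟩ := exists_eta h3
    obtain ⟨F', H', a1, a2, a3, a4⟩ := hA F H (hQ.cob _ _ h1) 1 0 η hη
    refine ⟨F', H', hQ.closed _ _ _ _ h1 a1 a2, a3, nat_of_lt ?_⟩
    simp only [ENNReal.coe_one, ENNReal.coe_zero, one_mul, zero_mul, add_zero] at a4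
    exact a4.trans_lt hη2
  tfae_finish

theorem tfae_upp (hA : S_A) (hB : S_B) {Q : Set E4 → ℝ → Prop} (hQ : CCls Q) (m : ℕ) :
    List.TFAE [
      ∃ F H, Q F H ∧ MorseF F H ∧ nmaxF F H ≤ m,
      ∃ F H, Q F H ∧ uppF F H < ENNReal.ofReal (Real.pi ^ 2 * (m + 1)),
      ∀ η : ℝ, 0 < η → ∃ F H, Q F H ∧ uppF F H ≤ ENNReal.ofReal (Real.pi ^ 2 * m + η)] := by
  have hpi : 0 < Real.pi ^ 2 := by positivity
  tfae_have 1 → 3 := by
    rintro ⟨F, H, h1, h3, h4⟩ η hη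
    obtain ⟨F', H', a1, a2, -, a3⟩ := hB F H (hQ.cob _ _ h1) h3 η hη
    refine ⟨F', H', hQ.closed _ _ _ _ h1 a1 a2, a3.trans ?_⟩
    have h5 : (nmaxF F H : ℝ≥0∞) ≤ (m : ℝ≥0∞) := by exact_mod_cast h4
    rw [ENNReal.ofReal_add (by positivity) hη.le, ENNReal.ofReal_mul (by positivity),
      ENNReal.ofReal_natCast]
    gcongr
  tfae_have 3 → 2 := by
    intro h
    obtain ⟨F, H, h1, h3⟩ := h 1 one_pos
    refine ⟨F, H, h1, h3.trans_lt ?_⟩
    rw [ENNReal.ofReal_lt_ofReal_iff (by positivity)]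
    have := Real.pi_gt_three
    nlinarith
  tfae_have 2 → 1 := by
    rintro ⟨F, H, h1, h3⟩
    obtain ⟨η, hη, hη2⟩ := exists_eta h3
    obtain ⟨F', H', a1, a2, a3, a4⟩ := hA F H (hQ.cob _ _ h1) 0 1 η hη
    refine ⟨F', H', hQ.closed _ _ _ _ h1 a1 a2, a3, nat_of_lt ?_⟩
    simp only [ENNReal.coe_one, ENNReal.coe_zero, one_mul, zero_mul, zero_add] at a4
    exact a4.trans_lt hη2
  tfae_finish

/-! ### The homeomorphism type and the boundary -/

theorem SameType.homeo {F F' : Set E4} {H H' : ℝ} (hF : IsCompact F) (h : SameType F H F' H') :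
    Nonempty (F ≃ₜ F') := by
  obtain ⟨Φ, D, hD, hFD, hs, hinj, -, rfl, -, -, -⟩ := h
  have hc : ContinuousOn Φ F := hs.continuousOn.mono hFD
  have hcs : CompactSpace F := isCompact_iff_compactSpace.1 hF
  let e : F ≃ (Φ '' F) := Equiv.Set.imageOfInjOn Φ F (hinj.mono hFD)
  have he : Continuous e := by
    refine Continuous.subtype_mk ?_ _
    exact continuousOn_iff_continuous_domRestrict.1 hc
  exact ⟨he.homeoOfEquivCompactToT2⟩

theorem SameType.bot {F F' : Set E4} {H H' : ℝ} (h : SameType F H F' H') :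
    F' ∩ {x | x 3 = 0} = F ∩ {x | x 3 = 0} := by
  obtain ⟨Φ, D, hD, hFD, hs, hinj, -, rfl, h0, h1, h2⟩ := h
  ext x
  constructor
  · rintro ⟨⟨u, hu, rfl⟩, hx⟩
    have h3 : u 3 = 0 := ((h2 u hu).1).1 hx
    rw [h0 u hu h3]
    exact ⟨hu, h3⟩
  · rintro ⟨hx, hx0⟩
    exact ⟨⟨x, hx, h0 x hx hx0⟩, hx0⟩

theorem SameType.top {F F' : Set E4} {H H' : ℝ} (h : SameType F H F' H') :
    F' ∩ {x | x 3 = H'} = (fun x => x + (H' - H) • vert) '' (F ∩ {x | x 3 = H}) := by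
  obtain ⟨Φ, D, hD, hFD, hs, hinj, -, rfl, h0, h1, h2⟩ := h
  ext x
  constructor
  · rintro ⟨⟨u, hu, rfl⟩, hx⟩
    have h3 : u 3 = H := ((h2 u hu).2).1 hx
    exact ⟨u, ⟨hu, h3⟩, (h1 u hu h3).symm⟩
  · rintro ⟨u, ⟨hu, hu0⟩, rfl⟩
    refine ⟨⟨u, hu, h1 u hu hu0⟩, ?_⟩
    show (u + (H' - H) • vert) 3 = H'
    have e : (u + (H' - H) • vert) 3 = u 3 + (H' - H) * vert 3 := rfl
    rw [e, vert_three, hu0]
    ring

/-- Surfaces homeomorphic to `S` with boundary `K` in `x₃ = 0` and `L + H vert` in `x₃ = H`. -/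
def Cls (S : Type) [TopologicalSpace S] (K L : Set E4) (F : Set E4) (H : ℝ) : Prop :=
  Cob F H ∧ F ∩ {x | x 3 = 0} = K ∧ F ∩ {x | x 3 = H} = (fun x => x + H • vert) '' L ∧
    Nonempty (F ≃ₜ S)

theorem cls (S : Type) [TopologicalSpace S] (K L : Set E4) : CCls (Cls S K L) := by
  refine ⟨fun F H h => h.1, fun F H F' H' h hc hs => ⟨hc, ?_, ?_, ?_⟩⟩
  · rw [hs.bot]; exact h.2.1
  · rw [hs.top, h.2.2.1, image_image]
    refine image_congr fun x _ => ?_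
    show x + H • vert + (H' - H) • vert = x + H' • vert
    rw [add_assoc, ← add_smul, add_sub_cancel]
  · obtain ⟨e⟩ := hs.homeo h.1.compact
    obtain ⟨f⟩ := h.2.2.2
    exact ⟨e.symm.trans f⟩

end Pool.Agent.N15.SF
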