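import Mathlib
import Pool.Agent.N15.SF.Stm

/-!
# Project SF, part FIN: a disjoint covering of finite curvature
-/

set_option autoImplicit false

namespace Pool.Agent.N15.SF.FIN

open scoped ContDiff RealInnerProductSpace ENNReal NNReal Topology
open MeasureTheory Set Metric Filter
open Pool.Agent.Y503.RB Pool.Agent.N503.ML Pool.Agent.N15.RC Pool.Agent.N15.SF

/-! ### bounded density -/

theorem curv_fin {φ : ℂ → E4} {U : Set ℂ} (h : IPatch φ U) {z₀ : ℂ} {r : ℝ}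
    (hr : closedBall z₀ r ⊆ U) : ∫⁻ z in ball z₀ r, curvE φ z ≠ ⊤ := by
  have hW := h.isOpen
  have hWs := h.smooth
  set B : ℂ → ℝ := fun z => (‖d2 φ 1 1 z‖ * ‖d2 φ Complex.I Complex.I z‖ +
    ‖d2 φ 1 Complex.I z‖ ^ 2) / √(fffDet φ z) with hB
  have hpos : ∀ z ∈ closedBall z₀ r, 0 < √(fffDet φ z) := fun z hz =>
    Real.sqrt_pos.2 (Pool.Agent.Y503.RB.fffDet_pos (h.imm z (hr hz)))
  have hF : ContinuousOn (fun z => fffDet φ z) U := by
    unfold fffDet fff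
    exact (((c1 hW hWs 1).inner (c1 hW hWs 1)).mul
      ((c1 hW hWs Complex.I).inner (c1 hW hWs Complex.I))).sub
        (((c1 hW hWs 1).inner (c1 hW hWs Complex.I)).pow 2)
  have hcB : ContinuousOn B (closedBall z₀ r) := by
    refine ContinuousOn.div ?_ ((hF.mono hr).sqrt) fun z hz => (hpos z hz).ne'
    exact ((((c2 hW hWs 1 1).norm).mul ((c2 hW hWs Complex.I Complex.I).norm)).add
      (((c2 hW hWs 1 Complex.I).norm).pow 2)).mono hr
  obtain ⟨M, hM⟩ := (isCompact_closedBall z₀ r).exists_bound_of_continuousOn hcB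
  have hbd : ∀ z ∈ ball z₀ r, curvE φ z ≤ ENNReal.ofReal M * ENNReal.ofReal (2 * Real.pi) := by
    intro z hz
    have hzc := ball_subset_closedBall hz
    refine iSup₂_le fun L _ => ?_
    have h1 : ∀ θ : ℝ, ENNReal.ofReal (densE φ (L ⟨Real.cos θ, Real.sin θ⟩) z) ≤
        ENNReal.ofReal M := by
      intro θ
      apply ENNReal.ofReal_le_ofReal
      have hn : ‖L ⟨Real.cos θ, Real.sin θ⟩‖ = 1 := by
        rw [L.norm_map]
        have h2 : ‖(⟨Real.cos θ, Real.sin θ⟩ : ℂ)‖ ^ 2 = 1 := by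
          rw [← Complex.normSq_eq_norm_sq, Complex.normSq_apply]
          have := Real.sin_sq_add_cos_sq θ
          nlinarith
        have h3 := norm_nonneg (⟨Real.cos θ, Real.sin θ⟩ : ℂ)
        nlinarith
      obtain ⟨n, hnn⟩ : ∃ n, n = L ⟨Real.cos θ, Real.sin θ⟩ := ⟨_, rfl⟩
      rw [← hnn] at hn ⊢
      have hMz := hM z hzc
      rw [Real.norm_eq_abs] at hMz
      have hM0 : 0 ≤ M := (abs_nonneg _).trans hMz
      unfold densE
      split_ifs with hc
      · refine le_trans ?_ ((le_abs_self _).trans hMz)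
        apply div_le_div_of_nonneg_right _ (hpos z hzc).le
        have a1 := abs_sff_le φ hn 1 1 z
        have a2 := abs_sff_le φ hn Complex.I Complex.I z
        unfold kdet
        have b1 : sff φ n 1 1 z * sff φ n Complex.I Complex.I z ≤
            ‖d2 φ 1 1 z‖ * ‖d2 φ Complex.I Complex.I z‖ := by
          refine (le_abs_self _).trans ?_
          rw [abs_mul]
          exact mul_le_mul a1 a2 (abs_nonneg _) (norm_nonneg _)
        have b2 : 0 ≤ sff φ n 1 Complex.I z ^ 2 := sq_nonneg _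
        have b3 : 0 ≤ ‖d2 φ 1 Complex.I z‖ ^ 2 := sq_nonneg _
        linarith
      · exact hM0
    calc ∫⁻ θ in Ico 0 (2 * Real.pi), ENNReal.ofReal (densE φ (L ⟨Real.cos θ, Real.sin θ⟩) z)
        ≤ ∫⁻ _ in Ico 0 (2 * Real.pi), ENNReal.ofReal M := lintegral_mono fun θ => h1 θ
      _ = ENNReal.ofReal M * ENNReal.ofReal (2 * Real.pi) := by
          rw [setLIntegral_const, Real.volume_Ico, sub_zero]
  have h2 : ∫⁻ z in ball z₀ r, curvE φ z ≤
      (ENNReal.ofReal M * ENNReal.ofReal (2 * Real.pi)) * volume (ball z₀ r) := by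
    calc ∫⁻ z in ball z₀ r, curvE φ z
        ≤ ∫⁻ _ in ball z₀ r, ENNReal.ofReal M * ENNReal.ofReal (2 * Real.pi) :=
          setLIntegral_mono' measurableSet_ball hbd
      _ = _ := by rw [setLIntegral_const]
  refine ne_top_of_le_ne_top ?_ h2
  exact ENNReal.mul_ne_top (ENNReal.mul_ne_top ENNReal.ofReal_ne_top ENNReal.ofReal_ne_top)
    measure_ball_lt_top.ne

/-! ### vertical tangent vectors -/

theorem inner_zero {φ : ℂ → E4} {z v : ℂ} (hv : d1 φ v z = vert) (L : ℂ →ₗᵢ[ℝ] E4)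
    (hL : ∀ w v : ℂ, ⟪L w, d1 φ v z⟫ = 0) (w : ℂ) : (L w) 3 = 0 := by
  have := hL w v
  rw [hv, real_inner_comm, inner_vert] at this
  exact this

theorem curvE_zero {φ : ℂ → E4} {z v : ℂ} (hv : d1 φ v z = vert) : curvE φ z = 0 := by
  unfold curvE
  refine nonpos_iff_eq_zero.1 (iSup₂_le fun L hL => ?_)
  have h1 : ∀ θ : ℝ, ENNReal.ofReal (densE φ (L ⟨Real.cos θ, Real.sin θ⟩) z) = 0 := by
    intro θ
    unfold densE
    rw [if_neg, ENNReal.ofReal_zero]
    intro hc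
    have h2 := hc.1
    rw [inner_zero hv L hL] at h2
    exact lt_irrefl _ h2
  simp [h1]

theorem curvL_zero {φ : ℂ → E4} {z v : ℂ} (hv : d1 φ v z = vert) : curvL φ z = 0 := by
  unfold curvL
  refine nonpos_iff_eq_zero.1 (iSup₂_le fun L hL => ?_)
  have h1 : ∀ θ : ℝ, ENNReal.ofReal (densL φ (L ⟨Real.cos θ, Real.sin θ⟩) z) = 0 := by
    intro θ
    unfold densL
    rw [if_neg, ENNReal.ofReal_zero]
    intro hc
    have h2 := hc.1
    rw [inner_zero hv L hL] at h2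
    exact lt_irrefl _ h2
  simp [h1]

/-! ### the pieces -/

theorem EPatch.ip {φ : ℂ → E4} {U : Set ℂ} (h : EPatch φ U) : IPatch φ U :=
  ⟨h.isOpen, h.smooth, h.imm⟩

theorem EPatch.inj {φ : ℂ → E4} {U : Set ℂ} (h : EPatch φ U) : InjOn φ U := by
  intro a ha b hb hab
  have := h.emb.injective (a₁ := ⟨a, ha⟩) (a₂ := ⟨b, hb⟩) hab
  exact congrArg Subtype.val this

theorem EPatch.restr {φ : ℂ → E4} {U U' : Set ℂ} (h : EPatch φ U) (ho : IsOpen U') (hs : U' ⊆ U) :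
    EPatch φ U' :=
  ⟨ho, h.smooth.mono hs, fun z hz => h.imm z (hs hz), h.emb.comp (Topology.IsEmbedding.inclusion hs)⟩

/-- A piece of finite curvature. -/
structure Pc (F : Set E4) (H : ℝ) (φ : ℂ → E4) (U : Set ℂ) (V : Set E4) : Prop where
  ep : EPatch φ U
  op : IsOpen V
  sub : V ⊆ oslab H
  eq : F ∩ V = φ '' U
  fE : ∫⁻ z in U, curvE φ z ≠ ⊤
  fL : ∫⁻ z in U, curvL φ z ≠ ⊤

theorem cont3 : Continuous fun x : E4 => x 3 :=
  (EuclideanSpace.proj (3 : Fin 4) : E4 →L[ℝ] ℝ).continuous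

theorem oslab_open (H : ℝ) : IsOpen (oslab H) :=
  (isOpen_lt continuous_const cont3).inter (isOpen_lt cont3 continuous_const)

theorem exists_pc (hT : S_TAN) {F : Set E4} {H ε : ℝ} (hF : Cob F H) (hε : 0 < ε) (hεH : ε < H)
    (k1 : ∀ x : E4, 0 ≤ x 3 → x 3 ≤ ε → (x ∈ F ↔ x - (x 3) • vert ∈ F))
    (k2 : ∀ x : E4, H - ε ≤ x 3 → x 3 ≤ H → (x ∈ F ↔ x + (H - x 3) • vert ∈ F)) (p : E4) :
    ∃ (φ : ℂ → E4) (U : Set ℂ) (V : Set E4), Pc F H φ U V ∧ (p ∈ F ∩ oslab H → p ∈ V) ∧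
      ((p 3 < ε ∨ H - ε < p 3) → ∀ z ∈ U, curvE φ z = 0 ∧ curvL φ z = 0) := by
  by_cases hp : p ∈ F ∩ oslab H
  swap
  · refine ⟨fun _ => 0, ∅, ∅, ⟨⟨isOpen_empty, contDiffOn_const, fun z hz => absurd hz (notMem_empty z),
      ?_⟩, isOpen_empty, empty_subset _, by simp, by simp, by simp⟩, fun h => absurd h hp,
      fun _ z hz => absurd hz (notMem_empty z)⟩
    exact Topology.IsEmbedding.of_subsingleton _
  obtain ⟨φ, U0, V0, hE, hV0, hpV0, hFV0⟩ := hF.loc p hp.1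
  set G : Set E4 := {x | p 3 < ε → x 3 < ε} ∩ {x | H - ε < p 3 → H - ε < x 3} with hG
  have hGo : IsOpen G := by
    refine IsOpen.inter ?_ ?_
    · by_cases h : p 3 < ε
      · have e : {x : E4 | p 3 < ε → x 3 < ε} = {x : E4 | x 3 < ε} := by ext x; simp [h]
        rw [e]; exact isOpen_lt cont3 continuous_const
      · have e : {x : E4 | p 3 < ε → x 3 < ε} = univ := by ext x; simp [h]
        rw [e]; exact isOpen_univ
    · by_cases h : H - ε < p 3
      · have e : {x : E4 | H - ε < p 3 → H - ε < x 3} = {x : E4 | H - ε < x 3} := by ext x; simp [h]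
        rw [e]; exact isOpen_lt continuous_const cont3
      · have e : {x : E4 | H - ε < p 3 → H - ε < x 3} = univ := by ext x; simp [h]
        rw [e]; exact isOpen_univ
  set V1 : Set E4 := V0 ∩ oslab H ∩ G with hV1
  have hV1o : IsOpen V1 := (hV0.inter (oslab_open H)).inter hGo
  have hpV1 : p ∈ V1 := ⟨⟨hpV0, hp.2⟩, fun h => h, fun h => h⟩
  have hU1o : IsOpen (U0 ∩ φ ⁻¹' V1) := hE.smooth.continuousOn.isOpen_inter_preimage hE.isOpen hV1o
  set U1 : Set ℂ := U0 ∩ φ ⁻¹' V1 with hU1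
  have hF1 : F ∩ V1 = φ '' U1 := by
    ext x
    constructor
    · rintro ⟨hx1, hx2⟩
      have h1 : x ∈ F ∩ V0 := ⟨hx1, hx2.1.1⟩
      rw [hFV0] at h1
      obtain ⟨⟨z, hz, rfl⟩, -⟩ := h1
      exact ⟨z, ⟨hz, hx2⟩, rfl⟩
    · rintro ⟨z, ⟨hz1, hz2⟩, rfl⟩
      have h1 : φ z ∈ F ∩ V0 := by
        rw [hFV0]
        exact ⟨⟨z, hz1, rfl⟩, hz2.1.2.1.le, hz2.1.2.2.le⟩
      exact ⟨h1.1, hz2⟩
  obtain ⟨z₀, hz₀, hz₀p⟩ : p ∈ φ '' U1 := by rw [← hF1]; exact ⟨hp.1, hpV1⟩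
  obtain ⟨r, hr, hrU⟩ := Metric.nhds_basis_closedBall.mem_iff.1 (hU1o.mem_nhds hz₀)
  have hbU1 : ball z₀ r ⊆ U1 := ball_subset_closedBall.trans hrU
  have hbU0 : ball z₀ r ⊆ U0 := hbU1.trans inter_subset_left
  obtain ⟨V', hV', hV'e⟩ := hE.emb.isInducing.isOpen_iff.1
    ((isOpen_ball (x := z₀) (ε := r)).preimage (continuous_subtype_val (p := fun z => z ∈ U0)))
  have hiff : ∀ z (hz : z ∈ U0), φ z ∈ V' ↔ z ∈ ball z₀ r := by
    intro z hz
    have := Set.ext_iff.1 hV'e ⟨z, hz⟩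
    exact this
  have hF2 : F ∩ (V1 ∩ V') = φ '' ball z₀ r := by
    ext x
    constructor
    · rintro ⟨hx1, hx2, hx3⟩
      have h1 : x ∈ F ∩ V1 := ⟨hx1, hx2⟩
      rw [hF1] at h1
      obtain ⟨z, hz, rfl⟩ := h1
      exact ⟨z, (hiff z hz.1).1 hx3, rfl⟩
    · rintro ⟨z, hz, rfl⟩
      have h1 : φ z ∈ F ∩ V1 := by rw [hF1]; exact ⟨z, hbU1 hz, rfl⟩
      exact ⟨h1.1, h1.2, (hiff z (hbU0 hz)).2 hz⟩
  have hE2 : EPatch φ (ball z₀ r) := EPatch.restr hE isOpen_ball hbU0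
  have hE1 : EPatch φ U1 := EPatch.restr hE hU1o inter_subset_left
  refine ⟨φ, ball z₀ r, V1 ∩ V', ⟨hE2, hV1o.inter hV', fun x hx => hx.1.1.2, hF2,
    curv_fin (EPatch.ip hE1) hrU, ?_⟩, fun _ => ⟨hpV1, ?_⟩, fun hor z hz => ?_⟩
  · have h1 := curv_fin (ipatch_opp (EPatch.ip hE1)) hrU
    simpa only [curvE_opp] using h1
  · rw [← hz₀p]
    exact (hiff z₀ hz₀.1).2 (mem_ball_self hr)
  · have hzV : φ z ∈ V1 := (hbU1 hz).2
    obtain ⟨v, hv⟩ := hT F H ε hε hεH k1 k2 φ (ball z₀ r) (V1 ∩ V') hE2 (hV1o.inter hV') hF2 z hz (by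
      rcases hor with h | h
      · exact Or.inl ⟨hzV.1.2.1, hzV.2.1 h⟩
      · exact Or.inr ⟨hzV.2.2 h, hzV.1.2.2⟩)
    exact ⟨curvE_zero hv, curvL_zero hv⟩

/-! ### the covering -/

theorem fin : S_FIN := by
  classical
  intro hT F H hF
  obtain ⟨ε, hε, hεH, k1, k2⟩ := hF.collar
  choose φ U V hP hpV hZ using fun p => exists_pc hT hF hε hεH k1 k2 p
  -- the compact part
  set M : Set E4 := F ∩ ({x | ε ≤ x 3} ∩ {x | x 3 ≤ H - ε}) with hM
  have hMc : IsCompact M := hF.compact.inter_right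
    ((isClosed_le continuous_const cont3).inter (isClosed_le cont3 continuous_const))
  have hMs : M ⊆ F ∩ oslab H := by
    rintro x ⟨h1, h2, h3⟩
    have h2' : ε ≤ x 3 := h2
    have h3' : x 3 ≤ H - ε := h3
    exact ⟨h1, by linarith, by linarith⟩
  obtain ⟨T1, hT1, hT1c⟩ := hMc.elim_nhds_subcover V
    (fun x hx => (hP x).op.mem_nhds (hpV x (hMs hx)))
  -- the other part
  obtain ⟨T2, hT2, hT2c, hT2cov⟩ := TopologicalSpace.countable_cover_nhdsWithin
    (s := (F ∩ oslab H) \ M) (f := V)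
    (fun x hx => mem_nhdsWithin_of_mem_nhds ((hP x).op.mem_nhds (hpV x hx.1)))
  obtain ⟨t2, ht2⟩ := (hT2c.union (countable_singleton (0 : E4))).exists_eq_range
    ⟨0, Or.inr rfl⟩
  have hzero : ∀ x ∈ T2 ∪ {(0 : E4)}, x 3 < ε ∨ H - ε < x 3 := by
    rintro x (hx | hx)
    · have h1 := hT2 hx
      by_contra hcon
      push Not at hcon
      exact h1.2 ⟨h1.1.1, hcon.1, hcon.2⟩
    · rw [mem_singleton_iff.1 hx]
      exact Or.inl hε
  set N := T1.toList.length with hN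
  set f : ℕ → E4 := fun n => if n < N then T1.toList.getD n 0 else t2 (n - N) with hf
  have hf2 : ∀ n, N ≤ n → f n 3 < ε ∨ H - ε < f n 3 := by
    intro n hn
    have e : f n = t2 (n - N) := if_neg (not_lt.2 hn)
    rw [e]
    exact hzero _ (by rw [ht2]; exact ⟨_, rfl⟩)
  have hcov : ∀ x ∈ F ∩ oslab H, ∃ n, x ∈ V (f n) := by
    intro x hx
    by_cases hxM : x ∈ M
    · obtain ⟨p, hp, hxp⟩ := mem_iUnion₂.1 (hT1c hxM)
      obtain ⟨n, hn, hnp⟩ := List.getElem_of_mem (Finset.mem_toList.2 hp)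
      refine ⟨n, ?_⟩
      have e : f n = p := by
        show (if n < N then T1.toList.getD n 0 else t2 (n - N)) = p
        rw [if_pos hn, List.getD_eq_getElem _ _ hn, hnp]
      rw [e]; exact hxp
    · obtain ⟨p, hp, hxp⟩ := mem_iUnion₂.1 (hT2cov ⟨hx, hxM⟩)
      obtain ⟨n, hn⟩ : p ∈ range t2 := by rw [← ht2]; exact Or.inl hp
      refine ⟨n + N, ?_⟩
      have e : f (n + N) = p := by
        show (if n + N < N then T1.toList.getD (n + N) 0 else t2 (n + N - N)) = p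
        rw [if_neg (by omega), Nat.add_sub_cancel, hn]
      rw [e]; exact hxp
  set A : ℕ → Set ℂ := fun i => U (f i) \ ⋃ j ∈ Finset.range i, (U (f i) ∩ φ (f i) ⁻¹' V (f j)) with hA
  have hAU : ∀ i, A i ⊆ U (f i) := fun i => sdiff_subset
  have hAn : ∀ i, ∀ z ∈ A i, ∀ j < i, φ (f i) z ∉ V (f j) := by
    intro i z hz j hj hV
    exact hz.2 (mem_iUnion₂.2 ⟨j, Finset.mem_range.2 hj, hz.1, hV⟩)
  have hAm : ∀ i, MeasurableSet (A i) := by
    intro i
    refine (hP (f i)).ep.isOpen.measurableSet.diff ?_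
    refine Finset.measurableSet_biUnion _ fun j _ => ?_
    exact ((hP (f i)).ep.smooth.continuousOn.isOpen_inter_preimage (hP (f i)).ep.isOpen
      (hP (f j)).op).measurableSet
  have hAF : ∀ i, φ (f i) '' A i ⊆ F ∩ V (f i) := fun i => by
    rw [(hP (f i)).eq]; exact image_mono (hAU i)
  refine ⟨fun i => φ (f i), fun i => U (f i), A, fun i => V (f i), ⟨fun i => EPatch.ip (hP (f i)).ep,
    fun i => ?_, hAm, hAU, ?_⟩, fun i => ⟨(hP (f i)).op, (hP (f i)).eq, EPatch.inj (hP (f i)).ep,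
      (hP (f i)).sub⟩, ?_, ?_, ?_⟩
  · show φ (f i) '' U (f i) ⊆ F
    rw [← (hP (f i)).eq]; exact inter_subset_left
  · intro x hx
    have hex := hcov x hx
    have h1 := Nat.find_spec hex
    have h2 : x ∈ φ (f (Nat.find hex)) '' U (f (Nat.find hex)) := by
      rw [← (hP _).eq]; exact ⟨hx.1, h1⟩
    obtain ⟨z, hz, hzx⟩ := h2
    refine mem_iUnion.2 ⟨Nat.find hex, z, ⟨hz, ?_⟩, hzx⟩
    intro h3
    obtain ⟨j, hj, h4⟩ := mem_iUnion₂.1 h3
    have h5 : x ∈ V (f j) := by rw [← hzx]; exact h4.2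
    exact Nat.find_min hex (Finset.mem_range.1 hj) h5
  · have key : ∀ i j, i < j → Disjoint (φ (f i) '' A i) (φ (f j) '' A j) := by
      intro i j hij
      rw [Set.disjoint_left]
      intro x hx hx2
      obtain ⟨w, hw, rfl⟩ := hx2
      exact hAn j w hw i hij (hAF i hx).2
    intro i j hij
    rcases lt_or_gt_of_ne hij with h | h
    · exact key i j h
    · exact (key j i h).symm
  · rw [tsum_eq_sum (s := Finset.range N)]
    · refine (ENNReal.sum_ne_top).2 fun i _ => ?_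
      exact ne_top_of_le_ne_top (hP (f i)).fE (lintegral_mono_set (hAU i))
    · intro i hi
      have hi' : N ≤ i := not_lt.1 fun h => hi (Finset.mem_range.2 h)
      rw [setLIntegral_congr_fun (g := fun _ => 0) (hAm i) fun z hz => (hZ (f i) (hf2 i hi') z (hAU i hz)).1]
      simp
  · rw [tsum_eq_sum (s := Finset.range N)]
    · refine (ENNReal.sum_ne_top).2 fun i _ => ?_
      exact ne_top_of_le_ne_top (hP (f i)).fL (lintegral_mono_set (hAU i))
    · intro i hi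
      have hi' : N ≤ i := not_lt.1 fun h => hi (Finset.mem_range.2 h)
      rw [setLIntegral_congr_fun (g := fun _ => 0) (hAm i) fun z hz => (hZ (f i) (hf2 i hi') z (hAU i hz)).2]
      simp

end Pool.Agent.N15.SF.FIN
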