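import Mathlib
import Pool.Agent.N15.SF.FIN
import Pool.Agent.N15.SF.Stm3

/-!
# Project SF, part FIN (helper196), with the embedding property
-/

set_option autoImplicit false

namespace Pool.Agent.N15.SF.FIN

open scoped ContDiff RealInnerProductSpace ENNReal NNReal Topology
open MeasureTheory Set Metric Filter
open Pool.Agent.Y503.RB Pool.Agent.N503.ML Pool.Agent.N15.RC Pool.Agent.N15.SF

/-! ### the covering -/

theorem fin' : S_FIN' := by
  classical
  intro hT F H hF
  obtain ⟨ε, hε, hεH, k1, k2⟩ := hF.collar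
  choose φ U V hP hpV hZ using fun p => exists_pc hT hF hε hεH k1 k2 p
  -- the compact part
  set M : Set E4 := F ∩ ({x | ε ≤ x 3} ∩ {x | x 3 ≤ H - ε}) with hM
  have hMc : IsCompact M := hF.compact.inter_right
    ((isClosed_le continuous_const cont3).inter (isClosed_le cont3 continuous_const))
  have hMs : M ⊆ F ∩ oslab H := by
    rintro x ⟨h1, h2, h3⟩
    have h2' : ε ≤ x 3 := h2
    have h3' : x 3 ≤ H - ε := h3
    exact ⟨h1, by linarith, by linarith⟩
  obtain ⟨T1, hT1, hT1c⟩ := hMc.elim_nhds_subcover V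
    (fun x hx => (hP x).op.mem_nhds (hpV x (hMs hx)))
  -- the other part
  obtain ⟨T2, hT2, hT2c, hT2cov⟩ := TopologicalSpace.countable_cover_nhdsWithin
    (s := (F ∩ oslab H) \ M) (f := V)
    (fun x hx => mem_nhdsWithin_of_mem_nhds ((hP x).op.mem_nhds (hpV x hx.1)))
  obtain ⟨t2, ht2⟩ := (hT2c.union (countable_singleton (0 : E4))).exists_eq_range
    ⟨0, Or.inr rfl⟩
  have hzero : ∀ x ∈ T2 ∪ {(0 : E4)}, x 3 < ε ∨ H - ε < x 3 := by
    rintro x (hx | hx)
    · have h1 := hT2 hx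
      by_contra hcon
      push Not at hcon
      exact h1.2 ⟨h1.1.1, hcon.1, hcon.2⟩
    · rw [mem_singleton_iff.1 hx]
      exact Or.inl hε
  set N := T1.toList.length with hN
  set f : ℕ → E4 := fun n => if n < N then T1.toList.getD n 0 else t2 (n - N) with hf
  have hf2 : ∀ n, N ≤ n → f n 3 < ε ∨ H - ε < f n 3 := by
    intro n hn
    have e : f n = t2 (n - N) := if_neg (not_lt.2 hn)
    rw [e]
    exact hzero _ (by rw [ht2]; exact ⟨_, rfl⟩)
  have hcov : ∀ x ∈ F ∩ oslab H, ∃ n, x ∈ V (f n) := by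
    intro x hx
    by_cases hxM : x ∈ M
    · obtain ⟨p, hp, hxp⟩ := mem_iUnion₂.1 (hT1c hxM)
      obtain ⟨n, hn, hnp⟩ := List.getElem_of_mem (Finset.mem_toList.2 hp)
      refine ⟨n, ?_⟩
      have e : f n = p := by
        show (if n < N then T1.toList.getD n 0 else t2 (n - N)) = p
        rw [if_pos hn, List.getD_eq_getElem _ _ hn, hnp]
      rw [e]; exact hxp
    · obtain ⟨p, hp, hxp⟩ := mem_iUnion₂.1 (hT2cov ⟨hx, hxM⟩)
      obtain ⟨n, hn⟩ : p ∈ range t2 := by rw [← ht2]; exact Or.inl hp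
      refine ⟨n + N, ?_⟩
      have e : f (n + N) = p := by
        show (if n + N < N then T1.toList.getD (n + N) 0 else t2 (n + N - N)) = p
        rw [if_neg (by omega), Nat.add_sub_cancel, hn]
      rw [e]; exact hxp
  set A : ℕ → Set ℂ := fun i => U (f i) \ ⋃ j ∈ Finset.range i, (U (f i) ∩ φ (f i) ⁻¹' V (f j)) with hA
  have hAU : ∀ i, A i ⊆ U (f i) := fun i => sdiff_subset
  have hAn : ∀ i, ∀ z ∈ A i, ∀ j < i, φ (f i) z ∉ V (f j) := by
    intro i z hz j hj hV
    exact hz.2 (mem_iUnion₂.2 ⟨j, Finset.mem_range.2 hj, hz.1, hV⟩)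
  have hAm : ∀ i, MeasurableSet (A i) := by
    intro i
    refine (hP (f i)).ep.isOpen.measurableSet.diff ?_
    refine Finset.measurableSet_biUnion _ fun j _ => ?_
    exact ((hP (f i)).ep.smooth.continuousOn.isOpen_inter_preimage (hP (f i)).ep.isOpen
      (hP (f j)).op).measurableSet
  have hAF : ∀ i, φ (f i) '' A i ⊆ F ∩ V (f i) := fun i => by
    rw [(hP (f i)).eq]; exact image_mono (hAU i)
  refine ⟨fun i => φ (f i), fun i => U (f i), A, fun i => V (f i), ⟨fun i => EPatch.ip (hP (f i)).ep,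
    fun i => ?_, hAm, hAU, ?_⟩, fun i => ⟨(hP (f i)).ep, (hP (f i)).op, (hP (f i)).eq,
      (hP (f i)).sub⟩, ?_, ?_, ?_⟩
  · show φ (f i) '' U (f i) ⊆ F
    rw [← (hP (f i)).eq]; exact inter_subset_left
  · intro x hx
    have hex := hcov x hx
    have h1 := Nat.find_spec hex
    have h2 : x ∈ φ (f (Nat.find hex)) '' U (f (Nat.find hex)) := by
      rw [← (hP _).eq]; exact ⟨hx.1, h1⟩
    obtain ⟨z, hz, hzx⟩ := h2
    refine mem_iUnion.2 ⟨Nat.find hex, z, ⟨hz, ?_⟩, hzx⟩
    intro h3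
    obtain ⟨j, hj, h4⟩ := mem_iUnion₂.1 h3
    have h5 : x ∈ V (f j) := by rw [← hzx]; exact h4.2
    exact Nat.find_min hex (Finset.mem_range.1 hj) h5
  · have key : ∀ i j, i < j → Disjoint (φ (f i) '' A i) (φ (f j) '' A j) := by
      intro i j hij
      rw [Set.disjoint_left]
      intro x hx hx2
      obtain ⟨w, hw, rfl⟩ := hx2
      exact hAn j w hw i hij (hAF i hx).2
    intro i j hij
    rcases lt_or_gt_of_ne hij with h | h
    · exact key i j h
    · exact (key j i h).symm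
  · rw [tsum_eq_sum (s := Finset.range N)]
    · refine (ENNReal.sum_ne_top).2 fun i _ => ?_
      exact ne_top_of_le_ne_top (hP (f i)).fE (lintegral_mono_set (hAU i))
    · intro i hi
      have hi' : N ≤ i := not_lt.1 fun h => hi (Finset.mem_range.2 h)
      rw [setLIntegral_congr_fun (g := fun _ => 0) (hAm i) fun z hz => (hZ (f i) (hf2 i hi') z (hAU i hz)).1]
      simp
  · rw [tsum_eq_sum (s := Finset.range N)]
    · refine (ENNReal.sum_ne_top).2 fun i _ => ?_
      exact ne_top_of_le_ne_top (hP (f i)).fL (lintegral_mono_set (hAU i))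
    · intro i hi
      have hi' : N ≤ i := not_lt.1 fun h => hi (Finset.mem_range.2 h)
      rw [setLIntegral_congr_fun (g := fun _ => 0) (hAm i) fun z hz => (hZ (f i) (hf2 i hi') z (hAU i hz)).2]
      simp

end Pool.Agent.N15.SF.FIN
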