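import Mathlib
import Pool.Agent.N15.SF.Stm

/-!
# Project SF: stretched surfaces
-/

set_option autoImplicit false

namespace Pool.Agent.N15.SF

open scoped ContDiff RealInnerProductSpace ENNReal NNReal Topology
open MeasureTheory Set Metric Filter
open Pool.Agent.Y503.RB Pool.Agent.N503.ML Pool.Agent.N15.RC

theorem lam_lam_inv {l : ℝ} (hl : 0 < l) (x : E4) : lam l (lam l⁻¹ x) = x := by
  rw [lam_apply l, lam_three, lam_apply, add_assoc, ← add_smul]
  have : (l⁻¹ - 1) * x 3 + (l - 1) * (l⁻¹ * x 3) = 0 := by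
    have := hl.ne'
    field_simp
    ring
  rw [this, zero_smul, add_zero]

theorem lam_inv_lam {l : ℝ} (hl : 0 < l) (x : E4) : lam l⁻¹ (lam l x) = x := by
  have h := lam_lam_inv (inv_pos.2 hl) x
  rwa [inv_inv] at h

theorem mem_lam_image {l : ℝ} (hl : 0 < l) (F : Set E4) (x : E4) :
    x ∈ lam l '' F ↔ lam l⁻¹ x ∈ F := by
  constructor
  · rintro ⟨y, hy, rfl⟩
    rwa [lam_inv_lam hl]
  · intro h
    exact ⟨_, h, lam_lam_inv hl x⟩

theorem lam_vert (l : ℝ) : lam l vert = l • vert := by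
  rw [lam_apply, vert_three, mul_one]
  conv_lhs => rw [← one_smul ℝ vert]
  rw [smul_smul, ← add_smul]
  congr 1
  ring

theorem lam_slab {l : ℝ} (hl : 0 < l) (H : ℝ) : lam l '' (slab H) = slab (l * H) := by
  ext x
  rw [mem_lam_image hl]
  unfold slab
  simp only [mem_ofPred_eq, lam_three]
  have h1 : l⁻¹ * x 3 ≤ H ↔ x 3 ≤ l * H := by
    rw [inv_mul_le_iff₀ hl]
  rw [h1, mul_nonneg_iff_of_pos_left (inv_pos.2 hl)]

theorem epatch_lam {φ : ℂ → E4} {U : Set ℂ} (h : EPatch φ U) {l : ℝ} (hl : 0 < l) :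
    EPatch (fun w => lam l (φ w)) U := by
  refine ⟨h.isOpen, (lam l).contDiff.comp_contDiffOn h.smooth, fun z hz => ?_, ?_⟩
  · have hd : DifferentiableAt ℝ φ z :=
      ((h.smooth.contDiffAt (h.isOpen.mem_nhds hz))).differentiableAt (by simp)
    have : HasFDerivAt (fun w => lam l (φ w)) ((lam l).comp (fderiv ℝ φ z)) z :=
      (lam l).hasFDerivAt.comp z hd.hasFDerivAt
    rw [this.fderiv]
    exact (lam_inj hl).comp (h.imm z hz)
  · have h1 : Topology.IsEmbedding (lam l) :=
      Function.LeftInverse.isEmbedding (f := lam l⁻¹) (fun x => lam_inv_lam hl x)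
        (lam l⁻¹).continuous (lam l).continuous
    exact h1.comp h.emb

theorem lamc : S_LAMC := by
  intro F H hF l hl
  refine ⟨⟨hF.compact.image (lam l).continuous, ?_, ?_, ?_⟩, ?_⟩
  · rw [← lam_slab hl]
    exact image_mono hF.sub
  · rintro _ ⟨p, hp, rfl⟩
    obtain ⟨φ, U, V, hP, hV, hpV, hFV⟩ := hF.loc p hp
    refine ⟨fun w => lam l (φ w), U, lam l '' V, epatch_lam hP hl, ?_, ⟨p, hpV, rfl⟩, ?_⟩
    · have h1 : lam l '' V = lam l⁻¹ ⁻¹' V := by
        ext x
        exact mem_lam_image hl V x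
      rw [h1]
      exact hV.preimage (lam l⁻¹).continuous
    · rw [← image_inter (lam_inj hl), hFV, image_inter (lam_inj hl), lam_slab hl, ← image_comp]
      rfl
  · obtain ⟨ε, he, heH, h1, h2⟩ := hF.collar
    refine ⟨l * ε, by positivity, mul_lt_mul_of_pos_left heH hl, ?_, ?_⟩
    · intro x hx0 hx1
      rw [mem_lam_image hl, mem_lam_image hl, map_sub, map_smul, lam_vert]
      have h3 := h1 (lam l⁻¹ x) (by rw [lam_three]; positivity)
        (by rw [lam_three, inv_mul_le_iff₀ hl]; exact hx1)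
      rw [h3, lam_three, smul_smul, mul_comm l⁻¹]
    · intro x hx0 hx1
      rw [mem_lam_image hl, mem_lam_image hl, map_add, map_smul, lam_vert]
      have h3 := h2 (lam l⁻¹ x)
        (by
          rw [lam_three, le_inv_mul_iff₀ hl]
          linarith)
        (by rw [lam_three, inv_mul_le_iff₀ hl]; exact hx1)
      rw [h3, lam_three, smul_smul]
      have h4 : (l * H - x 3) * l⁻¹ = H - l⁻¹ * x 3 := by
        have := hl.ne'
        field_simp
      rw [h4]
  · refine ⟨lam l, univ, isOpen_univ, subset_univ _, (lam l).contDiff.contDiffOn,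
      (lam_inj hl).injOn, ?_, rfl, ?_, ?_, ?_⟩
    · intro x _
      rw [(lam l).fderiv]
      exact lam_inj hl
    · intro x _ hx
      rw [lam_apply, hx, mul_zero, zero_smul, add_zero]
    · intro x _ hx
      rw [lam_apply, hx]
      congr 2
      ring
    · intro x _
      rw [lam_three]
      constructor
      · exact ⟨fun h => (mul_eq_zero.1 h).resolve_left hl.ne', fun h => by rw [h, mul_zero]⟩
      · exact ⟨fun h => mul_left_cancel₀ hl.ne' h, fun h => by rw [h]⟩

end Pool.Agent.N15.SF
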