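import Mathlib
import Pool.Agent.N15.SF.Stm

/-!
# Project SF (helper15): the vertical shear. Statements.
-/

set_option autoImplicit false

namespace Pool.Agent.N15.SF

open scoped ContDiff RealInnerProductSpace ENNReal NNReal Topology
open MeasureTheory Set Metric Filter
open Pool.Agent.Y503.RB Pool.Agent.N503.ML Pool.Agent.N15.RC

/-- The data of a vertical shear. -/
structure GD (g1 g2 : ℝ → ℝ) (H ε : ℝ) (q : E4) : Prop where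
  e0 : 0 < ε
  eH : 2 * ε < H
  s1 : ContDiff ℝ ∞ g1
  s2 : ContDiff ℝ ∞ g2
  m1 : Monotone g1
  m2 : Monotone g2
  z1 : ∀ t : ℝ, t ≤ ε / 4 → g1 t = 0
  o1 : ∀ t : ℝ, ε / 2 ≤ t → g1 t = 1
  z2 : ∀ t : ℝ, t ≤ H - ε / 2 → g2 t = 0
  o2 : ∀ t : ℝ, H - ε / 4 ≤ t → g2 t = 1
  q3 : q 3 = 0

/-- The vertical shear: the identity near `x₃ = 0`, `x ↦ x + (T + ⟨q, x⟩) vert` in the middle, and
`x ↦ x + T' vert` near `x₃ = H`. -/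
noncomputable def sh (g1 g2 : ℝ → ℝ) (T T' : ℝ) (q : E4) (x : E4) : E4 :=
  x + (g1 (x 3) * (1 - g2 (x 3)) * (T + ⟪q, x⟫) + g2 (x 3) * T') • vert

/-- The domain of the shear. -/
def Dom (T T' : ℝ) (q : E4) : Set E4 := {x | 0 < T + ⟪q, x⟫ ∧ T + ⟪q, x⟫ < T'}

/-- SH1: the shear is a diffeomorphism of `Dom` onto an open set, and preserves the slabs. -/
def S_SH1 : Prop := ∀ (g1 g2 : ℝ → ℝ) (H ε T T' : ℝ) (q : E4), GD g1 g2 H ε q →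
  ContDiff ℝ ∞ (sh g1 g2 T T' q) ∧ InjOn (sh g1 g2 T T' q) (Dom T T' q) ∧
  (∀ x ∈ Dom T T' q, Function.Injective (fderiv ℝ (sh g1 g2 T T' q) x)) ∧
  (∀ W : Set E4, W ⊆ Dom T T' q → IsOpen W → IsOpen (sh g1 g2 T T' q '' W)) ∧
  (∀ x ∈ Dom T T' q, ∀ t : ℝ, 0 < t →
    sh g1 g2 T T' q x 3 + t ≤ sh g1 g2 T T' q (x + t • vert) 3) ∧
  (∀ x ∈ Dom T T' q, (sh g1 g2 T T' q x ∈ slab (H + T') ↔ x ∈ slab H) ∧
    (sh g1 g2 T T' q x ∈ oslab (H + T') ↔ x ∈ oslab H))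

/-- SH2: sheared surfaces. -/
def S_SH2 : Prop := S_SH1 → ∀ (g1 g2 : ℝ → ℝ) (H ε T T' : ℝ) (q : E4), GD g1 g2 H ε q →
  ∀ F : Set E4, Cob F H → F ⊆ Dom T T' q → 0 < T' →
  (∀ x : E4, 0 ≤ x 3 → x 3 ≤ ε → (x ∈ F ↔ x - (x 3) • vert ∈ F)) →
  (∀ x : E4, H - ε ≤ x 3 → x 3 ≤ H → (x ∈ F ↔ x + (H - x 3) • vert ∈ F)) →
  Cob (sh g1 g2 T T' q '' F) (H + T') ∧ SameType F H (sh g1 g2 T T' q '' F) (H + T')

/-- SH3: the extrema of the height on the sheared surface. -/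
def S_SH3 : Prop := S_SH1 → S_TAN → ∀ (g1 g2 : ℝ → ℝ) (H ε T T' : ℝ) (q : E4), GD g1 g2 H ε q →
  ∀ F : Set E4, Cob F H → F ⊆ Dom T T' q →
  (∀ x : E4, 0 ≤ x 3 → x 3 ≤ ε → (x ∈ F ↔ x - (x 3) • vert ∈ F)) →
  (∀ x : E4, H - ε ≤ x 3 → x 3 ≤ H → (x ∈ F ↔ x + (H - x 3) • vert ∈ F)) →
  (∀ p ∈ F ∩ oslab H, ∃ (φ : ℂ → E4) (U : Set ℂ) (V : Set E4) (z : ℂ), EPatch φ U ∧ IsOpen V ∧
    V ⊆ oslab H ∧ F ∩ V = φ '' U ∧ z ∈ U ∧ φ z = p ∧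
    ((∀ v : ℂ, ⟪q + vert, d1 φ v z⟫ = 0) → kdet φ (q + vert) z ≠ 0)) →
  MorseF (sh g1 g2 T T' q '' F) (H + T') ∧
    nmaxF (sh g1 g2 T T' q '' F) (H + T') ≤ (LMax F H (q + vert)).encard ∧
    nminF (sh g1 g2 T T' q '' F) (H + T') ≤ (LMin F H (q + vert)).encard

/-- The assembly. -/
def S_LIFTA : Prop := S_SH1 → S_SH2 → S_SH3 → S_LIFT

end Pool.Agent.N15.SF
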