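import Mathlib
import Pool.Agent.N15.SF.Stm2

/-!
# Project SF: the assembly of LIFT.
-/

set_option autoImplicit false

namespace Pool.Agent.N15.SF

open scoped ContDiff RealInnerProductSpace ENNReal NNReal Topology
open MeasureTheory Set Metric Filter
open Pool.Agent.Y503.RB Pool.Agent.N503.ML Pool.Agent.N15.RC

theorem lifta : S_LIFTA := by
  intro hSH1 hSH2 hSH3 hTAN F H hF y hy3 hyp
  obtain ⟨ε₀, he0, heH, hcol1, hcol2⟩ := hF.collar
  have hH : 0 < H := he0.trans heH
  obtain ⟨ε, hε⟩ : ∃ ε, ε = min ε₀ (H / 3) := ⟨_, rfl⟩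
  have hε0 : 0 < ε := by rw [hε]; exact lt_min he0 (by positivity)
  have hε1 : ε ≤ ε₀ := by rw [hε]; exact min_le_left _ _
  have hε2 : ε ≤ H / 3 := by rw [hε]; exact min_le_right _ _
  have hc1 : ∀ x : E4, 0 ≤ x 3 → x 3 ≤ ε → (x ∈ F ↔ x - (x 3) • vert ∈ F) := fun x h1 h2 =>
    hcol1 x h1 (h2.trans hε1)
  have hc2 : ∀ x : E4, H - ε ≤ x 3 → x 3 ≤ H → (x ∈ F ↔ x + (H - x 3) • vert ∈ F) :=
    fun x h1 h2 => hcol2 x (by linarith) h2
  obtain ⟨q, hq⟩ : ∃ q, q = y - vert := ⟨_, rfl⟩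
  have hq3 : q 3 = 0 := by
    have : q 3 = y 3 - vert 3 := by rw [hq]; rfl
    rw [this, hy3, vert_three, sub_self]
  have hqy : q + vert = y := by rw [hq, sub_add_cancel]
  obtain ⟨B, hB⟩ := hF.compact.exists_bound_of_continuousOn
    (f := fun x : E4 => ⟪q, x⟫) (innerSL ℝ q).continuous.continuousOn
  obtain ⟨T, hT⟩ : ∃ T, T = |B| + 1 := ⟨_, rfl⟩
  obtain ⟨T', hT'⟩ : ∃ T', T' = 2 * |B| + 2 := ⟨_, rfl⟩
  have hB0 := abs_nonneg B
  have hT'0 : 0 < T' := by rw [hT']; linarith
  have hFD : F ⊆ Dom T T' q := by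
    intro x hx
    have h1 := hB x hx
    rw [Real.norm_eq_abs] at h1
    have h2 := abs_le.1 (h1.trans (le_abs_self B))
    constructor
    · rw [hT]; linarith [h2.1]
    · rw [hT, hT']; linarith [h2.2]
  set g1 : ℝ → ℝ := fun t => Real.smoothTransition (4 / ε * t - 1) with hg1
  set g2 : ℝ → ℝ := fun t => Real.smoothTransition (4 / ε * (t - (H - ε / 2))) with hg2
  have h4 : 0 ≤ 4 / ε := by positivity
  have hGD : GD g1 g2 H ε q := by
    refine ⟨hε0, by linarith, Real.smoothTransition.contDiff.comp (by fun_prop),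
      Real.smoothTransition.contDiff.comp (by fun_prop), ?_, ?_, ?_, ?_, ?_, ?_, hq3⟩
    · intro a b hab
      refine Real.smoothTransition.monotone ?_
      have := mul_le_mul_of_nonneg_left hab h4
      linarith
    · intro a b hab
      refine Real.smoothTransition.monotone (mul_le_mul_of_nonneg_left (by linarith) h4)
    · intro t ht
      refine Real.smoothTransition.zero_of_nonpos ?_
      have : 4 / ε * t ≤ 1 := by
        rw [div_mul_eq_mul_div, div_le_one hε0]; linarith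
      linarith
    · intro t ht
      refine Real.smoothTransition.one_of_one_le ?_
      have : 2 ≤ 4 / ε * t := by
        rw [div_mul_eq_mul_div, le_div_iff₀ hε0]; linarith
      linarith
    · intro t ht
      exact Real.smoothTransition.zero_of_nonpos
        (mul_nonpos_of_nonneg_of_nonpos h4 (by linarith))
    · intro t ht
      refine Real.smoothTransition.one_of_one_le ?_
      rw [div_mul_eq_mul_div, le_div_iff₀ hε0]; linarith
  obtain ⟨a1, a2⟩ := hSH2 hSH1 g1 g2 H ε T T' q hGD F hF hFD hT'0 hc1 hc2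
  obtain ⟨b1, b2, b3⟩ := hSH3 hSH1 hTAN g1 g2 H ε T T' q hGD F hF hFD hc1 hc2 (by
    rw [hqy]
    exact hyp)
  rw [hqy] at b2 b3
  exact ⟨_, _, a1, a2, b1, b2, b3⟩

end Pool.Agent.N15.SF
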