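import Mathlib
import Pool.Agent.N15.SF.Stm

/-!
# Project SF: countably many local parametrisations
-/

set_option autoImplicit false

namespace Pool.Agent.N15.SF

open scoped ContDiff RealInnerProductSpace ENNReal NNReal Topology
open MeasureTheory Set Metric Filter
open Pool.Agent.Y503.RB Pool.Agent.N503.ML Pool.Agent.N15.RC

theorem EPatch.restrict {φ : ℂ → E4} {U U' : Set ℂ} (h : EPatch φ U) (hU' : IsOpen U')
    (hsub : U' ⊆ U) : EPatch φ U' :=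
  ⟨hU', h.smooth.mono hsub, fun z hz => h.imm z (hsub hz),
    h.emb.comp (Topology.IsEmbedding.inclusion hsub)⟩

theorem epatch_empty (φ : ℂ → E4) : EPatch φ ∅ := by
  refine ⟨isOpen_empty, fun z hz => absurd hz (Set.notMem_empty z),
    fun z hz => absurd hz (Set.notMem_empty z), ?_⟩
  exact ⟨⟨Subsingleton.elim _ _⟩, fun a => absurd a.2 (Set.notMem_empty _)⟩

theorem isOpen_oslab (H : ℝ) : IsOpen (oslab H) := by
  have hc : Continuous fun x : E4 => x 3 := (EuclideanSpace.proj (3 : Fin 4) : E4 →L[ℝ] ℝ).continuous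
  exact (isOpen_lt continuous_const hc).inter (isOpen_lt hc continuous_const)

theorem lp : S_LP := by
  classical
  intro F H hF
  have hc : Continuous fun x : E4 => x 3 := (EuclideanSpace.proj (3 : Fin 4) : E4 →L[ℝ] ℝ).continuous
  have hloc : ∀ p : (F ∩ oslab H : Set E4), ∃ (φ : ℂ → E4) (U : Set ℂ) (V : Set E4),
      EPatch φ U ∧ IsOpen V ∧ (p : E4) ∈ V ∧ F ∩ V = φ '' U ∧ V ⊆ oslab H := by
    intro p
    obtain ⟨φ, U, V, hP, hV, hpV, hFV⟩ := hF.loc p p.2.1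
    have hU' : IsOpen (U ∩ φ ⁻¹' (oslab H)) :=
      hP.smooth.continuousOn.isOpen_inter_preimage hP.isOpen (isOpen_oslab H)
    refine ⟨φ, U ∩ φ ⁻¹' (oslab H), V ∩ oslab H, hP.restrict hU' inter_subset_left,
      hV.inter (isOpen_oslab H), ⟨hpV, p.2.2⟩, ?_, inter_subset_right⟩
    rw [← inter_assoc, hFV]
    ext x
    constructor
    · rintro ⟨⟨⟨z, hz, rfl⟩, -⟩, hx⟩
      exact ⟨z, ⟨hz, hx⟩, rfl⟩
    · rintro ⟨z, ⟨hz, hx⟩, rfl⟩
      exact ⟨⟨⟨z, hz, rfl⟩, ⟨hx.1.le, hx.2.le⟩⟩, hx⟩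
  choose φ U V hP hV hpV hFV hVs using hloc
  obtain ⟨T, hT, hTU⟩ := TopologicalSpace.isOpen_iUnion_countable V hV
  rcases T.eq_empty_or_nonempty with hT0 | hT0
  · refine ⟨fun _ _ => 0, fun _ => ∅, fun _ => ∅, fun i => ⟨epatch_empty _, isOpen_empty, by simp,
      Set.empty_subset _⟩, ?_⟩
    intro x hx
    exfalso
    have h1 : x ∈ ⋃ i, V i := mem_iUnion.2 ⟨⟨x, hx⟩, hpV ⟨x, hx⟩⟩
    rw [← hTU, hT0] at h1
    simp at h1
  · obtain ⟨f, hf⟩ := hT.exists_eq_range hT0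
    refine ⟨fun i => φ (f i), fun i => U (f i), fun i => V (f i),
      fun i => ⟨hP _, hV _, hFV _, hVs _⟩, ?_⟩
    intro x hx
    have h1 : x ∈ ⋃ i, V i := mem_iUnion.2 ⟨⟨x, hx⟩, hpV ⟨x, hx⟩⟩
    rw [← hTU, hf] at h1
    simp only [mem_iUnion, mem_range] at h1
    obtain ⟨j, ⟨i, rfl⟩, hj⟩ := h1
    refine mem_iUnion.2 ⟨i, ?_⟩
    rw [← hFV]
    exact ⟨hx.1, hj⟩

end Pool.Agent.N15.SF
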