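import Mathlib
import Pool.Agent.N15.SF.Stm
import Pool.Agent.N15.RC.Cnt
import Pool.Agent.N15.RC.Lift

/-!
# Project SF: nondegenerate critical points of linear functions on surfaces (CAPMAX, NEAR, FINN)
-/

set_option autoImplicit false

namespace Pool.Agent.N15.SF

open scoped ContDiff RealInnerProductSpace ENNReal NNReal Topology
open MeasureTheory Set Metric Filter
open Pool.Agent.Y503.RB Pool.Agent.N503.ML Pool.Agent.N15.RC

namespace NEAR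

/-- all points of `F` near `φ z` are `φ w` with `w` near `z` -/
theorem emb_nhds {F V : Set E4} {φ : ℂ → E4} {U N : Set ℂ} (hV : IsOpen V) (hF : F ∩ V = φ '' U)
    (he : Topology.IsEmbedding (fun z : U => φ z)) {z : ℂ} (hz : z ∈ U) (hN : N ∈ 𝓝 z) :
    ∀ᶠ x in 𝓝[F] (φ z), ∃ w ∈ N ∩ U, φ w = x := by
  have hzV : φ z ∈ V := by
    have : φ z ∈ F ∩ V := by rw [hF]; exact ⟨z, hz, rfl⟩
    exact this.2
  have h1 : 𝓝[F] (φ z) = 𝓝[φ '' U] (φ z) := by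
    rw [← hF]
    exact (nhdsWithin_inter_of_mem' (mem_nhdsWithin_of_mem_nhds (hV.mem_nhds hzV))).symm
  have h2 := he.map_nhds_eq ⟨z, hz⟩
  have h3 : range (fun z : U => φ z) = φ '' U := by
    ext x; constructor
    · rintro ⟨w, rfl⟩; exact ⟨w, w.2, rfl⟩
    · rintro ⟨w, hw, rfl⟩; exact ⟨⟨w, hw⟩, rfl⟩
  rw [h3] at h2
  rw [h1, ← h2, eventually_map]
  have h4 : ∀ᶠ u : U in 𝓝 ⟨z, hz⟩, (u : ℂ) ∈ N :=
    (continuous_subtype_val.tendsto (⟨z, hz⟩ : U)).eventually hN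
  filter_upwards [h4] with u hu
  exact ⟨u, ⟨hu, u.2⟩, rfl⟩

theorem k2 {φ : ℂ → E4} {U : Set ℂ} (hU : IsOpen U) (hs : ContDiffOn ℝ ∞ φ U) {z : ℂ}
    (hz : z ∈ U) (y : E4) (u v : ℂ) :
    ContinuousAt (fun q : E4 × ℂ => sff φ q.1 u v q.2) (y, z) := by
  have : ContinuousAt (fun z => d2 φ u v z) z := (c2 hU hs u v).continuousAt (hU.mem_nhds hz)
  exact continuousAt_fst.inner (ContinuousAt.comp (x := (y, z))
      (g := fun z => d2 φ u v z) (f := fun q : E4 × ℂ => q.2) this continuousAt_snd)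

theorem k1 {φ : ℂ → E4} {U : Set ℂ} (hU : IsOpen U) (hs : ContDiffOn ℝ ∞ φ U) {z : ℂ}
    (hz : z ∈ U) (y : E4) (v : ℂ) :
    ContinuousAt (fun q : E4 × ℂ => ⟪q.1, d1 φ v q.2⟫) (y, z) := by
  have : ContinuousAt (fun z => d1 φ v z) z := (c1 hU hs v).continuousAt (hU.mem_nhds hz)
  exact continuousAt_fst.inner (ContinuousAt.comp (x := (y, z))
      (g := fun z => d1 φ v z) (f := fun q : E4 × ℂ => q.2) this continuousAt_snd)

theorem k3 {φ : ℂ → E4} {U : Set ℂ} (hU : IsOpen U) (hs : ContDiffOn ℝ ∞ φ U) {z : ℂ}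
    (hz : z ∈ U) (y : E4) :
    ContinuousAt (fun q : E4 × ℂ => kdet φ q.1 q.2) (y, z) := by
  unfold kdet
  exact ((k2 hU hs hz y 1 1).mul (k2 hU hs hz y Complex.I Complex.I)).sub
    ((k2 hU hs hz y 1 Complex.I).pow 2)

theorem near_pair {P : E4 × ℂ → Prop} {n : E4} {z : ℂ} (hP : ∀ᶠ q in 𝓝 (n, z), P q) :
    ∃ ε > 0, ∀ p : E4, ‖p - n‖ < ε → ∀ w ∈ ball z ε, P (p, w) := by
  obtain ⟨ε, hε, hb⟩ := Metric.eventually_nhds_iff.1 hP
  refine ⟨ε, hε, fun p hp z hz => hb ?_⟩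
  rw [Prod.dist_eq, max_lt_iff]
  exact ⟨by rw [dist_eq_norm]; exact hp, hz⟩

/-- a critical point with negative definite second fundamental form is a local maximum on `F` -/
theorem max_of_neg {F V : Set E4} {φ : ℂ → E4} {U : Set ℂ} (hU : IsOpen U)
    (hs : ContDiffOn ℝ ∞ φ U) (hV : IsOpen V) (hF : F ∩ V = φ '' U)
    (he : Topology.IsEmbedding (fun z : U => φ z)) {y : E4} {z : ℂ} (hz : z ∈ U)
    (hcr : ∀ v : ℂ, ⟪y, d1 φ v z⟫ = 0) (h1 : sff φ y 1 1 z < 0) (h2 : 0 < kdet φ y z) :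
    IsLocalMaxOn (fun x : E4 => ⟪y, x⟫) F (φ z) := by
  have hU' : ∀ᶠ q : E4 × ℂ in 𝓝 (y, z), q.2 ∈ U :=
    (continuous_snd.tendsto (y, z)).eventually (hU.mem_nhds hz)
  obtain ⟨ε, hε, hb⟩ := near_pair ((((k2 hU hs hz y 1 1).eventually (gt_mem_nhds h1)).and
    ((k3 hU hs hz y).eventually (lt_mem_nhds h2))).and hU')
  have hy : ‖y - y‖ < ε := by simpa using hε
  have key := emb_nhds hV hF he hz (ball_mem_nhds z hε)
  show ∀ᶠ x in 𝓝[F] (φ z), ⟪y, x⟫ ≤ ⟪y, φ z⟫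
  filter_upwards [key] with x hx
  obtain ⟨w, hw, rfl⟩ := hx
  exact (unique_crit (convex_ball z ε)
    (fun w hw => hs.contDiffAt (hU.mem_nhds (hb y hy w hw).2)) y
    (fun w hw => (hb y hy w hw).1) (mem_ball_self hε) hw.1 hcr).1

/-- first and second order conditions -/
theorem cond_of_max {F V : Set E4} {φ : ℂ → E4} {U : Set ℂ} (hU : IsOpen U)
    (hs : ContDiffOn ℝ ∞ φ U) (hF : F ∩ V = φ '' U) {y : E4} {z : ℂ} (hz : z ∈ U)
    (hm : IsLocalMaxOn (fun x : E4 => ⟪y, x⟫) F (φ z)) :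
    (∀ v : ℂ, ⟪y, d1 φ v z⟫ = 0) ∧ ∀ v : ℂ, sff φ y v v z ≤ 0 := by
  have hsm : ContDiffAt ℝ ∞ φ z := hs.contDiffAt (hU.mem_nhds hz)
  have hsub : φ '' U ⊆ F := by rw [← hF]; exact inter_subset_left
  have hmax0 : IsLocalMax (fun w => ⟪y, φ w⟫) z :=
    max_comp (f := fun x : E4 => ⟪y, x⟫) hU hs.continuousOn hsub hz hm
  have hmax : IsLocalMax (fun w => ⟪y, φ w⟫ + 0) z := by simpa using hmax0
  have hs2 : ContDiffAt ℝ ∞ (fun w => -(⟪y, φ w⟫ + 0)) z := by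
    have e2 : ContDiffAt ℝ ∞ (fun w => ⟪y, φ w⟫) z :=
      (innerSL ℝ y).contDiff.contDiffAt.comp z hsm
    exact (e2.add contDiffAt_const).neg
  have hmin : IsLocalMin (fun w => -(⟪y, φ w⟫ + 0)) z := by
    filter_upwards [hmax] with w hw
    exact neg_le_neg hw
  have hsoc := Pool.Agent.Y640.RB.soc _ z hs2 hmin
  have hcr : fderiv ℝ (fun w => ⟪y, φ w⟫ + 0) z = 0 := hmax.fderiv_eq_zero
  refine ⟨fun v => by rw [← (hess hsm y 0).1 v, hcr]; rfl, fun w => ?_⟩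
  have e1 : (fun w => -(⟪y, φ w⟫ + 0)) = fun w => ⟪-y, φ w⟫ + (-0) := by
    funext w
    rw [inner_neg_left]; ring
  have e2 := hsoc w
  rw [e1, (hess hsm (-y) (-0)).2] at e2
  unfold sff at e2 ⊢
  rw [inner_neg_left] at e2
  linarith

/-- the local structure near a point which is not a degenerate critical point -/
theorem loc {F V : Set E4} {φ : ℂ → E4} {U : Set ℂ} (hE : EPatch φ U)
    (hV : IsOpen V) (hF : F ∩ V = φ '' U) {n : E4} {z₀ : ℂ} (hz₀ : z₀ ∈ U)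
    (hk : (∀ v : ℂ, ⟪n, d1 φ v z₀⟫ = 0) → kdet φ n z₀ ≠ 0) :
    ∃ (N : Set E4) (ε : ℝ), IsOpen N ∧ φ z₀ ∈ N ∧ 0 < ε ∧ ∀ y : E4, ‖y - n‖ < ε →
      (∀ p ∈ N ∩ F, ∀ p' ∈ N ∩ F, IsLocalMaxOn (fun x : E4 => ⟪y, x⟫) F p →
        IsLocalMaxOn (fun x : E4 => ⟪y, x⟫) F p' → p = p') ∧
      (¬ IsLocalMaxOn (fun x : E4 => ⟪n, x⟫) F (φ z₀) → ∀ p ∈ N ∩ F,
        ¬ IsLocalMaxOn (fun x : E4 => ⟪y, x⟫) F p) := by
  have hU := hE.isOpen
  have hs := hE.smooth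
  have hsm : ContDiffAt ℝ ∞ φ z₀ := hs.contDiffAt (hU.mem_nhds hz₀)
  have ksnd : ∀ᶠ q : E4 × ℂ in 𝓝 (n, z₀), q.2 ∈ U :=
    (continuous_snd.tendsto (n, z₀)).eventually (hU.mem_nhds hz₀)
  -- reduction to the parameter domain
  have red : ∀ ε : ℝ, 0 < ε →
      (∀ y : E4, ‖y - n‖ < ε →
        (∀ z ∈ ball z₀ ε ∩ U, ∀ z' ∈ ball z₀ ε ∩ U, IsLocalMaxOn (fun x : E4 => ⟪y, x⟫) F (φ z) →
        IsLocalMaxOn (fun x : E4 => ⟪y, x⟫) F (φ z') → z = z') ∧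
        (¬ IsLocalMaxOn (fun x : E4 => ⟪n, x⟫) F (φ z₀) → ∀ z ∈ ball z₀ ε ∩ U,
        ¬ IsLocalMaxOn (fun x : E4 => ⟪y, x⟫) F (φ z))) →
      ∃ (N : Set E4) (ε : ℝ), IsOpen N ∧ φ z₀ ∈ N ∧ 0 < ε ∧ ∀ y : E4, ‖y - n‖ < ε →
      (∀ p ∈ N ∩ F, ∀ p' ∈ N ∩ F, IsLocalMaxOn (fun x : E4 => ⟪y, x⟫) F p →
        IsLocalMaxOn (fun x : E4 => ⟪y, x⟫) F p' → p = p') ∧
      (¬ IsLocalMaxOn (fun x : E4 => ⟪n, x⟫) F (φ z₀) → ∀ p ∈ N ∩ F,
        ¬ IsLocalMaxOn (fun x : E4 => ⟪y, x⟫) F p) := by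
    intro ε hε hall
    obtain ⟨N, hN, hzN, hNs⟩ := mem_nhdsWithin.1 (emb_nhds hV hF hE.emb hz₀ (ball_mem_nhds z₀ hε))
    refine ⟨N, ε, hN, hzN, hε, fun y hy => ?_⟩
    obtain ⟨a1, a2⟩ := hall y hy
    refine ⟨fun p hp p' hp' hm hm' => ?_, fun hn p hp hm => ?_⟩
    · obtain ⟨w, hw, rfl⟩ := hNs hp
      obtain ⟨w', hw', rfl⟩ := hNs hp'
      rw [a1 w hw w' hw' hm hm']
    · obtain ⟨w, hw, rfl⟩ := hNs hp
      exact a2 hn w hw hm
  have hno : ∀ ε : ℝ, 0 < ε → (∀ y : E4, ‖y - n‖ < ε → ∀ z ∈ ball z₀ ε ∩ U,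
      ¬ IsLocalMaxOn (fun x : E4 => ⟪y, x⟫) F (φ z)) →
      ∃ (N : Set E4) (ε : ℝ), IsOpen N ∧ φ z₀ ∈ N ∧ 0 < ε ∧ ∀ y : E4, ‖y - n‖ < ε →
      (∀ p ∈ N ∩ F, ∀ p' ∈ N ∩ F, IsLocalMaxOn (fun x : E4 => ⟪y, x⟫) F p →
        IsLocalMaxOn (fun x : E4 => ⟪y, x⟫) F p' → p = p') ∧
      (¬ IsLocalMaxOn (fun x : E4 => ⟪n, x⟫) F (φ z₀) → ∀ p ∈ N ∩ F,
        ¬ IsLocalMaxOn (fun x : E4 => ⟪y, x⟫) F p) := fun ε hε hall =>
    red ε hε fun y hy => ⟨fun z hz _ _ hm => absurd hm (hall y hy z hz), fun _ => hall y hy⟩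
  by_cases hcr : ∀ v : ℂ, ⟪n, d1 φ v z₀⟫ = 0
  · by_cases hpos : ∃ v : ℂ, 0 < sff φ n v v z₀
    · obtain ⟨v, hv⟩ := hpos
      obtain ⟨ε, hε, hb⟩ := near_pair ((k2 hU hs hz₀ n v v).eventually (lt_mem_nhds hv))
      refine hno ε hε fun y hy z hz hm => ?_
      have h1 := (cond_of_max hU hs hF hz.2 hm).2 v
      have h2 := hb y hy z hz.1
      simp only at h2
      linarith
    · push Not at hpos
      obtain ⟨a, b⟩ := neg_of_semidef hsm hpos (hk hcr)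
      obtain ⟨ε, hε, hb⟩ := near_pair ((((k2 hU hs hz₀ n 1 1).eventually (gt_mem_nhds a)).and
        ((k3 hU hs hz₀ n).eventually (lt_mem_nhds b))).and ksnd)
      have hn : ‖n - n‖ < ε := by simpa using hε
      have hVs : ∀ z ∈ ball z₀ ε, ContDiffAt ℝ ∞ φ z := fun z hz =>
        hs.contDiffAt (hU.mem_nhds (hb n hn z hz).2)
      refine red ε hε fun y hy => ⟨fun z hz z' hz' hm hm' => ?_, fun hnm => ?_⟩
      · have c := (cond_of_max hU hs hF hz.2 hm).1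
        have c' := (cond_of_max hU hs hF hz'.2 hm').1
        exact ((unique_crit (convex_ball z₀ ε) hVs y (fun w hw => (hb y hy w hw).1) hz.1 hz'.1
          c).2 c').symm
      · exact absurd (max_of_neg hU hs hV hF hE.emb hz₀ hcr a b) hnm
  · push Not at hcr
    obtain ⟨v, hv⟩ := hcr
    obtain ⟨ε, hε, hb⟩ := near_pair ((k1 hU hs hz₀ n v).eventually_ne hv)
    exact hno ε hε fun y hy z hz hm => hb y hy z hz.1 ((cond_of_max hU hs hF hz.2 hm).1 v)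

theorem kdet_ne' {φ : ℂ → E4} {z₀ : ℂ} (hsm : ContDiffAt ℝ ∞ φ z₀)
    (hM : fderiv ℝ (fun w => φ w 3) z₀ = 0 → ∀ u : ℂ,
      (∀ v : ℂ, fderiv ℝ (fderiv ℝ (fun w => φ w 3)) z₀ u v = 0) → u = 0)
    (hcr : ∀ v : ℂ, ⟪vert, d1 φ v z₀⟫ = 0) : kdet φ vert z₀ ≠ 0 := by
  intro hk
  have hcr' : fderiv ℝ (fun w => φ w 3) z₀ = 0 := by
    ext v
    rw [height_eq, (hess hsm vert 0).1]
    exact hcr v
  have hmo := hM hcr'
  have hsff : ∀ u v, fderiv ℝ (fderiv ℝ (fun w => φ w 3)) z₀ u v = sff φ vert u v z₀ := by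
    intro u v
    rw [height_eq, (hess hsm vert 0).2]
  simp only [hsff] at hmo
  unfold kdet at hk
  set e := sff φ vert 1 1 z₀ with he
  set f := sff φ vert 1 Complex.I z₀ with hf
  set g := sff φ vert Complex.I Complex.I z₀ with hg
  have hsy : sff φ vert Complex.I 1 z₀ = f := sff_symm hsm vert _ _
  have hgen : ∀ u v : ℂ, sff φ vert u v z₀ = u.re * (v.re * e + v.im * f) +
      u.im * (v.re * f + v.im * g) := by
    intro u v
    rw [sff_left vert u v, sff_symm hsm vert 1 v, sff_symm hsm vert Complex.I v,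
      sff_left vert v 1, sff_left vert v Complex.I, hsy]
  have h1 := hmo ⟨f, -e⟩ (fun v => by
    rw [hgen]
    simp only
    linear_combination (-v.im) * hk)
  have h2 := hmo ⟨g, -f⟩ (fun v => by
    rw [hgen]
    simp only
    linear_combination (v.re) * hk)
  have hf0 : f = 0 := congrArg Complex.re h1
  have he0 : e = 0 := by
    have := congrArg Complex.im h1
    simp at this
    exact this
  have h3 := hmo 1 (fun v => by
    rw [hgen]
    simp [he0, hf0])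
  exact one_ne_zero h3

/-- no extrema in the collars -/
theorem no_max_collar {F : Set E4} {x y : E4} (hy : y 3 ≠ 0)
    (hc : ∀ᶠ t : ℝ in 𝓝 0, x + t • vert ∈ F) :
    ¬ IsLocalMaxOn (fun x : E4 => ⟪y, x⟫) F x := by
  intro hm
  have h1 : Tendsto (fun t : ℝ => x + t • vert) (𝓝 0) (𝓝[F] x) := by
    refine tendsto_nhdsWithin_iff.mpr ⟨?_, hc⟩
    have : Continuous (fun t : ℝ => x + t • vert) := by fun_prop
    have h2 := this.tendsto 0
    simpa using h2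
  have h2 : ∀ᶠ t : ℝ in 𝓝 0, ⟪y, x + t • vert⟫ ≤ ⟪y, x⟫ := h1.eventually hm
  have h3 : IsLocalMax (fun t : ℝ => t * y 3) 0 := by
    show ∀ᶠ t : ℝ in 𝓝 0, t * y 3 ≤ 0 * y 3
    filter_upwards [h2] with t ht
    rw [inner_add_right, real_inner_smul_right, real_inner_comm vert y, inner_vert] at ht
    linarith
  have h4 := h3.deriv_eq_zero
  have h5 : HasDerivAt (fun t : ℝ => t * y 3) (1 * y 3) 0 := (hasDerivAt_id 0).mul_const (y 3)
  rw [h5.deriv, one_mul] at h4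
  exact hy h4

theorem coord_cont : Continuous (fun x : E4 => x 3) :=
  (EuclideanSpace.proj (3 : Fin 4) : E4 →L[ℝ] ℝ).continuous

theorem add_vert_three (x : E4) (t : ℝ) : (x + t • vert) 3 = x 3 + t := by
  have : (x + t • vert) 3 = x 3 + t * vert 3 := rfl
  rw [this, vert_three, mul_one]

/-- the collars are vertical -/
theorem collar_low {F : Set E4} {ε : ℝ}
    (h : ∀ x : E4, 0 ≤ x 3 → x 3 ≤ ε → (x ∈ F ↔ x - (x 3) • vert ∈ F)) {x : E4} (hx : x ∈ F)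
    (h0 : 0 < x 3) (h1 : x 3 < ε) : ∀ᶠ t : ℝ in 𝓝 0, x + t • vert ∈ F := by
  have hx' := (h x h0.le h1.le).1 hx
  have a1 : ∀ᶠ t : ℝ in 𝓝 0, -(x 3) < t := lt_mem_nhds (by linarith)
  have a2 : ∀ᶠ t : ℝ in 𝓝 0, t < ε - x 3 := gt_mem_nhds (by linarith)
  filter_upwards [a1, a2] with t b1 b2
  have e := add_vert_three x t
  refine (h _ (by rw [e]; linarith) (by rw [e]; linarith)).2 ?_
  rw [e]
  have : x + t • vert - (x 3 + t) • vert = x - (x 3) • vert := by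
    rw [add_smul]; abel
  rw [this]
  exact hx'

theorem collar_high {F : Set E4} {H ε : ℝ}
    (h : ∀ x : E4, H - ε ≤ x 3 → x 3 ≤ H → (x ∈ F ↔ x + (H - x 3) • vert ∈ F)) {x : E4}
    (hx : x ∈ F) (h0 : H - ε < x 3) (h1 : x 3 < H) : ∀ᶠ t : ℝ in 𝓝 0, x + t • vert ∈ F := by
  have hx' := (h x h0.le h1.le).1 hx
  have a1 : ∀ᶠ t : ℝ in 𝓝 0, H - ε - x 3 < t := lt_mem_nhds (by linarith)
  have a2 : ∀ᶠ t : ℝ in 𝓝 0, t < H - x 3 := gt_mem_nhds (by linarith)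
  filter_upwards [a1, a2] with t b1 b2
  have e := add_vert_three x t
  refine (h _ (by rw [e]; linarith) (by rw [e]; linarith)).2 ?_
  rw [e]
  have : x + t • vert + (H - (x 3 + t)) • vert = x + (H - x 3) • vert := by
    rw [add_assoc, ← add_smul]
    congr 2
    ring
  rw [this]
  exact hx'

/-- the global structure for directions close to `σ • vert` -/
theorem glob {F : Set E4} {H : ℝ} (hC : Cob F H) (hM : MorseF F H) {σ : ℝ} (hσ : σ ≠ 0) :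
    ∃ ε > 0, ∃ t : Finset E4, ∀ y : E4, ‖y - σ • vert‖ < ε → ∃ f : E4 → E4,
      MapsTo f (LMax F H y) (LMax F H (σ • vert)) ∧ InjOn f (LMax F H y) ∧
      MapsTo f (LMax F H y) t := by
  classical
  obtain ⟨ε, hε, hεH, hlow, hhigh⟩ := hC.collar
  have hloc : ∀ p : E4, ∃ (N : Set E4) (e : ℝ), IsOpen N ∧ p ∈ N ∧ 0 < e ∧
      (p ∈ F ∩ oslab H → ∀ y : E4, ‖y - σ • vert‖ < e →
      (∀ q ∈ N ∩ F, ∀ q' ∈ N ∩ F, IsLocalMaxOn (fun x : E4 => ⟪y, x⟫) F q →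
        IsLocalMaxOn (fun x : E4 => ⟪y, x⟫) F q' → q = q') ∧
      (¬ IsLocalMaxOn (fun x : E4 => ⟪σ • vert, x⟫) F p → ∀ q ∈ N ∩ F,
        ¬ IsLocalMaxOn (fun x : E4 => ⟪y, x⟫) F q)) := by
    intro p
    by_cases hp : p ∈ F ∩ oslab H
    · obtain ⟨φ, U, V, z, hE, hV, hpV, hF, hz, hzp, hmo⟩ := hM p hp
      subst hzp
      have hsm : ContDiffAt ℝ ∞ φ z := hE.smooth.contDiffAt (hE.isOpen.mem_nhds hz)
      obtain ⟨N, e, h1, h2, h3, h4⟩ := loc hE hV hF (n := σ • vert) hz (by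
        intro hcr
        have hcr' : ∀ v : ℂ, ⟪vert, d1 φ v z⟫ = 0 := fun v => by
          have := hcr v
          rw [real_inner_smul_left] at this
          exact (mul_eq_zero.1 this).resolve_left hσ
        have hk := kdet_ne' hsm hmo hcr'
        have e1 : kdet φ (σ • vert) z = σ ^ 2 * kdet φ vert z := by
          unfold kdet
          rw [sff_smul, sff_smul, sff_smul]
          ring
        rw [e1]
        exact mul_ne_zero (pow_ne_zero 2 hσ) hk)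
      exact ⟨N, e, h1, h2, h3, fun _ => h4⟩
    · exact ⟨univ, 1, isOpen_univ, mem_univ _, one_pos, fun h => absurd h hp⟩
  choose N e hN hpN he hall using hloc
  set M : Set E4 := F ∩ {x | ε ≤ x 3 ∧ x 3 ≤ H - ε} with hMd
  have hMc : IsCompact M := by
    refine hC.compact.inter_right ?_
    exact (isClosed_le continuous_const coord_cont).inter
      (isClosed_le coord_cont continuous_const)
  obtain ⟨t, ht1, ht2⟩ := hMc.elim_nhds_subcover N (fun p _ => (hN p).mem_nhds (hpN p))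
  obtain ⟨δ, hδ, hδt⟩ : ∃ δ > 0, ∀ p ∈ t, δ ≤ e p := by
    rcases t.eq_empty_or_nonempty with h | h
    · exact ⟨1, one_pos, by simp [h]⟩
    · obtain ⟨p, hp, hmin⟩ := t.exists_min_image e h
      exact ⟨e p, he p, hmin⟩
  refine ⟨min δ (|σ|), lt_min hδ (abs_pos.2 hσ), t, fun y hy => ?_⟩
  have hy1 : ‖y - σ • vert‖ < δ := hy.trans_le (min_le_left _ _)
  have hy2 : ‖y - σ • vert‖ < |σ| := hy.trans_le (min_le_right _ _)
  have hy3 : y 3 ≠ 0 := by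
    intro h0
    have h1 : ⟪vert, y - σ • vert⟫ = -σ := by
      rw [inner_sub_right, inner_vert, h0, real_inner_smul_right, real_inner_self_eq_norm_sq,
        norm_vert]
      ring
    have h2 := abs_real_inner_le_norm vert (y - σ • vert)
    rw [h1, norm_vert, one_mul, abs_neg] at h2
    linarith
  have hin : ∀ x ∈ LMax F H y, ∃ p ∈ t, x ∈ N p := by
    intro x hx
    obtain ⟨⟨hxF, hx0, hxH⟩, hm⟩ := hx
    have hxM : x ∈ M := by
      refine ⟨hxF, ?_, ?_⟩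
      · by_contra hcon
        push Not at hcon
        exact no_max_collar hy3 (collar_low hlow hxF hx0 hcon) hm
      · by_contra hcon
        push Not at hcon
        exact no_max_collar hy3 (collar_high hhigh hxF hcon hxH) hm
    have := ht2 hxM
    simpa using this
  choose! f hf1 hf2 using hin
  have hfs : ∀ x ∈ LMax F H y, f x ∈ F ∩ oslab H := by
    intro x hx
    have := ht1 _ (hf1 x hx)
    refine ⟨this.1, ?_, ?_⟩
    · exact lt_of_lt_of_le hε this.2.1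
    · exact lt_of_le_of_lt this.2.2 (by linarith)
  have hfy : ∀ x ∈ LMax F H y, ‖y - σ • vert‖ < e (f x) := fun x hx =>
    hy1.trans_le (hδt _ (hf1 x hx))
  refine ⟨f, fun x hx => ?_, fun a ha b hb hab => ?_, fun x hx => hf1 x hx⟩
  · refine ⟨hfs x hx, ?_⟩
    by_contra hnm
    exact (hall (f x) (hfs x hx) y (hfy x hx)).2 hnm x ⟨hf2 x hx, hx.1.1⟩ hx.2
  · exact (hall (f a) (hfs a ha) y (hfy a ha)).1 a ⟨hf2 a ha, ha.1.1⟩ b
      ⟨by rw [hab]; exact hf2 b hb, hb.1.1⟩ ha.2 hb.2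

theorem nmaxF_eq (F : Set E4) (H : ℝ) : nmaxF F H = (LMax F H vert).encard := by
  unfold nmaxF LMax
  simp only [inner_vert]

theorem LMin_eq (F : Set E4) (H : ℝ) (y : E4) : LMin F H y = LMax F H (-y) := by
  unfold LMin LMax
  ext p
  simp only [mem_ofPred_eq]
  refine and_congr_right fun _ => ?_
  constructor
  · intro h
    have h2 : ∀ᶠ w in 𝓝[F] p, ⟪y, p⟫ ≤ ⟪y, w⟫ := h
    show ∀ᶠ w in 𝓝[F] p, ⟪-y, w⟫ ≤ ⟪-y, p⟫
    filter_upwards [h2] with w hw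
    rw [inner_neg_left, inner_neg_left]
    linarith
  · intro h
    have h2 : ∀ᶠ w in 𝓝[F] p, ⟪-y, w⟫ ≤ ⟪-y, p⟫ := h
    show ∀ᶠ w in 𝓝[F] p, ⟪y, p⟫ ≤ ⟪y, w⟫
    filter_upwards [h2] with w hw
    rw [inner_neg_left, inner_neg_left] at hw
    linarith

theorem nminF_eq (F : Set E4) (H : ℝ) : nminF F H = (LMax F H (-vert)).encard := by
  rw [← LMin_eq]
  unfold nminF LMin
  simp only [inner_vert]

end NEAR

theorem capmax : S_CAPMAX := by
  intro F φ U V hP _ hV hF he y z hz hc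
  exact NEAR.max_of_neg hP.isOpen hP.smooth hV hF he hz hc.1 hc.2.2.1 hc.2.2.2

theorem near : S_NEAR := by
  intro F H hC hM
  obtain ⟨e1, he1, t1, h1⟩ := NEAR.glob hC hM (σ := 1) one_ne_zero
  obtain ⟨e2, he2, t2, h2⟩ := NEAR.glob hC hM (σ := -1) (by norm_num)
  refine ⟨min e1 e2, lt_min he1 he2, fun y hy => ⟨?_, ?_⟩⟩
  · obtain ⟨f, hf1, hf2, -⟩ := h1 y (by
      rw [one_smul]; exact hy.trans_le (min_le_left _ _))
    rw [NEAR.nmaxF_eq]
    rw [one_smul] at hf1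
    exact Set.encard_le_encard_of_injOn hf1 hf2
  · obtain ⟨f, hf1, hf2, -⟩ := h2 (-y) (by
      have : -y - (-1 : ℝ) • vert = -(y - vert) := by
        rw [neg_smul, one_smul]; abel
      rw [this, norm_neg]
      exact hy.trans_le (min_le_right _ _))
    rw [NEAR.nminF_eq, NEAR.LMin_eq]
    rw [neg_smul, one_smul] at hf1
    exact Set.encard_le_encard_of_injOn hf1 hf2

theorem finn : S_FINN := by
  intro F H hC hM
  obtain ⟨e1, he1, t1, h1⟩ := NEAR.glob hC hM (σ := 1) one_ne_zero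
  obtain ⟨e2, he2, t2, h2⟩ := NEAR.glob hC hM (σ := -1) (by norm_num)
  constructor
  · obtain ⟨f, -, hf2, hf3⟩ := h1 vert (by
      rw [one_smul, sub_self, norm_zero]; exact he1)
    rw [NEAR.nmaxF_eq]
    refine ne_top_of_le_ne_top ?_ (Set.encard_le_encard_of_injOn hf3 hf2)
    rw [Set.encard_coe_eq_coe_finsetCard]
    exact ENat.natCast_ne_top _
  · obtain ⟨f, -, hf2, hf3⟩ := h2 (-vert) (by
      rw [neg_smul, one_smul, sub_self, norm_zero]; exact he2)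
    rw [NEAR.nminF_eq]
    refine ne_top_of_le_ne_top ?_ (Set.encard_le_encard_of_injOn hf3 hf2)
    rw [Set.encard_coe_eq_coe_finsetCard]
    exact ENat.natCast_ne_top _

end Pool.Agent.N15.SF
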