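import Pool.Agent.N15.SF.Stm2

/-!
# Project SF: the vertical shear is a diffeomorphism (helper152)
-/

set_option autoImplicit false

namespace Pool.Agent.N15.SF

open scoped ContDiff RealInnerProductSpace ENNReal NNReal Topology
open MeasureTheory Set Metric Filter
open Pool.Agent.Y503.RB Pool.Agent.N503.ML Pool.Agent.N15.RC

namespace SH1

variable {g1 g2 : ℝ → ℝ} {H ε T T' : ℝ} {q : E4}

theorem g_mul (hG : GD g1 g2 H ε q) (t : ℝ) : g1 t * g2 t = g2 t := by
  rcases le_or_gt (ε / 2) t with h | h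
  · rw [hG.o1 t h, one_mul]
  · have h0 := hG.e0
    have h1 := hG.eH
    rw [hG.z2 t (by linarith), mul_zero]

theorem g1_nonneg (hG : GD g1 g2 H ε q) (t : ℝ) : 0 ≤ g1 t := by
  have h1 := hG.m1 (min_le_left t (ε / 4))
  rwa [hG.z1 _ (min_le_right _ _)] at h1

theorem g1_le (hG : GD g1 g2 H ε q) (t : ℝ) : g1 t ≤ 1 := by
  have h1 := hG.m1 (le_max_left t (ε / 2))
  rwa [hG.o1 _ (le_max_right _ _)] at h1

theorem g2_nonneg (hG : GD g1 g2 H ε q) (t : ℝ) : 0 ≤ g2 t := by
  have h1 := hG.m2 (min_le_left t (H - ε / 2))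
  rwa [hG.z2 _ (min_le_right _ _)] at h1

theorem g2_le (hG : GD g1 g2 H ε q) (t : ℝ) : g2 t ≤ 1 := by
  have h1 := hG.m2 (le_max_left t (H - ε / 4))
  rwa [hG.o2 _ (le_max_right _ _)] at h1

theorem inner_q_vert (hG : GD g1 g2 H ε q) : ⟪q, vert⟫ = 0 := by
  rw [real_inner_comm, inner_vert]
  exact hG.q3

/-- the coordinates -/
noncomputable def pr (i : Fin 4) : E4 →L[ℝ] ℝ := EuclideanSpace.proj i

theorem vert_ne {i : Fin 4} (hi : i ≠ 3) : vert i = 0 := by
  simp [vert, hi]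

theorem sh_ne (x : E4) {i : Fin 4} (hi : i ≠ 3) : sh g1 g2 T T' q x i = x i := by
  have h : sh g1 g2 T T' q x i =
    x i + (g1 (x 3) * (1 - g2 (x 3)) * (T + ⟪q, x⟫) + g2 (x 3) * T') * vert i := rfl
  rw [h, vert_ne hi, mul_zero, add_zero]

theorem sh_three (hG : GD g1 g2 H ε q) (x : E4) : sh g1 g2 T T' q x 3 =
    x 3 + (g1 (x 3) * (T + ⟪q, x⟫) + g2 (x 3) * (T' - (T + ⟪q, x⟫))) := by
  have h : sh g1 g2 T T' q x 3 =
    x 3 + (g1 (x 3) * (1 - g2 (x 3)) * (T + ⟪q, x⟫) + g2 (x 3) * T') * vert 3 := rfl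
  rw [h, vert_three, mul_one]
  have h1 := g_mul hG (x 3)
  linear_combination -(T + ⟪q, x⟫) * h1

theorem add_vert_three (x : E4) (t : ℝ) : (x + t • vert) 3 = x 3 + t := by
  have h : (x + t • vert) 3 = x 3 + t * vert 3 := rfl
  rw [h, vert_three, mul_one]

theorem inner_add_vert (hG : GD g1 g2 H ε q) (x : E4) (t : ℝ) : ⟪q, x + t • vert⟫ = ⟪q, x⟫ := by
  rw [inner_add_right, inner_smul_right, inner_q_vert hG, mul_zero, add_zero]

/-- growth in the vertical direction -/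
theorem grow (hG : GD g1 g2 H ε q) {x : E4} (hx : x ∈ Dom T T' q) {t : ℝ} (ht : 0 ≤ t) :
    sh g1 g2 T T' q x 3 + t ≤ sh g1 g2 T T' q (x + t • vert) 3 := by
  obtain ⟨hx1, hx2⟩ := hx
  rw [sh_three hG, sh_three hG, add_vert_three, inner_add_vert hG]
  have h1 := hG.m1 (show x 3 ≤ x 3 + t by linarith)
  have h2 := hG.m2 (show x 3 ≤ x 3 + t by linarith)
  have h3 := mul_le_mul_of_nonneg_right h1 hx1.le
  have h4 := mul_le_mul_of_nonneg_right h2 (sub_nonneg.2 hx2.le)
  linarith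

theorem ext4 {x y : E4} (h : ∀ i : Fin 4, i ≠ 3 → x i = y i) : x = y + (x 3 - y 3) • vert := by
  ext i
  have h1 : (y + (x 3 - y 3) • vert) i = y i + (x 3 - y 3) * vert i := rfl
  rw [h1]
  by_cases hi : i = 3
  · subst hi
    rw [vert_three]
    ring
  · rw [vert_ne hi, mul_zero, add_zero, h i hi]

theorem smooth (hG : GD g1 g2 H ε q) : ContDiff ℝ ∞ (sh g1 g2 T T' q) := by
  have h3 : ContDiff ℝ ∞ (fun x : E4 => x 3) :=
    (pr 3).contDiff
  have hq : ContDiff ℝ ∞ (fun x : E4 => ⟪q, x⟫) := contDiff_const.inner ℝ contDiff_id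
  have e1 := hG.s1.comp h3
  have e2 := hG.s2.comp h3
  exact contDiff_id.add ((((e1.mul (contDiff_const.sub e2)).mul (contDiff_const.add hq)).add
    (e2.mul contDiff_const)).smul contDiff_const)

theorem inj (hG : GD g1 g2 H ε q) : InjOn (sh g1 g2 T T' q) (Dom T T' q) := by
  have key : ∀ x ∈ Dom T T' q, ∀ y ∈ Dom T T' q, sh g1 g2 T T' q x = sh g1 g2 T T' q y →
      x 3 ≤ y 3 → x = y := by
    intro x hx y hy hxy hle
    have h1 : y = x + (y 3 - x 3) • vert := by
      apply ext4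
      intro i hi
      rw [← sh_ne (g1 := g1) (g2 := g2) (T := T) (T' := T') (q := q) x hi, hxy, sh_ne y hi]
    have h2 := grow hG hx (sub_nonneg.2 hle)
    rw [← h1, hxy] at h2
    have h3 : y 3 - x 3 = 0 := by linarith
    rw [h3, zero_smul, add_zero] at h1
    exact h1.symm
  intro x hx y hy hxy
  rcases le_total (x 3) (y 3) with h | h
  · exact key x hx y hy hxy h
  · exact (key y hy x hx hxy.symm h).symm

theorem proj_fderiv (hG : GD g1 g2 H ε q) (x _v : E4) (i : Fin 4) :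
    HasFDerivAt (fun y : E4 => sh g1 g2 T T' q y i)
      ((pr i).comp
        (fderiv ℝ (sh g1 g2 T T' q) x)) x := by
  have h1 : HasFDerivAt (sh g1 g2 T T' q) (fderiv ℝ (sh g1 g2 T T' q) x) x :=
    ((smooth hG).differentiable (by simp)).differentiableAt.hasFDerivAt
  exact (pr i).hasFDerivAt.comp x h1

theorem imm (hG : GD g1 g2 H ε q) {x : E4} (hx : x ∈ Dom T T' q) :
    Function.Injective (fderiv ℝ (sh g1 g2 T T' q) x) := by
  rw [injective_iff_map_eq_zero]
  intro v hv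
  -- the first three coordinates
  have h1 : ∀ i : Fin 4, i ≠ 3 → v i = 0 := by
    intro i hi
    have h2 := proj_fderiv (T := T) (T' := T') hG x v i
    have h3 : (fun y : E4 => sh g1 g2 T T' q y i) = fun y : E4 => y i := by
      funext y
      exact sh_ne y hi
    rw [h3] at h2
    have h4 : HasFDerivAt (fun y : E4 => y i)
        (pr i) x :=
      (pr i).hasFDerivAt
    have h5 := congrArg (fun L : E4 →L[ℝ] ℝ => L v) (h4.unique h2)
    have h6 : v i = (fderiv ℝ (sh g1 g2 T T' q) x v) i := h5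
    rw [h6, hv]
    rfl
  have h2 : v = (v 3) • vert := by
    have h3 := ext4 (x := v) (y := 0) (fun i hi => h1 i hi)
    rw [zero_add] at h3
    have h4 : v 3 - (0 : E4) 3 = v 3 := sub_zero _
    rw [h4] at h3
    exact h3
  -- the derivative in the vertical direction
  have h3 : HasDerivAt (fun t : ℝ => sh g1 g2 T T' q (x + t • vert) 3)
      ((fderiv ℝ (sh g1 g2 T T' q) x vert) 3) 0 := by
    have e1 : HasDerivAt (fun t : ℝ => x + t • vert) vert 0 := by
      have := ((hasDerivAt_id (0 : ℝ)).smul_const vert).const_add x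
      rwa [one_smul] at this
    have e2 := proj_fderiv (T := T) (T' := T') hG x vert 3
    have e3 : x + (0 : ℝ) • vert = x := by rw [zero_smul, add_zero]
    have e4 : HasFDerivAt (fun y : E4 => sh g1 g2 T T' q y 3)
      ((pr 3).comp
        (fderiv ℝ (sh g1 g2 T T' q) x)) (x + (0 : ℝ) • vert) := by rwa [e3]
    exact e4.comp_hasDerivAt 0 e1
  have h4 : 1 ≤ (fderiv ℝ (sh g1 g2 T T' q) x vert) 3 := by
    refine ge_of_tendsto h3.tendsto_slope_zero_right ?_
    filter_upwards [self_mem_nhdsWithin] with t ht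
    have ht' : 0 < t := ht
    have e3 : x + (0 : ℝ) • vert = x := by rw [zero_smul, add_zero]
    have h5 := grow hG hx ht'.le
    rw [zero_add, e3, smul_eq_mul, ← div_eq_inv_mul, le_div_iff₀ ht']
    linarith
  have h5 : (v 3) * (fderiv ℝ (sh g1 g2 T T' q) x vert) 3 = 0 := by
    have h6 := hv
    rw [h2, map_smul] at h6
    have h7 := congrArg (fun y : E4 => y 3) h6
    exact h7
  have h6 : v 3 = 0 := by
    rcases mul_eq_zero.1 h5 with h | h
    · exact h
    · rw [h] at h4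
      linarith
  rw [h2, h6, zero_smul]

theorem openMap (hG : GD g1 g2 H ε q) {W : Set E4} (hW : W ⊆ Dom T T' q) (hWo : IsOpen W) :
    IsOpen (sh g1 g2 T T' q '' W) := by
  rw [isOpen_iff_mem_nhds]
  rintro _ ⟨x, hx, rfl⟩
  have h1 : HasStrictFDerivAt (sh g1 g2 T T' q) (fderiv ℝ (sh g1 g2 T T' q) x) x :=
    (smooth hG).contDiffAt.hasStrictFDerivAt (by simp)
  have h2 : Function.Surjective (fderiv ℝ (sh g1 g2 T T' q) x) :=
    (LinearMap.injective_iff_surjective (f := (fderiv ℝ (sh g1 g2 T T' q) x).toLinearMap)).1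
      (imm hG (hW hx))
  have h3 := h1.map_nhds_eq_of_surj (LinearMap.range_eq_top.2 h2)
  rw [← h3]
  exact image_mem_map (hWo.mem_nhds hx)

theorem slabs (hG : GD g1 g2 H ε q) {x : E4} (hx : x ∈ Dom T T' q) :
    (sh g1 g2 T T' q x ∈ slab (H + T') ↔ x ∈ slab H) ∧
    (sh g1 g2 T T' q x ∈ oslab (H + T') ↔ x ∈ oslab H) := by
  obtain ⟨hx1, hx2⟩ := hx
  have h0 := hG.e0
  have h1 := hG.eH
  show ((0 ≤ sh g1 g2 T T' q x 3 ∧ sh g1 g2 T T' q x 3 ≤ H + T') ↔ (0 ≤ x 3 ∧ x 3 ≤ H)) ∧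
    ((0 < sh g1 g2 T T' q x 3 ∧ sh g1 g2 T T' q x 3 < H + T') ↔ (0 < x 3 ∧ x 3 < H))
  have a1 : x 3 ≤ 0 → sh g1 g2 T T' q x 3 = x 3 := by
    intro h
    rw [sh_three hG, hG.z1 _ (by linarith), hG.z2 _ (by linarith)]
    ring
  have a2 : H ≤ x 3 → sh g1 g2 T T' q x 3 = x 3 + T' := by
    intro h
    rw [sh_three hG, hG.o1 _ (by linarith), hG.o2 _ (by linarith)]
    ring
  have a3 : x 3 ≤ sh g1 g2 T T' q x 3 ∧ sh g1 g2 T T' q x 3 ≤ x 3 + T' := by
    rw [sh_three hG]
    have b1 := mul_nonneg (g1_nonneg hG (x 3)) hx1.le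
    have b2 := mul_nonneg (g2_nonneg hG (x 3)) (sub_nonneg.2 hx2.le)
    have b3 := mul_le_mul_of_nonneg_right (g1_le hG (x 3)) hx1.le
    have b4 := mul_le_mul_of_nonneg_right (g2_le hG (x 3)) (sub_nonneg.2 hx2.le)
    constructor <;> linarith
  rcases le_or_gt (x 3) 0 with h | h
  · rw [a1 h]
    constructor
    · constructor
      · rintro ⟨c1, c2⟩
        exact ⟨c1, by linarith⟩
      · rintro ⟨c1, c2⟩
        exact ⟨c1, by linarith⟩
    · constructor
      · rintro ⟨c1, c2⟩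
        linarith
      · rintro ⟨c1, c2⟩
        linarith
  · rcases le_or_gt H (x 3) with h' | h'
    · rw [a2 h']
      constructor
      · constructor
        · rintro ⟨c1, c2⟩
          exact ⟨by linarith, by linarith⟩
        · rintro ⟨c1, c2⟩
          exact ⟨by linarith, by linarith⟩
      · constructor
        · rintro ⟨c1, c2⟩
          exact ⟨by linarith, by linarith⟩
        · rintro ⟨c1, c2⟩
          exact ⟨by linarith, by linarith⟩
    · obtain ⟨a4, a5⟩ := a3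
      constructor
      · exact ⟨fun _ => ⟨h.le, h'.le⟩, fun _ => ⟨by linarith, by linarith⟩⟩
      · exact ⟨fun _ => ⟨h, h'⟩, fun _ => ⟨by linarith, by linarith⟩⟩

end SH1

theorem sh1 : S_SH1 := by
  intro g1 g2 H ε T T' q hG
  exact ⟨SH1.smooth hG, SH1.inj hG, fun x hx => SH1.imm hG hx,
    fun W hW hWo => SH1.openMap hG hW hWo, fun x hx t ht => SH1.grow hG hx ht.le,
    fun x hx => SH1.slabs hG hx⟩

end Pool.Agent.N15.SF
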