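import Mathlib
import Pool.Agent.N15.SF.Stm2

/-!
# Project SF (helper15): sheared surfaces (helper413)
-/

set_option autoImplicit false

namespace Pool.Agent.N15.SF

open scoped ContDiff RealInnerProductSpace ENNReal NNReal Topology
open MeasureTheory Set Metric Filter
open Pool.Agent.Y503.RB Pool.Agent.N503.ML Pool.Agent.N15.RC

namespace SH2aux

/-- The height of the shear. -/
noncomputable def sht (g1 g2 : ℝ → ℝ) (T T' : ℝ) (q : E4) (x : E4) : ℝ :=
  g1 (x 3) * (1 - g2 (x 3)) * (T + ⟪q, x⟫) + g2 (x 3) * T'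

lemma sh_eq (g1 g2 : ℝ → ℝ) (T T' : ℝ) (q : E4) (x : E4) :
    sh g1 g2 T T' q x = x + sht g1 g2 T T' q x • vert := rfl

lemma add_vert_three (x : E4) (c : ℝ) : (x + c • vert) 3 = x 3 + c := by
  have h : (x + c • vert) 3 = x 3 + c * vert 3 := rfl
  rw [h, vert_three, mul_one]

lemma sub_vert_three (x : E4) (c : ℝ) : (x - c • vert) 3 = x 3 - c := by
  have h : (x - c • vert) 3 = x 3 - c * vert 3 := rfl
  rw [h, vert_three, mul_one]

lemma sh_three (g1 g2 : ℝ → ℝ) (T T' : ℝ) (q : E4) (x : E4) :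
    sh g1 g2 T T' q x 3 = x 3 + sht g1 g2 T T' q x := by
  rw [sh_eq, add_vert_three]

variable {g1 g2 : ℝ → ℝ} {H ε T T' : ℝ} {q : E4}

lemma g1_nonneg (G : GD g1 g2 H ε q) (t : ℝ) : 0 ≤ g1 t := by
  rcases le_total t (ε / 4) with h | h
  · rw [G.z1 t h]
  · rw [← G.z1 (ε / 4) le_rfl]; exact G.m1 h

lemma g1_le (G : GD g1 g2 H ε q) (t : ℝ) : g1 t ≤ 1 := by
  rcases le_total (ε / 2) t with h | h
  · rw [G.o1 t h]
  · rw [← G.o1 (ε / 2) le_rfl]; exact G.m1 h

lemma g2_nonneg (G : GD g1 g2 H ε q) (t : ℝ) : 0 ≤ g2 t := by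
  rcases le_total t (H - ε / 2) with h | h
  · rw [G.z2 t h]
  · rw [← G.z2 (H - ε / 2) le_rfl]; exact G.m2 h

lemma g2_le (G : GD g1 g2 H ε q) (t : ℝ) : g2 t ≤ 1 := by
  rcases le_total (H - ε / 4) t with h | h
  · rw [G.o2 t h]
  · rw [← G.o2 (H - ε / 4) le_rfl]; exact G.m2 h

lemma sht_nonneg (G : GD g1 g2 H ε q) {x : E4} (hx : x ∈ Dom T T' q) :
    0 ≤ sht g1 g2 T T' q x := by
  have h1 := g1_nonneg G (x 3)
  have h2 := g2_nonneg G (x 3)
  have h3 := g2_le G (x 3)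
  have h4 : 0 < T + ⟪q, x⟫ := hx.1
  have h5 : T + ⟪q, x⟫ < T' := hx.2
  have h6 : 0 ≤ g1 (x 3) * (1 - g2 (x 3)) * (T + ⟪q, x⟫) :=
    mul_nonneg (mul_nonneg h1 (by linarith)) h4.le
  have h7 : 0 ≤ g2 (x 3) * T' := mul_nonneg h2 (by linarith)
  unfold sht
  linarith

lemma sht_le (G : GD g1 g2 H ε q) {x : E4} (hx : x ∈ Dom T T' q) :
    sht g1 g2 T T' q x ≤ T' := by
  have h1 := g1_nonneg G (x 3)
  have h1' := g1_le G (x 3)
  have h3 := g2_le G (x 3)
  have h4 : 0 < T + ⟪q, x⟫ := hx.1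
  have h5 : T + ⟪q, x⟫ < T' := hx.2
  have h6 : g1 (x 3) * (1 - g2 (x 3)) * (T + ⟪q, x⟫) ≤ 1 * (1 - g2 (x 3)) * T' :=
    mul_le_mul (mul_le_mul_of_nonneg_right h1' (by linarith)) h5.le h4.le
      (mul_nonneg zero_le_one (by linarith))
  unfold sht
  linarith

lemma sh_low (G : GD g1 g2 H ε q) {x : E4} (hx : x 3 ≤ ε / 4) : sh g1 g2 T T' q x = x := by
  have h0 := G.e0
  have h1 := G.eH
  rw [sh_eq, sht, G.z1 _ hx, G.z2 _ (by linarith)]
  simp

lemma sh_high (G : GD g1 g2 H ε q) {x : E4} (hx : H - ε / 4 ≤ x 3) :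
    sh g1 g2 T T' q x = x + T' • vert := by
  rw [sh_eq, sht, G.o2 _ hx]
  simp

lemma dom_open : IsOpen (Dom T T' q) := by
  have hc : Continuous fun x : E4 => T + ⟪q, x⟫ := by fun_prop
  exact (isOpen_lt continuous_const hc).inter (isOpen_lt hc continuous_const)

lemma mem_low (G : GD g1 g2 H ε q) {F : Set E4} (hF : F ⊆ Dom T T' q) {x : E4}
    (hx : x 3 ≤ ε / 4) : x ∈ sh g1 g2 T T' q '' F ↔ x ∈ F := by
  constructor
  · rintro ⟨u, hu, rfl⟩
    have h1 := sht_nonneg G (hF hu)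
    rw [sh_three] at hx
    rw [sh_low G (by linarith)]
    exact hu
  · intro h
    exact ⟨x, h, sh_low G hx⟩

lemma mem_high (G : GD g1 g2 H ε q) {F : Set E4} (hF : F ⊆ Dom T T' q) {x : E4}
    (hx : H + T' - ε / 4 ≤ x 3) : x ∈ sh g1 g2 T T' q '' F ↔ x - T' • vert ∈ F := by
  constructor
  · rintro ⟨u, hu, rfl⟩
    have h1 := sht_le G (hF hu)
    rw [sh_three] at hx
    rw [sh_high G (by linarith), add_sub_cancel_right]
    exact hu
  · intro h
    refine ⟨_, h, ?_⟩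
    rw [sh_high G (by rw [sub_vert_three]; linarith), sub_add_cancel]

/-- a restricted embedding followed by an open embedding of the domain -/
lemma emb_comp {S : E4 → E4} {D : Set E4} (hS : Continuous S) (hi : InjOn S D) (hD : IsOpen D)
    (ho : ∀ W ⊆ D, IsOpen W → IsOpen (S '' W)) {φ : ℂ → E4} {U U' : Set ℂ} (hU : U' ⊆ U)
    (hφ : Topology.IsEmbedding (fun z : U => φ z)) (hm : ∀ z ∈ U', φ z ∈ D) :
    Topology.IsEmbedding (fun z : U' => S (φ z)) := by
  have h1 : Topology.IsOpenEmbedding (fun x : D => S x) := by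
    refine Topology.IsOpenEmbedding.of_continuous_injective_isOpenMap
      (hS.comp continuous_subtype_val) ?_ ?_
    · intro a b hab
      exact Subtype.ext (hi a.2 b.2 hab)
    · intro W hW
      have h2 : (fun x : D => S x) '' W = S '' (Subtype.val '' W) := by
        rw [image_image]
      rw [h2]
      refine ho _ ?_ (hD.isOpenMap_subtype_val W hW)
      rintro _ ⟨a, _, rfl⟩
      exact a.2
  have h3 : Topology.IsEmbedding (fun z : U' => φ z) :=
    hφ.comp (Topology.IsEmbedding.inclusion hU)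
  have h4 : Topology.IsEmbedding (fun z : U' => (⟨φ z, hm z z.2⟩ : D)) :=
    h3.codRestrict D (fun z => hm z z.2)
  exact h1.isEmbedding.comp h4

end SH2aux

open SH2aux

/-- SH2 -/
theorem sh2 : S_SH2 := by
  intro h0 g1 g2 H ε T T' q G F hF hFD hT' hc1 hc2
  obtain ⟨hs, hinj, himm, hop, -, hsl⟩ := h0 g1 g2 H ε T T' q G
  set S := sh g1 g2 T T' q with hS
  have hDo : IsOpen (Dom T T' q) := dom_open
  have he0 := G.e0
  have heH := G.eH
  refine ⟨⟨hF.compact.image hs.continuous, ?_, ?_, ?_⟩, ?_⟩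
  · rintro _ ⟨x, hx, rfl⟩
    exact ((hsl x (hFD hx)).1).2 (hF.sub hx)
  · rintro _ ⟨p, hp, rfl⟩
    obtain ⟨φ, U, V, hφ, hV, hpV, hFV⟩ := hF.loc p hp
    have hU' : IsOpen (U ∩ φ ⁻¹' (Dom T T' q)) :=
      hφ.smooth.continuousOn.isOpen_inter_preimage hφ.isOpen hDo
    refine ⟨S ∘ φ, U ∩ φ ⁻¹' (Dom T T' q), S '' (V ∩ Dom T T' q), ⟨hU', ?_, ?_, ?_⟩,
      hop _ inter_subset_right (hV.inter hDo), ⟨p, ⟨hpV, hFD hp⟩, rfl⟩, ?_⟩
    · exact hs.comp_contDiffOn (hφ.smooth.mono inter_subset_left)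
    · rintro z ⟨hz, hzD⟩
      have hd : DifferentiableAt ℝ φ z :=
        (hφ.smooth.contDiffAt (hφ.isOpen.mem_nhds hz)).differentiableAt (by simp)
      have hd2 : DifferentiableAt ℝ S (φ z) := hs.contDiffAt.differentiableAt (by simp)
      rw [fderiv_comp z hd2 hd]
      exact (himm _ hzD).comp (hφ.imm z hz)
    · exact emb_comp hs.continuous hinj hDo hop inter_subset_left hφ.emb (fun z hz => hz.2)
    · ext y
      constructor
      · rintro ⟨⟨u, hu, rfl⟩, v, ⟨hv1, hv2⟩, hvu⟩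
        have huv : v = u := hinj hv2 (hFD hu) hvu
        subst huv
        have h1 : v ∈ φ '' U ∩ slab H := by rw [← hFV]; exact ⟨hu, hv1⟩
        obtain ⟨⟨z, hz, rfl⟩, h2⟩ := h1
        exact ⟨⟨z, ⟨hz, hv2⟩, rfl⟩, ((hsl _ hv2).1).2 h2⟩
      · rintro ⟨⟨z, ⟨hz, hzD⟩, rfl⟩, h2⟩
        have h3 : φ z ∈ slab H := ((hsl _ hzD).1).1 h2
        have h4 : φ z ∈ F ∩ V := by rw [hFV]; exact ⟨⟨z, hz, rfl⟩, h3⟩
        exact ⟨⟨φ z, h4.1, rfl⟩, φ z, ⟨h4.2, hzD⟩, rfl⟩
  · refine ⟨ε / 4, by linarith, by linarith, ?_, ?_⟩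
    · intro x hx0 hx1
      rw [mem_low G hFD hx1, mem_low G hFD (by rw [sub_vert_three]; linarith)]
      exact hc1 x hx0 (by linarith)
    · intro x hx0 hx1
      rw [mem_high G hFD (by linarith), mem_high G hFD (by rw [add_vert_three]; linarith),
        hc2 (x - T' • vert) (by rw [sub_vert_three]; linarith)
          (by rw [sub_vert_three]; linarith), sub_vert_three]
      have h5 : x - T' • vert + (H - (x 3 - T')) • vert =
          x + (H + T' - x 3) • vert - T' • vert := by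
        rw [show H - (x 3 - T') = H + T' - x 3 by ring]
        abel
      rw [h5]
  · refine ⟨S, Dom T T' q, hDo, hFD, hs.contDiffOn, hinj, himm, rfl, ?_, ?_, ?_⟩
    · intro x _ hx
      exact sh_low G (by rw [hx]; linarith)
    · intro x _ hx
      rw [add_sub_cancel_left]
      exact sh_high G (by rw [hx]; linarith)
    · intro x hx
      have h1 := hF.sub hx
      have h2 := sht_nonneg G (hFD hx)
      have h3 := sht_le G (hFD hx)
      have h4 : S x 3 = x 3 + sht g1 g2 T T' q x := sh_three g1 g2 T T' q x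
      have h5 : 0 ≤ x 3 := h1.1
      have h6 : x 3 ≤ H := h1.2
      refine ⟨⟨fun h => by linarith, fun h => ?_⟩, ⟨fun h => by linarith, fun h => ?_⟩⟩
      · rw [hS, sh_low G (by rw [h]; linarith), h]
      · rw [hS, sh_high G (by rw [h]; linarith), add_vert_three, h]

end Pool.Agent.N15.SF
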