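import Mathlib
import Pool.Agent.N15.SF.Stm2

/-!
# Project SF (helper15), part SH3 (helper595): the extrema of the height on the sheared surface
-/

set_option autoImplicit false

namespace Pool.Agent.N15.SF.SH3

open scoped ContDiff RealInnerProductSpace ENNReal NNReal Topology
open MeasureTheory Set Metric Filter
open Pool.Agent.Y503.RB Pool.Agent.N503.ML Pool.Agent.N15.RC Pool.Agent.N15.SF

theorem add_vert_three (p : E4) (t : ℝ) : (p + t • vert) 3 = p 3 + t := by
  rw [PiLp.add_apply, PiLp.smul_apply, vert_three, smul_eq_mul, mul_one]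

/-- a lower bound for the derivative -/
theorem deriv_ge {f : ℝ → ℝ} {f' : ℝ} (h : HasDerivAt f f' 0) (hf : ∀ t : ℝ, 0 < t → f 0 + t ≤ f t) :
    1 ≤ f' := by
  have h1 := (hasDerivAt_iff_tendsto_slope.1 h).mono_left
    (nhdsWithin_mono (0 : ℝ) (fun t (ht : t ∈ Ioi (0 : ℝ)) => (ne_of_gt ht : t ≠ 0)))
  refine ge_of_tendsto h1 ?_
  filter_upwards [self_mem_nhdsWithin] with t ht
  have ht' : (0 : ℝ) < t := ht
  rw [slope_def_field, le_div_iff₀ (by linarith)]
  have := hf t ht'
  linarith

section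
variable {g1 g2 : ℝ → ℝ} {H ε T T' : ℝ} {q : E4}

theorem sh_three (x : E4) : sh g1 g2 T T' q x 3 =
    x 3 + (g1 (x 3) * (1 - g2 (x 3)) * (T + ⟪q, x⟫) + g2 (x 3) * T') := by
  unfold sh
  rw [add_vert_three]

theorem sh_mid (hG : GD g1 g2 H ε q) {x : E4} (h1 : ε / 2 ≤ x 3) (h2 : x 3 ≤ H - ε / 2) :
    sh g1 g2 T T' q x 3 = ⟪q + vert, x⟫ + T := by
  rw [sh_three, hG.o1 _ h1, hG.z2 _ h2, inner_add_left, inner_vert]
  ring

theorem dom_open : IsOpen (Dom T T' q) := by
  unfold Dom
  have hc : Continuous (fun x : E4 => T + ⟪q, x⟫) := by fun_prop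
  exact (isOpen_lt continuous_const hc).inter (isOpen_lt hc continuous_const)

/-- near a point in the collar the surface contains a vertical segment -/
theorem collar_pt {F : Set E4}
    (hc0 : ∀ x : E4, 0 ≤ x 3 → x 3 ≤ ε → (x ∈ F ↔ x - (x 3) • vert ∈ F))
    (hc1 : ∀ x : E4, H - ε ≤ x 3 → x 3 ≤ H → (x ∈ F ↔ x + (H - x 3) • vert ∈ F))
    {p : E4} (hp : p ∈ F) (h0 : 0 < p 3) (hH : p 3 < H) (hcol : p 3 < ε ∨ H - ε < p 3) :
    Tendsto (fun t : ℝ => p + t • vert) (𝓝 0) (𝓝[F] p) := by
  rw [tendsto_nhdsWithin_iff]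
  constructor
  · have hc : Continuous (fun t : ℝ => p + t • vert) := by fun_prop
    have := hc.tendsto 0
    simpa using this
  · rcases hcol with h | h
    · have e1 : ∀ᶠ t : ℝ in 𝓝 0, 0 < p 3 + t :=
        (continuous_const.add continuous_id).tendsto' (0 : ℝ) (p 3) (by simp) |>.eventually_const_lt h0
      have e2 : ∀ᶠ t : ℝ in 𝓝 0, p 3 + t < ε :=
        (continuous_const.add continuous_id).tendsto' (0 : ℝ) (p 3) (by simp) |>.eventually_lt_const h
      filter_upwards [e1, e2] with t h1 h2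
      rw [hc0 (p + t • vert) (by rw [add_vert_three]; exact h1.le) (by rw [add_vert_three]; exact h2.le),
        add_vert_three]
      have h3 := (hc0 p h0.le h.le).1 hp
      have e : p + t • vert - (p 3 + t) • vert = p - p 3 • vert := by
        rw [add_smul]; abel
      rw [e]
      exact h3
    · have e1 : ∀ᶠ t : ℝ in 𝓝 0, H - ε < p 3 + t :=
        (continuous_const.add continuous_id).tendsto' (0 : ℝ) (p 3) (by simp) |>.eventually_const_lt h
      have e2 : ∀ᶠ t : ℝ in 𝓝 0, p 3 + t < H :=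
        (continuous_const.add continuous_id).tendsto' (0 : ℝ) (p 3) (by simp) |>.eventually_lt_const hH
      filter_upwards [e1, e2] with t h1 h2
      rw [hc1 (p + t • vert) (by rw [add_vert_three]; exact h1.le) (by rw [add_vert_three]; exact h2.le),
        add_vert_three]
      have h3 := (hc1 p h.le hH.le).1 hp
      have e : p + t • vert + (H - (p 3 + t)) • vert = p + (H - p 3) • vert := by
        rw [add_assoc, ← add_smul]; congr 2; ring
      rw [e]
      exact h3

theorem mid_near (hG : GD g1 g2 H ε q) {p : E4} (h1 : ε ≤ p 3) (h2 : p 3 ≤ H - ε) :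
    ∀ᶠ x in 𝓝 p, sh g1 g2 T T' q x 3 = ⟪q + vert, x⟫ + T := by
  have he := hG.e0
  have hc : Continuous (fun x : E4 => x 3) := by fun_prop
  have e1 : ∀ᶠ x in 𝓝 p, ε / 2 < x 3 := hc.continuousAt.eventually_const_lt (by linarith)
  have e2 : ∀ᶠ x in 𝓝 p, x 3 < H - ε / 2 := hc.continuousAt.eventually_lt_const (by linarith)
  filter_upwards [e1, e2] with x h3 h4
  exact sh_mid hG h3.le h4.le

end

theorem sh3 : S_SH3 := by
  intro hSH1 hTAN g1 g2 H ε T T' q hG F hF hFD hc0 hc1 hloc
  obtain ⟨Ssm, Sinj, Simm, Sopen, Smono, Sslab⟩ := hSH1 g1 g2 H ε T T' q hG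
  set S := sh g1 g2 T T' q with hS
  set D := Dom T T' q with hD
  have he := hG.e0
  have heH := hG.eH
  have hDo : IsOpen D := dom_open
  have hScont : Continuous S := Ssm.continuous
  -- the restriction to the domain is an open embedding
  have hemb : Topology.IsOpenEmbedding (fun x : D => S x) := by
    refine Topology.IsOpenEmbedding.of_continuous_injective_isOpenMap
      (hScont.comp continuous_subtype_val) ?_ ?_
    · intro x y hxy
      exact Subtype.ext (Sinj x.2 y.2 hxy)
    · intro W hW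
      have h1 := hDo.isOpenMap_subtype_val W hW
      have h2 := Sopen (Subtype.val '' W) (by
        rintro _ ⟨x, _, rfl⟩
        exact x.2) h1
      rw [image_image] at h2
      exact h2
  refine ⟨?_, ?_, ?_⟩
  · -- the Morse property
    rintro P ⟨⟨p, hp, rfl⟩, hP⟩
    have hpD := hFD hp
    have hpo : p ∈ oslab H := (Sslab p hpD).2.1 hP
    obtain ⟨φ, U, V, z, hE, hV, hVs, hFV, hz, hzp, hnd⟩ := hloc p ⟨hp, hpo⟩
    have hφF : ∀ w ∈ U, φ w ∈ F := by
      intro w hw
      have : φ w ∈ F ∩ V := by rw [hFV]; exact mem_image_of_mem _ hw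
      exact this.1
    have hpV : p ∈ V := by
      have : p ∈ F ∩ V := by rw [hFV]; exact ⟨z, hz, hzp⟩
      exact this.2
    have hφat : ∀ w ∈ U, ContDiffAt ℝ ∞ φ w := fun w hw =>
      hE.smooth.contDiffAt (hE.isOpen.mem_nhds hw)
    have hφd : ∀ w ∈ U, DifferentiableAt ℝ φ w := fun w hw =>
      (hφat w hw).differentiableAt (by simp)
    have hSd : ∀ x, DifferentiableAt ℝ S x := fun x =>
      (Ssm.contDiffAt).differentiableAt (by simp)
    refine ⟨fun w => S (φ w), U, S '' (V ∩ D), z, ⟨hE.isOpen, ?_, ?_, ?_⟩, ?_, ?_, ?_, hz, ?_, ?_⟩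
    · exact Ssm.comp_contDiffOn hE.smooth
    · intro w hw
      have h1 : fderiv ℝ (fun w => S (φ w)) w = (fderiv ℝ S (φ w)).comp (fderiv ℝ φ w) :=
        fderiv_comp w (hSd _) (hφd w hw)
      rw [h1]
      exact (Simm _ (hFD (hφF w hw))).comp (hE.imm w hw)
    · have h1 : Topology.IsEmbedding (fun w : U => (⟨φ w, hFD (hφF w w.2)⟩ : D)) :=
        hE.emb.codRestrict D (fun w => hFD (hφF w w.2))
      exact hemb.isEmbedding.comp h1
    · exact Sopen _ inter_subset_right (hV.inter hDo)
    · exact ⟨p, ⟨hpV, hpD⟩, rfl⟩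
    · ext x
      constructor
      · rintro ⟨⟨a, ha, rfl⟩, ⟨b, ⟨hbV, hbD⟩, hab⟩⟩
        have h1 : b = a := Sinj hbD (hFD ha) hab
        rw [h1] at hbV
        have h2 : a ∈ φ '' U := by rw [← hFV]; exact ⟨ha, hbV⟩
        obtain ⟨w, hw, rfl⟩ := h2
        exact ⟨w, hw, rfl⟩
      · rintro ⟨w, hw, rfl⟩
        have h1 : φ w ∈ F ∩ V := by rw [hFV]; exact mem_image_of_mem _ hw
        exact ⟨⟨φ w, h1.1, rfl⟩, ⟨φ w, ⟨h1.2, hFD h1.1⟩, rfl⟩⟩
    · simp only [hzp]
    · intro hcr
      by_cases hcol : p 3 < ε ∨ H - ε < p 3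
      · exfalso
        have h1 : (0 < φ z 3 ∧ φ z 3 < ε) ∨ (H - ε < φ z 3 ∧ φ z 3 < H) := by
          rw [hzp]
          rcases hcol with h | h
          · exact Or.inl ⟨hpo.1, h⟩
          · exact Or.inr ⟨h, hpo.2⟩
        obtain ⟨v, hv⟩ := hTAN F H ε he (by linarith) hc0 hc1 φ U V hE hV hFV z hz h1
        set h : E4 → ℝ := fun x => S x 3 with hh
        have hhd : DifferentiableAt ℝ h p := by
          have h2 : h = fun x => ⟪vert, S x⟫ := by
            funext x
            rw [inner_vert]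
          rw [h2]
          exact (innerSL ℝ vert).differentiableAt.comp p (hSd p)
        have h2 : fderiv ℝ (fun w => h (φ w)) z = (fderiv ℝ h (φ z)).comp (fderiv ℝ φ z) := by
          have hd2 : DifferentiableAt ℝ h (φ z) := by rw [hzp]; exact hhd
          exact fderiv_comp z hd2 (hφd z hz)
        have h3 : fderiv ℝ h p vert = 0 := by
          have h4 : fderiv ℝ (fun w => h (φ w)) z v = 0 := by
            have : (fun w => h (φ w)) = fun w => (fun w => S (φ w)) w 3 := rfl
            rw [this, hcr]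
            rfl
          rw [h2, ContinuousLinearMap.comp_apply, hzp] at h4
          have h5 : fderiv ℝ φ z v = vert := hv
          rw [h5] at h4
          exact h4
        have h4 : HasDerivAt (fun t : ℝ => h (p + t • vert)) (fderiv ℝ h p vert) 0 := by
          have h5 : HasDerivAt (fun t : ℝ => p + t • vert) vert 0 := by
            have := ((hasDerivAt_id (0 : ℝ)).smul_const vert).const_add p
            simpa using this
          have h6 : HasFDerivAt h (fderiv ℝ h p) (p + (0 : ℝ) • vert) := by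
            rw [zero_smul, add_zero]
            exact hhd.hasFDerivAt
          exact h6.comp_hasDerivAt 0 h5
        have h5 := deriv_ge h4 (fun t ht => by
          have := Smono p hpD t ht
          simp only [hh, zero_smul, add_zero]
          exact this)
        rw [h3] at h5
        linarith
      · push Not at hcol
        have hnear := mid_near (T := T) (T' := T') hG hcol.1 hcol.2
        have hev : (fun w => S (φ w) 3) =ᶠ[𝓝 z] fun w => ⟪q + vert, φ w⟫ + T := by
          have h1 : Tendsto φ (𝓝 z) (𝓝 p) := by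
            rw [← hzp]
            exact (hφd z hz).continuousAt
          exact h1.eventually hnear
        obtain ⟨a1, a2⟩ := hess (hφat z hz) (q + vert) T
        have h1 : ∀ v : ℂ, ⟪q + vert, d1 φ v z⟫ = 0 := by
          intro v
          rw [← a1 v, ← hev.fderiv_eq]
          have : (fun w => S (φ w) 3) = fun w => (fun w => S (φ w)) w 3 := rfl
          rw [this, hcr]
          rfl
        have h2 := hnd h1
        intro u hu
        apply nondegE (hφat z hz) h2
        intro v
        rw [← a2 u v, ← hev.fderiv.fderiv_eq]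
        exact hu v
  · -- local maxima
    unfold nmaxF
    have hsub : {P | P ∈ S '' F ∩ oslab (H + T') ∧ IsLocalMaxOn (fun x : E4 => x 3) (S '' F) P} ⊆
        S '' (LMax F H (q + vert)) := by
      rintro P ⟨⟨⟨p, hp, rfl⟩, hP⟩, hmax⟩
      have hpD := hFD hp
      have hpo : p ∈ oslab H := (Sslab p hpD).2.1 hP
      refine ⟨p, ⟨⟨hp, hpo⟩, ?_⟩, rfl⟩
      have hten : Tendsto S (𝓝[F] p) (𝓝[S '' F] (S p)) :=
        hScont.continuousWithinAt.tendsto_nhdsWithin (mapsTo_image S F)
      have hmax' : ∀ᶠ x in 𝓝[F] p, S x 3 ≤ S p 3 := hten.eventually hmax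
      by_cases hcol : p 3 < ε ∨ H - ε < p 3
      · exfalso
        have h1 := (collar_pt hc0 hc1 hp hpo.1 hpo.2 hcol).eventually hmax'
        have h2 : ∀ᶠ t : ℝ in 𝓝[>] 0, S (p + t • vert) 3 ≤ S p 3 := h1.filter_mono nhdsWithin_le_nhds
        obtain ⟨t, h3, ht⟩ := (h2.and self_mem_nhdsWithin).exists
        have ht' : (0 : ℝ) < t := ht
        have := Smono p hpD t ht'
        linarith
      · push Not at hcol
        have hnear := mid_near (T := T) (T' := T') hG hcol.1 hcol.2
        have hpp : S p 3 = ⟪q + vert, p⟫ + T := hnear.self_of_nhds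
        have hnear' : ∀ᶠ x in 𝓝[F] p, S x 3 = ⟪q + vert, x⟫ + T := hnear.filter_mono nhdsWithin_le_nhds
        show ∀ᶠ x in 𝓝[F] p, ⟪q + vert, x⟫ ≤ ⟪q + vert, p⟫
        filter_upwards [hmax', hnear'] with x h1 h2
        rw [h2, hpp] at h1
        linarith
    exact (encard_le_encard hsub).trans (encard_image_le _ _)
  · -- local minima
    unfold nminF
    have hsub : {P | P ∈ S '' F ∩ oslab (H + T') ∧ IsLocalMinOn (fun x : E4 => x 3) (S '' F) P} ⊆
        S '' (LMin F H (q + vert)) := by
      rintro P ⟨⟨⟨p, hp, rfl⟩, hP⟩, hmin⟩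
      have hpD := hFD hp
      have hpo : p ∈ oslab H := (Sslab p hpD).2.1 hP
      refine ⟨p, ⟨⟨hp, hpo⟩, ?_⟩, rfl⟩
      have hten : Tendsto S (𝓝[F] p) (𝓝[S '' F] (S p)) :=
        hScont.continuousWithinAt.tendsto_nhdsWithin (mapsTo_image S F)
      have hmin' : ∀ᶠ x in 𝓝[F] p, S p 3 ≤ S x 3 := hten.eventually hmin
      by_cases hcol : p 3 < ε ∨ H - ε < p 3
      · exfalso
        have h0 := collar_pt hc0 hc1 hp hpo.1 hpo.2 hcol
        have h1 := h0.eventually hmin'
        have h1' := h0.eventually (self_mem_nhdsWithin (a := p) (s := F))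
        have h2 : ∀ᶠ t : ℝ in 𝓝[<] 0, S p 3 ≤ S (p + t • vert) 3 ∧ p + t • vert ∈ F :=
          (h1.and h1').filter_mono nhdsWithin_le_nhds
        obtain ⟨t, ⟨h3, h4⟩, ht⟩ := (h2.and self_mem_nhdsWithin).exists
        have ht' : t < (0 : ℝ) := ht
        have h5 := Smono (p + t • vert) (hFD h4) (-t) (by linarith)
        have e : p + t • vert + (-t) • vert = p := by
          rw [neg_smul]; abel
        rw [e] at h5
        linarith
      · push Not at hcol
        have hnear := mid_near (T := T) (T' := T') hG hcol.1 hcol.2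
        have hpp : S p 3 = ⟪q + vert, p⟫ + T := hnear.self_of_nhds
        have hnear' : ∀ᶠ x in 𝓝[F] p, S x 3 = ⟪q + vert, x⟫ + T := hnear.filter_mono nhdsWithin_le_nhds
        show ∀ᶠ x in 𝓝[F] p, ⟪q + vert, p⟫ ≤ ⟪q + vert, x⟫
        filter_upwards [hmin', hnear'] with x h1 h2
        rw [h2, hpp] at h1
        linarith
    exact (encard_le_encard hsub).trans (encard_image_le _ _)

end Pool.Agent.N15.SF.SH3
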