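import Pool.Agent.N15.SF.Stm

/-!
# SF/TAN: near the boundary the vertical vector is tangent to the surface
(helper568, for project SF of helper15)
-/

set_option autoImplicit false

namespace Pool.Agent.N15.SF

open scoped ContDiff Topology
open Set Filter
open Pool.Agent.Y503.RB Pool.Agent.N503.ML

/-- a smooth patch whose image contains a short segment in the direction `u` is tangent to `u` -/
lemma tan_of_segment {φ : ℂ → E4} {U : Set ℂ} (h : EPatch φ U) {z : ℂ} (hz : z ∈ U) {u : E4}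
    (hseg : ∀ᶠ t in 𝓝 (0 : ℝ), φ z + t • u ∈ φ '' U) : ∃ v : ℂ, d1 φ v z = u := by
  classical
  by_contra hcon
  push Not at hcon
  set L : ℂ →L[ℝ] E4 := fderiv ℝ φ z with hL
  have hLi : Function.Injective L := h.imm z hz
  -- the linear map `(w, s) ↦ L w - s u`
  let M : (ℂ × ℝ) →ₗ[ℝ] E4 := L.toLinearMap.coprod (-(LinearMap.toSpanSingleton ℝ E4 u))
  have hM : ∀ w s, M (w, s) = L w - s • u := by
    intro w s
    simp [M, sub_eq_add_neg]
  have hker : LinearMap.ker M = ⊥ := by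
    rw [LinearMap.ker_eq_bot']
    rintro ⟨w, s⟩ h0
    rw [hM, sub_eq_zero] at h0
    have hs : s = 0 := by
      by_contra hs
      apply hcon (s⁻¹ • w)
      change L (s⁻¹ • w) = u
      rw [map_smul, h0, smul_smul, inv_mul_cancel₀ hs, one_smul]
    rw [hs, zero_smul] at h0
    have hw : w = 0 := hLi (by rw [h0, map_zero])
    rw [hw, hs]
    rfl
  obtain ⟨K, hK, hanti⟩ := M.exists_antilipschitzWith hker
  have hK' : (0 : ℝ) < K := by exact_mod_cast hK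
  have hbd : ∀ x : ℂ × ℝ, ‖x‖ ≤ K * ‖M x‖ := by
    intro x
    have := hanti.le_mul_dist x 0
    rwa [dist_zero_right, map_zero, dist_zero_right] at this
  -- differentiability
  have hd : HasFDerivAt φ L z :=
    ((h.smooth.contDiffAt (h.isOpen.mem_nhds hz)).differentiableAt (by simp)).hasFDerivAt
  have hlo := hd.isLittleO.def (c := 1 / (2 * K)) (by positivity)
  -- the lift of the segment
  let ζ : ℝ → U := fun t =>
    if ht : ∃ w : U, φ w = φ z + t • u then ht.choose else ⟨z, hz⟩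
  have hζ : ∀ᶠ t in 𝓝 (0 : ℝ), φ (ζ t) = φ z + t • u := by
    filter_upwards [hseg] with t ht
    obtain ⟨w, hw, hwt⟩ := ht
    have hex : ∃ w : U, φ w = φ z + t • u := ⟨⟨w, hw⟩, hwt⟩
    have : ζ t = hex.choose := dif_pos hex
    rw [this]
    exact hex.choose_spec
  have hγ : Tendsto (fun t : ℝ => φ z + t • u) (𝓝 0) (𝓝 (φ z)) := by
    have : ContinuousAt (fun t : ℝ => φ z + t • u) 0 := by fun_prop
    have h2 := this.tendsto
    simpa using h2
  have hζt : Tendsto ζ (𝓝 0) (𝓝 (⟨z, hz⟩ : U)) := by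
    rw [h.emb.isInducing.tendsto_nhds_iff]
    refine hγ.congr' ?_
    filter_upwards [hζ] with t ht
    exact ht.symm
  have hζt' : Tendsto (fun t => (ζ t : ℂ)) (𝓝 0) (𝓝 z) :=
    (continuous_subtype_val.tendsto _).comp hζt
  have hev : ∀ᶠ t in 𝓝[≠] (0 : ℝ), ‖φ (ζ t) - φ z - L (ζ t - z)‖ ≤ 1 / (2 * K) * ‖(ζ t : ℂ) - z‖ ∧
      φ (ζ t) = φ z + t • u :=
    nhdsWithin_le_nhds ((hζt'.eventually hlo).and hζ)
  obtain ⟨t, ⟨ht1, ht2⟩, ht0⟩ := (hev.and self_mem_nhdsWithin).exists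
  apply ht0
  rw [mem_singleton_iff]
  have h1 : φ (ζ t) - φ z - L (ζ t - z) = -(M ((ζ t : ℂ) - z, t)) := by
    rw [hM, ht2]
    abel
  rw [h1, norm_neg] at ht1
  have h2 := hbd ((ζ t : ℂ) - z, t)
  have h3 : ‖(ζ t : ℂ) - z‖ ≤ ‖((ζ t : ℂ) - z, t)‖ := norm_fst_le ((ζ t : ℂ) - z, t)
  have h4 : ‖t‖ ≤ ‖((ζ t : ℂ) - z, t)‖ := norm_snd_le ((ζ t : ℂ) - z, t)
  have h5 : (K : ℝ) * ‖M ((ζ t : ℂ) - z, t)‖ ≤ 1 / 2 * ‖(ζ t : ℂ) - z‖ := by
    calc (K : ℝ) * ‖M ((ζ t : ℂ) - z, t)‖ ≤ K * (1 / (2 * K) * ‖(ζ t : ℂ) - z‖) :=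
          mul_le_mul_of_nonneg_left ht1 hK'.le
      _ = 1 / 2 * ‖(ζ t : ℂ) - z‖ := by field_simp
  have h6 : ‖t‖ ≤ 0 := by linarith [norm_nonneg ((ζ t : ℂ) - z)]
  exact norm_le_zero_iff.1 h6

theorem tan : S_TAN := by
  intro F H ε hε hεH hc1 hc2 φ U V h hV hFV z hz hcase
  apply tan_of_segment h hz
  have hp : φ z ∈ F ∩ V := by rw [hFV]; exact mem_image_of_mem _ hz
  have hγ : Tendsto (fun t : ℝ => φ z + t • vert) (𝓝 0) (𝓝 (φ z)) := by
    have : ContinuousAt (fun t : ℝ => φ z + t • vert) 0 := by fun_prop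
    have h2 := this.tendsto
    simpa using h2
  have hv3 : ∀ t : ℝ, (φ z + t • vert) 3 = φ z 3 + t := by
    intro t
    simp [vert]
  have hVt : ∀ᶠ t in 𝓝 (0 : ℝ), φ z + t • vert ∈ V := hγ.eventually (hV.mem_nhds hp.2)
  rcases hcase with ⟨h1, h2⟩ | ⟨h1, h2⟩
  · have ht1 : ∀ᶠ t in 𝓝 (0 : ℝ), -(φ z 3) < t := eventually_gt_nhds (by linarith)
    have ht2 : ∀ᶠ t in 𝓝 (0 : ℝ), t < ε - φ z 3 := eventually_lt_nhds (by linarith)
    filter_upwards [hVt, ht1, ht2] with t h3 h4 h5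
    rw [← hFV]
    refine ⟨?_, h3⟩
    rw [hc1 _ (by rw [hv3]; linarith) (by rw [hv3]; linarith), hv3]
    have h6 : φ z + t • vert - (φ z 3 + t) • vert = φ z - (φ z 3) • vert := by
      rw [add_smul]; abel
    rw [h6, ← hc1 _ h1.le h2.le]
    exact hp.1
  · have ht1 : ∀ᶠ t in 𝓝 (0 : ℝ), H - ε - φ z 3 < t := eventually_gt_nhds (by linarith)
    have ht2 : ∀ᶠ t in 𝓝 (0 : ℝ), t < H - φ z 3 := eventually_lt_nhds (by linarith)
    filter_upwards [hVt, ht1, ht2] with t h3 h4 h5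
    rw [← hFV]
    refine ⟨?_, h3⟩
    rw [hc2 _ (by rw [hv3]; linarith) (by rw [hv3]; linarith), hv3]
    have h6 : φ z + t • vert + (H - (φ z 3 + t)) • vert = φ z + (H - φ z 3) • vert := by
      rw [add_assoc, ← add_smul]
      congr 2
      ring
    rw [h6, ← hc2 _ h1.le h2.le]
    exact hp.1

end Pool.Agent.N15.SF
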