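import Pool.Agent.N15.SF.Stm

/-!
# SF/TRANS: transitivity of `SameType` (helper568, for project SF of helper15)
-/

set_option autoImplicit false

namespace Pool.Agent.N15.SF

open scoped ContDiff
open Set
open Pool.Agent.Y503.RB Pool.Agent.N503.ML

theorem trans : S_TRANS := by
  rintro F F' F'' H H' H'' ⟨Φ, D, hD, hFD, hΦ, hΦi, hΦd, rfl, hΦ0, hΦH, hΦb⟩
    ⟨Ψ, D', hD', hFD', hΨ, hΨi, hΨd, rfl, hΨ0, hΨH, hΨb⟩
  refine ⟨Ψ ∘ Φ, D ∩ Φ ⁻¹' D', hΦ.continuousOn.isOpen_inter_preimage hD hD', ?_, ?_, ?_, ?_, ?_, ?_,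
    ?_, ?_⟩
  · intro x hx
    exact ⟨hFD hx, hFD' (mem_image_of_mem _ hx)⟩
  · exact hΨ.comp (hΦ.mono inter_subset_left) fun x hx => hx.2
  · intro x hx y hy hxy
    exact hΦi hx.1 hy.1 (hΨi hx.2 hy.2 hxy)
  · intro x hx
    have h1 : DifferentiableAt ℝ Φ x :=
      (hΦ.contDiffAt (hD.mem_nhds hx.1)).differentiableAt (by simp)
    have h2 : DifferentiableAt ℝ Ψ (Φ x) :=
      (hΨ.contDiffAt (hD'.mem_nhds hx.2)).differentiableAt (by simp)
    rw [fderiv_comp x h2 h1]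
    exact (hΨd (Φ x) hx.2).comp (hΦd x hx.1)
  · rw [image_comp]
  · intro x hx h0
    have h1 := hΦ0 x hx h0
    have h2 : x ∈ Φ '' F := ⟨x, hx, h1⟩
    rw [Function.comp_apply, h1]
    exact hΨ0 x h2 h0
  · intro x hx h0
    have h1 := hΦH x hx h0
    have h2 : Φ x ∈ Φ '' F := mem_image_of_mem _ hx
    have h3 : (Φ x) 3 = H' := (hΦb x hx).2.2 h0
    rw [Function.comp_apply, hΨH _ h2 h3, h1, add_assoc, ← add_smul]
    congr 2
    ring
  · intro x hx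
    have h2 : Φ x ∈ Φ '' F := mem_image_of_mem _ hx
    exact ⟨(hΨb _ h2).1.trans (hΦb x hx).1, (hΨb _ h2).2.trans (hΦb x hx).2⟩

end Pool.Agent.N15.SF
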