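import Mathlib
import Pool.Agent.N15.SF.Concl
import Pool.Agent.N15.SF.TAN
import Pool.Agent.N15.SF.TRANS
import Pool.Agent.N15.SF.LP
import Pool.Agent.N15.SF.LAMC
import Pool.Agent.N15.SF.FIN2
import Pool.Agent.N15.SF.NEAR
import Pool.Agent.N15.SF.SH1
import Pool.Agent.N15.SF.SH2
import Pool.Agent.N15.SF.SH3
import Pool.Agent.N15.SF.LIFTA

/-!
# Project SF: assembly
-/

set_option autoImplicit false

namespace Pool.Agent.N15.SF

open scoped ContDiff RealInnerProductSpace ENNReal NNReal Topology
open MeasureTheory Set Metric Filter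
open Pool.Agent.Y503.RB Pool.Agent.N503.ML Pool.Agent.N15.RC

theorem all_lift : S_LIFT := lifta sh1 sh2 SH3.sh3

/-- Counting for countable families. -/
theorem cnt' : S_CNT := by
  classical
  intro φ U A hP hA hAU
  choose c h1 h2 h3 h4 h5 using fun i => counting (hP i) (hA i) (hAU i)
  refine ⟨fun y => ∑' i, c i y, Measurable.tsum h1, ?_, ?_, ?_, ?_⟩
  · rw [lintegral_tsum (fun i => (h1 i).aemeasurable), ← ENNReal.tsum_mul_left]
    exact tsum_congr h2
  · intro y hy s hs
    have e1 : s.card = ∑ i ∈ s.image Prod.fst, (s.filter (fun x => x.1 = i)).card :=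
      Finset.card_eq_sum_card_image Prod.fst s
    rw [e1, Nat.cast_sum]
    refine le_trans (Finset.sum_le_sum fun i _ => ?_) (ENNReal.sum_le_tsum (s.image Prod.fst))
    have hinj : InjOn Prod.snd ((s.filter (fun x => x.1 = i) : Finset (ℕ × ℂ)) : Set (ℕ × ℂ)) := by
      intro a ha b hb hab
      have ha' := (Finset.mem_filter.1 (Finset.mem_coe.1 ha)).2
      have hb' := (Finset.mem_filter.1 (Finset.mem_coe.1 hb)).2
      exact Prod.ext (ha'.trans hb'.symm) hab
    rw [← Finset.card_image_of_injOn hinj]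
    refine h3 i y hy _ fun z hz => ?_
    obtain ⟨x, hx, rfl⟩ := Finset.mem_image.1 hz
    obtain ⟨hx1, rfl⟩ := Finset.mem_filter.1 hx
    exact hs x hx1
  · intro y b hb
    by_cases hbt : b = ⊤
    · rw [hbt]; exact le_top
    have hfin : ∀ i, {z | z ∈ A i ∧ CritCap (φ i) y z}.Finite := by
      intro i
      by_contra hinf
      obtain ⟨n, hn⟩ := ENNReal.exists_nat_gt hbt
      obtain ⟨t, ht, hcard⟩ := (show {z | z ∈ A i ∧ CritCap (φ i) y z}.Infinite from
        hinf).exists_subset_card_eq n
      have h6 := hb (t.image (fun z => (i, z))) (by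
        intro x hx
        obtain ⟨z, hz, rfl⟩ := Finset.mem_image.1 hx
        exact ht hz)
      rw [Finset.card_image_of_injective _ (fun a b hab => (Prod.mk.inj hab).2), hcard] at h6
      exact absurd h6 (not_le.2 hn)
    show ∑' i, c i y ≤ b
    rw [ENNReal.tsum_eq_iSup_sum]
    refine iSup_le fun I => ?_
    have h6 := hb (I.biUnion fun i => (hfin i).toFinset.image (fun z => (i, z))) (by
      intro x hx
      obtain ⟨i, hi, hx⟩ := Finset.mem_biUnion.1 hx
      obtain ⟨z, hz, rfl⟩ := Finset.mem_image.1 hx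
      exact (hfin i).mem_toFinset.1 hz)
    rw [Finset.card_biUnion, Nat.cast_sum] at h6
    · refine le_trans (Finset.sum_le_sum fun i _ => ?_) h6
      rw [Finset.card_image_of_injective _ (fun a b hab => (Prod.mk.inj hab).2)]
      refine h4 i y _ fun s hs => ?_
      have : s ⊆ (hfin i).toFinset := fun z hz => (hfin i).mem_toFinset.2 (hs z hz)
      exact_mod_cast Finset.card_le_card this
    · intro i _ j _ hij
      simp only [Function.onFun]
      rw [Finset.disjoint_left]
      intro x hx hx'
      obtain ⟨z, -, rfl⟩ := Finset.mem_image.1 hx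
      obtain ⟨w, -, hw⟩ := Finset.mem_image.1 hx'
      exact hij (Prod.mk.inj hw).1.symm
  · intro y hy
    have h6 : ∃ i, c i y ≠ 0 := by
      by_contra hc
      push Not at hc
      exact hy (ENNReal.tsum_eq_zero.2 hc)
    obtain ⟨i, hi⟩ := h6
    exact h5 i y hi

theorem all_A : S_A := mainA cnt' tan lp all_lift

theorem all_B : S_B := mainB cnt' tan FIN.fin' capmax near finn lamc

end Pool.Agent.N15.SF
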