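import Mathlib
import Pool.Agent.N15.SF.All

/-!
# Project SF: surfaces in the half-space `x₃ ≥ 0`.
-/

set_option autoImplicit false

namespace Pool.Agent.N15.SF

open scoped ContDiff RealInnerProductSpace ENNReal NNReal Topology
open MeasureTheory Set Metric Filter
open Pool.Agent.Y503.RB Pool.Agent.N503.ML Pool.Agent.N15.RC

/-- Compact smooth surface in the half-space `x₃ ≥ 0`, with boundary in the hyperplane `x₃ = 0`,
vertical near the boundary. -/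
structure HSurf (F : Set E4) : Prop where
  compact : IsCompact F
  nonneg : ∀ x ∈ F, 0 ≤ x 3
  loc : ∀ p ∈ F, ∃ (φ : ℂ → E4) (U : Set ℂ) (V : Set E4), EPatch φ U ∧ IsOpen V ∧ p ∈ V ∧
    F ∩ V = φ '' U ∩ {x | 0 ≤ x 3}
  collar : ∃ ε : ℝ, 0 < ε ∧ ∀ x : E4, 0 ≤ x 3 → x 3 ≤ ε → (x ∈ F ↔ x - (x 3) • vert ∈ F)

/-- The open half-space. -/
def ups : Set E4 := {x | 0 < x 3}

/-- The height is a Morse function on the interior of `F`. -/
def MorseS (F : Set E4) : Prop :=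
  ∀ p ∈ F ∩ ups, ∃ (φ : ℂ → E4) (U : Set ℂ) (V : Set E4) (z : ℂ), EPatch φ U ∧ IsOpen V ∧
    p ∈ V ∧ F ∩ V = φ '' U ∧ z ∈ U ∧ φ z = p ∧
    (fderiv ℝ (fun w => φ w 3) z = 0 → ∀ u : ℂ,
      (∀ v : ℂ, fderiv ℝ (fderiv ℝ (fun w => φ w 3)) z u v = 0) → u = 0)

/-- The number of the local maxima of the height in the interior of `F`. -/
noncomputable def nmaxS (F : Set E4) : ℕ∞ :=
  {p | p ∈ F ∩ ups ∧ IsLocalMaxOn (fun x : E4 => x 3) F p}.encard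

/-- The number of the local minima of the height in the interior of `F`. -/
noncomputable def nminS (F : Set E4) : ℕ∞ :=
  {p | p ∈ F ∩ ups ∧ IsLocalMinOn (fun x : E4 => x 3) F p}.encard

/-- Countable families of parametrised pieces of `F` which cover the interior of `F`. -/
structure CoverS (F : Set E4) (φ : ℕ → ℂ → E4) (U A : ℕ → Set ℂ) : Prop where
  patch : ∀ i, IPatch (φ i) (U i)
  sub : ∀ i, φ i '' U i ⊆ F
  meas : ∀ i, MeasurableSet (A i)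
  sub' : ∀ i, A i ⊆ U i
  cov : F ∩ ups ⊆ ⋃ i, φ i '' A i

/-- Upper total curvature of `F`. -/
noncomputable def uppS (F : Set E4) : ℝ≥0∞ :=
  ⨅ (φ : ℕ → ℂ → E4) (U : ℕ → Set ℂ) (A : ℕ → Set ℂ) (_ : CoverS F φ U A),
    ∑' i, ∫⁻ z in A i, curvE (φ i) z

/-- Lower total curvature of `F`. -/
noncomputable def lowS (F : Set E4) : ℝ≥0∞ :=
  ⨅ (φ : ℕ → ℂ → E4) (U : ℕ → Set ℂ) (A : ℕ → Set ℂ) (_ : CoverS F φ U A),
    ∑' i, ∫⁻ z in A i, curvL (φ i) z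

theorem int_eq {F : Set E4} {H : ℝ} (h : ∀ x ∈ F, x 3 < H) : F ∩ oslab H = F ∩ ups := by
  ext x
  exact ⟨fun hx => ⟨hx.1, hx.2.1⟩, fun hx => ⟨hx.1, hx.2, h x hx.1⟩⟩

theorem morse_eq {F : Set E4} {H : ℝ} (h : ∀ x ∈ F, x 3 < H) : MorseF F H ↔ MorseS F := by
  unfold MorseF MorseS
  rw [int_eq h]

theorem nmax_eq {F : Set E4} {H : ℝ} (h : ∀ x ∈ F, x 3 < H) : nmaxF F H = nmaxS F := by
  unfold nmaxF nmaxS
  rw [int_eq h]

theorem nmin_eq {F : Set E4} {H : ℝ} (h : ∀ x ∈ F, x 3 < H) : nminF F H = nminS F := by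
  unfold nminF nminS
  rw [int_eq h]

theorem cover_iff {F : Set E4} {H : ℝ} (h : ∀ x ∈ F, x 3 < H) (φ : ℕ → ℂ → E4)
    (U A : ℕ → Set ℂ) : Cover F H φ U A ↔ CoverS F φ U A := by
  constructor
  · rintro ⟨h1, h2, h3, h4, h5⟩
    exact ⟨h1, h2, h3, h4, by rwa [← int_eq h]⟩
  · rintro ⟨h1, h2, h3, h4, h5⟩
    exact ⟨h1, h2, h3, h4, by rwa [int_eq h]⟩

theorem upp_eq {F : Set E4} {H : ℝ} (h : ∀ x ∈ F, x 3 < H) : uppF F H = uppS F := by
  unfold uppF uppS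
  simp only [cover_iff h]

theorem low_eq {F : Set E4} {H : ℝ} (h : ∀ x ∈ F, x 3 < H) : lowF F H = lowS F := by
  unfold lowF lowS
  simp only [cover_iff h]

theorem cont_three : Continuous fun x : E4 => x 3 :=
  (EuclideanSpace.proj (3 : Fin 4) : E4 →L[ℝ] ℝ).continuous

theorem cob_of {F : Set E4} (h : HSurf F) : ∃ H, Cob F H ∧ ∀ x ∈ F, x 3 < H := by
  obtain ⟨B, hB⟩ := h.compact.exists_bound_of_continuousOn
    (f := fun x : E4 => x 3) cont_three.continuousOn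
  obtain ⟨ε, hε, hcol⟩ := h.collar
  obtain ⟨H, hH⟩ : ∃ H, H = |B| + 2 := ⟨_, rfl⟩
  have hB0 := abs_nonneg B
  have hlt : ∀ x ∈ F, x 3 ≤ |B| := fun x hx =>
    (le_abs_self _).trans ((hB x hx).trans (le_abs_self B))
  have hm1 : 0 < min ε 1 := lt_min hε one_pos
  have hm2 : min ε 1 ≤ ε := min_le_left _ _
  have hm3 : min ε 1 ≤ 1 := min_le_right _ _
  refine ⟨H, ⟨h.compact, fun x hx => ⟨h.nonneg x hx, ?_⟩, ?_, ?_⟩, fun x hx => ?_⟩
  · have := hlt x hx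
    rw [hH]; linarith
  · intro p hp
    obtain ⟨φ, U, V, hE, hV, hpV, hFV⟩ := h.loc p hp
    have hoH : IsOpen {x : E4 | x 3 < H} := isOpen_lt cont_three continuous_const
    refine ⟨φ, U ∩ φ ⁻¹' {x | x 3 < H}, V ∩ {x | x 3 < H}, hE.restrict
      (hE.smooth.continuousOn.isOpen_inter_preimage hE.isOpen hoH) inter_subset_left,
      hV.inter hoH, ⟨hpV, ?_⟩, ?_⟩
    · have := hlt p hp
      show p 3 < H
      rw [hH]; linarith
    · ext x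
      constructor
      · rintro ⟨hx1, hx2, hx3⟩
        have h1 : x ∈ F ∩ V := ⟨hx1, hx2⟩
        rw [hFV] at h1
        obtain ⟨⟨z, hz, rfl⟩, h2⟩ := h1
        exact ⟨⟨z, ⟨hz, hx3⟩, rfl⟩, h2, le_of_lt hx3⟩
      · rintro ⟨⟨z, ⟨hz, hz2⟩, rfl⟩, h2, h3⟩
        have h1 : φ z ∈ F ∩ V := by
          rw [hFV]
          exact ⟨⟨z, hz, rfl⟩, h2⟩
        exact ⟨h1.1, h1.2, hz2⟩
  · refine ⟨min ε 1, hm1, by rw [hH]; linarith, fun x h1 h2 => hcol x h1 (h2.trans hm2),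
      fun x h1 h2 => ?_⟩
    constructor
    · intro hx
      have := hlt x hx
      rw [hH] at h1
      linarith
    · intro hx
      have h3 := hlt _ hx
      have e : (x + (H - x 3) • vert) 3 = x 3 + (H - x 3) * vert 3 := rfl
      rw [e, vert_three, hH] at h3
      linarith
  · have := hlt x hx
    rw [hH]; linarith

theorem half_of {F : Set E4} {H : ℝ} (h : Cob F H) (hlt : ∀ x ∈ F, x 3 < H) : HSurf F := by
  obtain ⟨ε, hε, -, hcol, -⟩ := h.collar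
  refine ⟨h.compact, fun x hx => (h.sub hx).1, ?_, ε, hε, hcol⟩
  intro p hp
  obtain ⟨φ, U, V, hE, hV, hpV, hFV⟩ := h.loc p hp
  have hoH : IsOpen {x : E4 | x 3 < H} := isOpen_lt cont_three continuous_const
  refine ⟨φ, U ∩ φ ⁻¹' {x | x 3 < H}, V ∩ {x | x 3 < H}, hE.restrict
    (hE.smooth.continuousOn.isOpen_inter_preimage hE.isOpen hoH) inter_subset_left,
    hV.inter hoH, ⟨hpV, hlt p hp⟩, ?_⟩
  ext x
  constructor
  · rintro ⟨hx1, hx2, hx3⟩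
    have h1 : x ∈ F ∩ V := ⟨hx1, hx2⟩
    rw [hFV] at h1
    obtain ⟨⟨z, hz, rfl⟩, h2⟩ := h1
    exact ⟨⟨z, ⟨hz, hx3⟩, rfl⟩, h2.1⟩
  · rintro ⟨⟨z, ⟨hz, hz2⟩, rfl⟩, h2⟩
    have h1 : φ z ∈ F ∩ V := by
      rw [hFV]
      exact ⟨⟨z, hz, rfl⟩, h2, le_of_lt hz2⟩
    exact ⟨h1.1, h1.2, hz2⟩

/-- Surfaces in the half-space, homeomorphic to `S`, with boundary `K`. -/
def HCls (S : Type) [TopologicalSpace S] (K : Set E4) (F : Set E4) : Prop :=
  HSurf F ∧ F ∩ {x | x 3 = 0} = K ∧ Nonempty (F ≃ₜ S)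

theorem cls_lt {S : Type} [TopologicalSpace S] {K : Set E4} {F : Set E4} {H : ℝ}
    (h : Cls S K ∅ F H) : ∀ x ∈ F, x 3 < H := by
  intro x hx
  refine lt_of_le_of_ne (h.1.sub hx).2 fun he => ?_
  have h1 : x ∈ F ∩ {x | x 3 = H} := ⟨hx, he⟩
  rw [h.2.2.1, image_empty] at h1
  exact h1

theorem hcls_of {S : Type} [TopologicalSpace S] {K : Set E4} {F : Set E4} {H : ℝ}
    (h : Cls S K ∅ F H) : HCls S K F :=
  ⟨half_of h.1 (cls_lt h), h.2.1, h.2.2.2⟩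

theorem of_hcls {S : Type} [TopologicalSpace S] {K : Set E4} {F : Set E4} (h : HCls S K F) :
    ∃ H, Cls S K ∅ F H := by
  obtain ⟨H, h1, h2⟩ := cob_of h.1
  refine ⟨H, h1, h.2.1, ?_, h.2.2⟩
  rw [image_empty, eq_empty_iff_forall_notMem]
  rintro x ⟨hx1, hx2⟩
  exact (h2 x hx1).ne hx2

/-- The infimum formula in the half-space. -/
theorem half_inf (S : Type) [TopologicalSpace S] (K : Set E4) (a b : ℝ≥0) :
    ⨅ (F : Set E4) (_ : HCls S K F), ((a : ℝ≥0∞) * lowS F + b * uppS F) =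
      ⨅ (F : Set E4) (_ : HCls S K F ∧ MorseS F),
        ENNReal.ofReal (Real.pi ^ 2) * ((a : ℝ≥0∞) * (nminS F : ℝ≥0∞) +
          b * (nmaxS F : ℝ≥0∞)) := by
  have h := inf_cls all_A all_B (cls S K ∅) a b
  refine Eq.trans ?_ (h.trans ?_)
  · refine le_antisymm (le_iInf fun F => le_iInf fun H => le_iInf fun hF => ?_)
      (le_iInf fun F => le_iInf fun hF => ?_)
    · rw [low_eq (cls_lt hF), upp_eq (cls_lt hF)]
      exact iInf_le_of_le F (iInf_le_of_le (hcls_of hF) le_rfl)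
    · obtain ⟨H, hH⟩ := of_hcls hF
      rw [← low_eq (cls_lt hH), ← upp_eq (cls_lt hH)]
      exact inf2_le (fun F H => (a : ℝ≥0∞) * lowF F H + b * uppF F H) hH
  · refine le_antisymm (le_iInf fun F => le_iInf fun hF => ?_)
      (le_iInf fun F => le_iInf fun H => le_iInf fun hF => ?_)
    · obtain ⟨H, hH⟩ := of_hcls hF.1
      rw [← nmin_eq (cls_lt hH), ← nmax_eq (cls_lt hH)]
      exact inf2_le (P := fun F H => Cls S K ∅ F H ∧ MorseF F H)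
        (fun F H => ENNReal.ofReal (Real.pi ^ 2) * ((a : ℝ≥0∞) * (nminF F H : ℝ≥0∞) +
          b * (nmaxF F H : ℝ≥0∞))) ⟨hH, (morse_eq (cls_lt hH)).2 hF.2⟩
    · rw [nmin_eq (cls_lt hF.1), nmax_eq (cls_lt hF.1)]
      exact iInf_le_of_le F (iInf_le_of_le ⟨hcls_of hF.1, (morse_eq (cls_lt hF.1)).1 hF.2⟩ le_rfl)

/-- Local minima in the half-space. -/
theorem half_tfae (S : Type) [TopologicalSpace S] (K : Set E4) (m : ℕ) :
    List.TFAE [
      ∃ F, HCls S K F ∧ MorseS F ∧ nminS F ≤ m,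
      ∃ F, HCls S K F ∧ lowS F < ENNReal.ofReal (Real.pi ^ 2 * (m + 1)),
      ∀ η : ℝ, 0 < η → ∃ F, HCls S K F ∧ lowS F ≤ ENNReal.ofReal (Real.pi ^ 2 * m + η)] := by
  have h := tfae_low all_A all_B (cls S K ∅) m
  have e1 : (∃ F, HCls S K F ∧ MorseS F ∧ nminS F ≤ m) ↔
      ∃ F H, Cls S K ∅ F H ∧ MorseF F H ∧ nminF F H ≤ m := by
    constructor
    · rintro ⟨F, h1, h2, h3⟩
      obtain ⟨H, hH⟩ := of_hcls h1
      exact ⟨F, H, hH, (morse_eq (cls_lt hH)).2 h2, by rwa [nmin_eq (cls_lt hH)]⟩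
    · rintro ⟨F, H, h1, h2, h3⟩
      exact ⟨F, hcls_of h1, (morse_eq (cls_lt h1)).1 h2, by rwa [← nmin_eq (cls_lt h1)]⟩
  have e2 : ∀ P : ℝ≥0∞ → Prop, (∃ F, HCls S K F ∧ P (lowS F)) ↔
      ∃ F H, Cls S K ∅ F H ∧ P (lowF F H) := by
    intro P
    constructor
    · rintro ⟨F, h1, h2⟩
      obtain ⟨H, hH⟩ := of_hcls h1
      exact ⟨F, H, hH, by rwa [low_eq (cls_lt hH)]⟩
    · rintro ⟨F, H, h1, h2⟩
      exact ⟨F, hcls_of h1, by rwa [← low_eq (cls_lt h1)]⟩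
  rw [e1, e2 (fun x => x < ENNReal.ofReal (Real.pi ^ 2 * (m + 1)))]
  have e3 : (∀ η : ℝ, 0 < η → ∃ F, HCls S K F ∧
      lowS F ≤ ENNReal.ofReal (Real.pi ^ 2 * m + η)) ↔
      ∀ η : ℝ, 0 < η → ∃ F H, Cls S K ∅ F H ∧
        lowF F H ≤ ENNReal.ofReal (Real.pi ^ 2 * m + η) :=
    forall_congr' fun η => imp_congr_right fun _ =>
      e2 (fun x => x ≤ ENNReal.ofReal (Real.pi ^ 2 * m + η))
  rw [e3]
  exact h

end Pool.Agent.N15.SF
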